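import Mathlib

/-!
# A permutation of `ℕ` running through an increasing sequence of finite sets
-/

namespace Q92.PermChain

open Finset

variable (F : ℕ → Finset ℕ)

/-- the `j`-th block -/
def B (j : ℕ) : Finset ℕ := F (j + 1) \ F j

theorem exists_perm (h0 : F 0 = ∅) (hmono : ∀ j, F j ⊆ F (j + 1))
    (hex : ∀ n, ∃ j, n ∈ F j) (e : ∀ j, Fin (B F j).card ≃ {n // n ∈ B F j}) :
    ∃ σ : Equiv.Perm ℕ, ∀ j m, m ≤ (B F j).card →
      (range ((F j).card + m)).image σ =
        F j ∪ (univ.filter (fun i : Fin (B F j).card => i.val < m)).image
          (fun i => ((e j i : {n // n ∈ B F j}) : ℕ)) := by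
  classical
  have hmono' : Monotone F := monotone_nat_of_le_succ hmono
  have hex' : ∀ n, ∃ j, n ∈ F (j + 1) := by
    intro n
    obtain ⟨j, hj⟩ := hex n
    exact ⟨j, hmono j hj⟩
  let stage : ℕ → ℕ := fun n => Nat.find (hex' n)
  have hmem : ∀ n, n ∈ B F (stage n) := by
    intro n
    unfold B
    rw [mem_sdiff]
    refine ⟨Nat.find_spec (hex' n), ?_⟩
    intro h
    rcases Nat.eq_zero_or_pos (stage n) with h1 | h1
    · rw [h1, h0] at h
      simp at h
    · have := Nat.find_min (hex' n) (m := stage n - 1) (by
        change stage n - 1 < stage n; omega)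
      apply this
      rwa [Nat.sub_add_cancel h1]
  have huniq : ∀ n j, n ∈ B F j → stage n = j := by
    intro n j hn
    have h1 := hmem n
    unfold B at h1 hn
    rw [mem_sdiff] at h1 hn
    rcases lt_trichotomy (stage n) j with h | h | h
    · exact absurd (hmono' (by omega : stage n + 1 ≤ j) h1.1) hn.2
    · exact h
    · exact absurd (hmono' (by omega : j + 1 ≤ stage n) hn.1) h1.2
  have hcard : ∀ j, (F (j + 1)).card = (F j).card + (B F j).card := by
    intro j
    unfold B
    rw [card_sdiff_of_subset (hmono j)]
    have := card_le_card (hmono j)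
    omega
  have hcmono : Monotone fun j => (F j).card := fun i j hij => card_le_card (hmono' hij)
  let rk : ℕ → ℕ := fun n => (F (stage n)).card + ((e (stage n)).symm ⟨n, hmem n⟩).val
  have hrk : ∀ j n (hn : n ∈ B F j), rk n = (F j).card + ((e j).symm ⟨n, hn⟩).val := by
    intro j n hn
    obtain rfl := huniq n j hn
    rfl
  have hrklt : ∀ n, rk n < (F (stage n + 1)).card := by
    intro n
    rw [hcard]
    have := ((e (stage n)).symm ⟨n, hmem n⟩).2
    change (F (stage n)).card + _ < _
    omega
  have hrkge : ∀ n, (F (stage n)).card ≤ rk n := fun n => Nat.le_add_right _ _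
  have hinj : Function.Injective rk := by
    intro n m hnm
    have hst : stage n = stage m := by
      rcases lt_trichotomy (stage n) (stage m) with h | h | h
      · have h1 := hrklt n
        have h2 := hcmono (show stage n + 1 ≤ stage m from h)
        have h3 := hrkge m
        simp only at h2
        omega
      · exact h
      · have h1 := hrklt m
        have h2 := hcmono (show stage m + 1 ≤ stage n from h)
        have h3 := hrkge n
        simp only at h2
        omega
    have hm : m ∈ B F (stage n) := by rw [hst]; exact hmem m
    rw [hrk (stage n) n (hmem n), hrk (stage n) m hm] at hnm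
    have h1 : (e (stage n)).symm ⟨n, hmem n⟩ = (e (stage n)).symm ⟨m, hm⟩ := by
      apply Fin.ext; omega
    have h2 := (e (stage n)).symm.injective h1
    exact congrArg Subtype.val h2
  have hunb : ∀ N, ∃ j, N < (F (j + 1)).card := by
    intro N
    choose g hg using hex
    obtain ⟨J, hJ⟩ : ∃ J, ∀ n ≤ N, g n ≤ J := by
      refine ⟨(range (N + 1)).sup g, fun n hn => le_sup (f := g) (mem_range.mpr (by omega))⟩
    refine ⟨J, ?_⟩
    have h1 : range (N + 1) ⊆ F (J + 1) := by
      intro n hn
      rw [mem_range] at hn
      exact hmono' ((hJ n (by omega)).trans (by omega)) (hg n)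
    have h2 := card_le_card h1
    rw [card_range] at h2
    omega
  have hsurj : Function.Surjective rk := by
    intro N
    let j := Nat.find (hunb N)
    have h1 : N < (F (j + 1)).card := Nat.find_spec (hunb N)
    have h2 : (F j).card ≤ N := by
      rcases Nat.eq_zero_or_pos j with h | h
      · rw [h, h0]; simp
      · have := Nat.find_min (hunb N) (m := j - 1) (by change j - 1 < j; omega)
        rw [Nat.sub_add_cancel h] at this
        omega
    have h3 : N - (F j).card < (B F j).card := by
      have := hcard j
      omega
    refine ⟨(e j ⟨N - (F j).card, h3⟩ : {n // n ∈ B F j}), ?_⟩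
    rw [hrk j _ (e j ⟨N - (F j).card, h3⟩).2]
    simp only [Subtype.coe_eta, Equiv.symm_apply_apply]
    omega
  let τ := Equiv.ofBijective rk ⟨hinj, hsurj⟩
  refine ⟨τ.symm, fun j m hm => ?_⟩
  ext n
  have h1 : n ∈ (range ((F j).card + m)).image τ.symm ↔ rk n < (F j).card + m := by
    rw [mem_image]
    constructor
    · rintro ⟨i, hi, rfl⟩
      rw [mem_range] at hi
      have : rk (τ.symm i) = i := τ.apply_symm_apply i
      omega
    · intro h
      exact ⟨rk n, mem_range.mpr h, τ.symm_apply_apply n⟩
  rw [h1, mem_union, mem_image]
  rcases lt_trichotomy (stage n) j with h | h | h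
  · have h2 := hrklt n
    have h3 := hcmono (show stage n + 1 ≤ j from h)
    simp only at h3
    have h4 : n ∈ F j := by
      have := hmem n
      unfold B at this
      rw [mem_sdiff] at this
      exact hmono' h this.1
    exact ⟨fun _ => Or.inl h4, fun _ => by omega⟩
  · subst h
    rw [hrk _ n (hmem n)]
    constructor
    · intro h
      right
      refine ⟨(e (stage n)).symm ⟨n, hmem n⟩, ?_, ?_⟩
      · simp only [mem_filter, mem_univ, true_and]
        omega
      · rw [Equiv.apply_symm_apply]
    · rintro (h | ⟨i, hi, hi'⟩)
      · have := hmem n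
        unfold B at this
        rw [mem_sdiff] at this
        exact absurd h this.2
      · simp only [mem_filter, mem_univ, true_and] at hi
        have : (e (stage n)).symm ⟨n, hmem n⟩ = i := by
          rw [Equiv.symm_apply_eq]
          exact Subtype.ext hi'.symm
        rw [this]
        omega
  · have h2 := hrkge n
    have h3 := hcmono (show j + 1 ≤ stage n from h)
    simp only at h3
    have h4 := hcard j
    constructor
    · intro h5
      omega
    · rintro (h5 | ⟨i, hi, hi'⟩)
      · have := hmem n
        unfold B at this
        rw [mem_sdiff] at this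
        exact absurd (hmono' h.le h5) this.2
      · have h6 := huniq n j (by rw [← hi']; exact (e j i).2)
        omega

end Q92.PermChain
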