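import Mathlib
import Pool.Agent.H997R2.Steinitz
import Pool.Agent.Q92.PermChain

/-!
# A rearrangement theorem in `ℝ^d` (via the Steinitz lemma)
-/

namespace Q92.Rearr

open Finset Filter Topology Q92.PermChain

/-- ordering a finite family with small partial sums -/
lemma order_block {d : ℕ} {n : ℕ} (u : Fin n → Fin d → ℝ) (R : ℝ) (hR : 0 ≤ R)
    (hu : ∀ i, ‖u i‖ ≤ R) : ∃ σ : Equiv.Perm (Fin n), ∀ k ≤ n,
      ‖∑ i ∈ univ.filter (fun i : Fin n => i.val < k), u (σ i)‖ ≤
        d * (R + ‖∑ i, u i‖) + ‖∑ i, u i‖ := by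
  rcases Nat.eq_zero_or_pos n with rfl | hn
  · refine ⟨1, fun k hk => ?_⟩
    simp
    positivity
  set S := ∑ i, u i with hS
  have hn' : (0 : ℝ) < n := by exact_mod_cast hn
  have hn1 : (1 : ℝ) ≤ n := by exact_mod_cast hn
  have hbd : ∀ i (j : Fin d), |(u i - (1 / (n : ℝ)) • S) j| ≤ R + ‖S‖ := by
    intro i j
    have h1 : ‖u i - (1 / (n : ℝ)) • S‖ ≤ R + ‖S‖ := by
      refine (norm_sub_le _ _).trans (add_le_add (hu i) ?_)
      rw [norm_smul, Real.norm_eq_abs, abs_of_nonneg (by positivity)]
      have : 1 / (n : ℝ) ≤ 1 := by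
        rw [div_le_one hn']; exact hn1
      nlinarith [norm_nonneg S]
    exact (norm_le_pi_norm _ j).trans h1
  obtain ⟨σ, hσ⟩ := Pool.Agent.H997R2.Stz.steinitz (fun i => u i - (1 / (n : ℝ)) • S) (R + ‖S‖)
    (by positivity) hbd (by
      intro j
      simp only [Pi.sub_apply, Pi.smul_apply, smul_eq_mul, Finset.sum_sub_distrib, sum_const,
        card_univ, Fintype.card_fin, nsmul_eq_mul]
      rw [hS, Finset.sum_apply]
      field_simp
      ring)
  refine ⟨σ, fun k hk => ?_⟩
  set T := univ.filter (fun i : Fin n => i.val < k) with hT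
  have h1 : ∑ i ∈ T, u (σ i) = ∑ i ∈ T, (u (σ i) - (1 / (n : ℝ)) • S) + ((T.card : ℝ) / n) • S := by
    rw [Finset.sum_sub_distrib, sum_const, ← Nat.cast_smul_eq_nsmul ℝ, smul_smul]
    rw [mul_one_div, sub_add_cancel]
  rw [h1]
  refine (norm_add_le _ _).trans (add_le_add ?_ ?_)
  · rw [pi_norm_le_iff_of_nonneg (by positivity)]
    intro j
    have := hσ k hk j
    rw [Real.norm_eq_abs, Finset.sum_apply]
    exact this
  · rw [norm_smul, Real.norm_eq_abs, abs_of_nonneg (by positivity)]
    have h2 : (T.card : ℝ) / n ≤ 1 := by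
      rw [div_le_one hn']
      have : T.card ≤ n := by
        have := card_le_univ T
        rwa [Fintype.card_fin] at this
      exact_mod_cast this
    nlinarith [norm_nonneg S]

/-- **Rearrangement theorem.** If the sums over an exhausting increasing sequence of finite sets
converge to `s` and the terms tend to zero, then some rearrangement of the series converges to
`s`. -/
theorem rearr {d : ℕ} (x : ℕ → Fin d → ℝ) (s : Fin d → ℝ) (F : ℕ → Finset ℕ) (h0 : F 0 = ∅)
    (hmono : ∀ j, F j ⊆ F (j + 1)) (hex : ∀ n, ∃ j, n ∈ F j) (hx : Tendsto x atTop (𝓝 0))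
    (hs : Tendsto (fun j => ∑ n ∈ F j, x n) atTop (𝓝 s)) :
    ∃ σ : Equiv.Perm ℕ, Tendsto (fun N => ∑ i ∈ range N, x (σ i)) atTop (𝓝 s) := by
  classical
  have hmono' : Monotone F := monotone_nat_of_le_succ hmono
  -- orderings of the blocks
  let e0 : ∀ j, Fin (B F j).card ≃ {n // n ∈ B F j} := fun j => (B F j).equivFin.symm
  let R : ℕ → ℝ := fun j => (((B F j).sup fun n => ‖x n‖₊ : NNReal) : ℝ)
  have hR0 : ∀ j, 0 ≤ R j := fun j => NNReal.coe_nonneg _
  have hRx : ∀ j n, n ∈ B F j → ‖x n‖ ≤ R j := by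
    intro j n hn
    have := le_sup (f := fun n => ‖x n‖₊) hn
    exact_mod_cast this
  choose τ hτ using fun j => order_block (fun i => x (e0 j i : {n // n ∈ B F j})) (R j) (hR0 j)
    (fun i => hRx j _ (e0 j i).2)
  let e : ∀ j, Fin (B F j).card ≃ {n // n ∈ B F j} := fun j => (τ j).trans (e0 j)
  obtain ⟨σ, hσ⟩ := exists_perm F h0 hmono hex e
  refine ⟨σ, ?_⟩
  -- block sums
  have hblock : ∀ j, ∑ i, x (e0 j i : {n // n ∈ B F j}) = ∑ n ∈ F (j + 1), x n - ∑ n ∈ F j, x n := by
    intro j
    have h1 : ∑ i, x (e0 j i : {n // n ∈ B F j}) = ∑ n ∈ B F j, x n := by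
      rw [Equiv.sum_comp (e0 j) (fun n : {n // n ∈ B F j} => x n)]
      exact Finset.sum_coe_sort (B F j) x
    rw [h1]
    unfold B
    rw [eq_sub_iff_add_eq, Finset.sum_sdiff (hmono j)]
  have hS : Tendsto (fun j => ‖∑ i, x (e0 j i : {n // n ∈ B F j})‖) atTop (𝓝 0) := by
    have h1 := ((hs.comp (tendsto_add_atTop_nat 1)).sub hs).norm
    rw [sub_self, norm_zero] at h1
    refine h1.congr fun j => ?_
    rw [hblock j]; rfl
  have hRlim : Tendsto R atTop (𝓝 0) := by
    rw [Metric.tendsto_atTop]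
    intro δ hδ
    obtain ⟨N₀, hN₀⟩ := Metric.tendsto_atTop.mp hx (δ / 2) (by positivity)
    choose g hg using hex
    let J := (range N₀).sup g
    have hJ : ∀ n < N₀, n ∈ F J := by
      intro n hn
      exact hmono' (le_sup (f := g) (mem_range.mpr hn)) (hg n)
    refine ⟨J, fun j hj => ?_⟩
    rw [Real.dist_eq, sub_zero, abs_of_nonneg (hR0 j)]
    have h1 : ((B F j).sup fun n => ‖x n‖₊) ≤ Real.toNNReal (δ / 2) := by
      apply Finset.sup_le
      intro n hn
      unfold B at hn
      rw [Finset.mem_sdiff] at hn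
      have h2 : N₀ ≤ n := by
        by_contra h
        push Not at h
        exact hn.2 (hmono' hj (hJ n h))
      have h3 := hN₀ n h2
      rw [dist_zero_right] at h3
      rw [← NNReal.coe_le_coe, Real.coe_toNNReal _ (by positivity)]
      exact h3.le
    have h2 : R j ≤ δ / 2 := by
      have := NNReal.coe_le_coe.mpr h1
      rwa [Real.coe_toNNReal _ (by positivity)] at this
    linarith
  -- the error
  let err : ℕ → ℝ := fun j => ‖∑ n ∈ F j, x n - s‖ +
    (d * (R j + ‖∑ i, x (e0 j i : {n // n ∈ B F j})‖) + ‖∑ i, x (e0 j i : {n // n ∈ B F j})‖)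
  have herr : Tendsto err atTop (𝓝 0) := by
    have h1 : Tendsto (fun j => ‖∑ n ∈ F j, x n - s‖) atTop (𝓝 0) := by
      have := (hs.sub_const s).norm
      simpa using this
    have h2 := h1.add (((hRlim.add hS).const_mul (d : ℝ)).add hS)
    simpa using h2
  have hunb : ∀ N, ∃ j, N < (F (j + 1)).card := by
    intro N
    choose g hg using hex
    refine ⟨(range (N + 1)).sup g, ?_⟩
    have h1 : range (N + 1) ⊆ F ((range (N + 1)).sup g + 1) := by
      intro n hn
      exact hmono' ((le_sup (f := g) hn).trans (by omega)) (hg n)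
    have h2 := card_le_card h1
    rw [card_range] at h2
    omega
  rw [Metric.tendsto_atTop]
  intro ε hε
  obtain ⟨J, hJ⟩ := Metric.tendsto_atTop.mp herr ε hε
  refine ⟨(F J).card, fun N hN => ?_⟩
  let j := Nat.find (hunb N)
  have h1 : N < (F (j + 1)).card := Nat.find_spec (hunb N)
  have h2 : (F j).card ≤ N := by
    rcases Nat.eq_zero_or_pos j with h | h
    · rw [h, h0]; simp
    · have := Nat.find_min (hunb N) (m := j - 1) (by change j - 1 < j; omega)
      rw [Nat.sub_add_cancel h] at this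
      omega
  have h3 : J ≤ j := by
    by_contra h
    push Not at h
    have := card_le_card (hmono' (show j + 1 ≤ J from h))
    omega
  have hcard : (F (j + 1)).card = (F j).card + (B F j).card := by
    unfold B
    rw [card_sdiff_of_subset (hmono j)]
    have := card_le_card (hmono j)
    omega
  have h4 := hσ j (N - (F j).card) (by omega)
  rw [show (F j).card + (N - (F j).card) = N by omega] at h4
  have h5 : ∑ i ∈ range N, x (σ i) = ∑ n ∈ F j, x n +
      ∑ i ∈ univ.filter (fun i : Fin (B F j).card => i.val < N - (F j).card),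
        x (e j i : {n // n ∈ B F j}) := by
    rw [← Finset.sum_image (f := x) (g := σ) (fun a _ b _ h => σ.injective h), h4,
      Finset.sum_union, Finset.sum_image]
    · intro a _ b _ hab
      exact (e j).injective (Subtype.ext hab)
    · rw [Finset.disjoint_left]
      intro n hn hn'
      rw [mem_image] at hn'
      obtain ⟨i, -, rfl⟩ := hn'
      have := (e j i).2
      unfold B at this
      rw [Finset.mem_sdiff] at this
      exact this.2 hn
  have h6 := hτ j (N - (F j).card) (by omega)
  have h7 := hJ j h3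
  rw [Real.dist_eq, sub_zero, abs_of_nonneg (by
    have := hR0 j; positivity)] at h7
  rw [dist_eq_norm, h5]
  have h8 : ∑ n ∈ F j, x n + ∑ i ∈ univ.filter
      (fun i : Fin (B F j).card => i.val < N - (F j).card), x (e j i : {n // n ∈ B F j}) - s
      = (∑ n ∈ F j, x n - s) + ∑ i ∈ univ.filter
      (fun i : Fin (B F j).card => i.val < N - (F j).card), x (e j i : {n // n ∈ B F j}) := by
    abel
  rw [h8]
  refine lt_of_le_of_lt (norm_add_le _ _) (lt_of_le_of_lt ?_ h7)
  exact add_le_add le_rfl h6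

end Q92.Rearr
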