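import Mathlib

/-!
Relative meagreness of subsets of the line and the covering lemma for
ideal achievement sets.
-/

open Filter Topology Set

namespace Q92.Ach

/-- `T` is meagre in the subspace `A` of the real line. -/
def MeagreIn (A T : Set ℝ) : Prop := IsMeagre ((↑) ⁻¹' T : Set A)

/-- `∑_{i ∈ C} x_i` converges to `s` (natural order). -/
def SubsumTo (x : ℕ → ℝ) (C : Set ℕ) (s : ℝ) : Prop :=
  Tendsto (fun n => ∑ i ∈ Finset.range n, C.indicator x i) atTop (𝓝 s)

/-- All sums over members of the family `F`. -/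
def Ach (F : Set (Set ℕ)) (x : ℕ → ℝ) : Set ℝ := {s | ∃ C ∈ F, SubsumTo x C s}

/-- The family is closed under finite changes. -/
def FinInv (F : Set (Set ℕ)) : Prop := ∀ C ∈ F, ∀ D : Set ℕ, (symmDiff C D).Finite → D ∈ F

/-- The spreading property. -/
def Spread (A S : Set ℝ) : Prop :=
  ∀ p ∈ A, ∀ ε > 0, MeagreIn A (S ∩ Ioo (p - ε) (p + ε)) → MeagreIn A S

lemma MeagreIn.mono {A T T' : Set ℝ} (h : MeagreIn A T') (hT : T ⊆ T') : MeagreIn A T :=
  IsMeagre.mono (preimage_mono hT) h

lemma MeagreIn.mono' {A T T' : Set ℝ} (h : MeagreIn A T') (hT : T ∩ A ⊆ T') : MeagreIn A T :=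
  IsMeagre.mono (fun a ha => hT ⟨ha, a.2⟩) h

lemma MeagreIn.union {A T T' : Set ℝ} (h : MeagreIn A T) (h' : MeagreIn A T') :
    MeagreIn A (T ∪ T') := by
  have := IsMeagre.union h h'
  rwa [← preimage_union] at this

lemma MeagreIn.iUnion {A : Set ℝ} {ι : Type*} [Countable ι] {T : ι → Set ℝ}
    (h : ∀ i, MeagreIn A (T i)) : MeagreIn A (⋃ i, T i) := by
  have := isMeagre_iUnion h
  rwa [← preimage_iUnion] at this

lemma MeagreIn.isMeagre {A T : Set ℝ} (h : MeagreIn A T) : IsMeagre (T ∩ A) := by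
  have := IsMeagre.image_val h
  refine this.mono ?_
  rintro x ⟨hx, hxA⟩
  exact ⟨⟨x, hxA⟩, hx, rfl⟩

/-- The translation map `K → A`. -/
def tr {K A : Set ℝ} (c : ℝ) (h : ∀ k ∈ K, c + k ∈ A) : K → A := fun k => ⟨c + k, h k k.2⟩

lemma tr_inducing {K A : Set ℝ} (c : ℝ) (h : ∀ k ∈ K, c + k ∈ A) :
    Topology.IsInducing (tr c h) := by
  have h1 : Topology.IsInducing (fun k : K => c + (k : ℝ)) :=
    (Homeomorph.addLeft c).isInducing.comp Topology.IsInducing.subtypeVal
  have h2 : Topology.IsInducing ((Subtype.val : A → ℝ) ∘ tr c h) := h1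
  exact (Topology.IsInducing.subtypeVal.of_comp_iff).1 h2

/-- Meagre in a subspace `K`, then its translate is meagre in a space containing the
translate of `K`. -/
lemma MeagreIn.push {K A T : Set ℝ} (hT : MeagreIn K T) (c : ℝ) (h : ∀ k ∈ K, c + k ∈ A) :
    MeagreIn A ((fun k => c + k) '' (T ∩ K)) := by
  have := (tr_inducing c h).isMeagre_image hT
  refine IsMeagre.mono ?_ this
  rintro a ⟨k, ⟨hkT, hkK⟩, hk⟩
  exact ⟨⟨k, hkK⟩, hkT, Subtype.ext hk⟩

/-- If the translate of `K` is relatively open in `A`, meagreness can be pulled back. -/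
lemma MeagreIn.pull {K A T : Set ℝ} (hT : MeagreIn A T) (c : ℝ) (h : ∀ k ∈ K, c + k ∈ A)
    {U : Set ℝ} (hU : IsOpen U) (hU' : ∀ q ∈ A, q ∈ U ↔ q - c ∈ K) :
    MeagreIn K {k | c + k ∈ T} := by
  have hr : IsOpen (range (tr c h)) := by
    have : range (tr c h) = (↑) ⁻¹' U := by
      ext q
      constructor
      · rintro ⟨k, rfl⟩
        refine (hU' _ (tr c h k).2).2 ?_
        have : ((tr c h k : A) : ℝ) - c = k := by simp [tr]
        rw [this]; exact k.2
      · intro hq
        refine ⟨⟨(q : ℝ) - c, (hU' q q.2).1 hq⟩, ?_⟩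
        apply Subtype.ext
        simp [tr]
    rw [this]
    exact hU.preimage continuous_subtype_val
  have ho : IsOpenMap (tr c h) := (tr_inducing c h).isOpenMap hr
  exact IsMeagre.preimage_of_isOpenMap (tr_inducing c h).continuous ho hT

/-- Translation of the spreading property. -/
lemma Spread.translate {A S : Set ℝ} (h : Spread A S) (hSA : S ⊆ A) (m : ℝ) :
    Spread ((fun k => m + k) '' A) ((fun k => m + k) '' S) := by
  rintro _ ⟨p, hp, rfl⟩ ε hε hM
  have h1 := hM.push (-m) (A := A) (by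
    rintro _ ⟨a, ha, rfl⟩
    simpa using ha)
  have h2 : MeagreIn A (S ∩ Ioo (p - ε) (p + ε)) := by
    refine h1.mono ?_
    rintro s ⟨hs, hs1, hs2⟩
    refine ⟨m + s, ⟨⟨⟨s, hs, rfl⟩, ?_, ?_⟩, ⟨s, hSA hs, rfl⟩⟩, ?_⟩
    · simp only; linarith
    · simp only; linarith
    · simp
  have h3 := (h p hp ε hε h2).push m (A := (fun k => m + k) '' A) (fun k hk => ⟨k, hk, rfl⟩)
  refine h3.mono ?_
  rintro _ ⟨s, hs, rfl⟩
  exact ⟨s, ⟨hs, hSA hs⟩, rfl⟩

/-- A set with the Baire property and the spreading property is meagre or comeagre. -/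
lemma Spread.dichotomy {A S : Set ℝ} (h : Spread A S)
    (hBP : ∃ U : Set A, IsOpen U ∧ IsMeagre (symmDiff ((↑) ⁻¹' S : Set A) U)) :
    IsMeagre ((↑) ⁻¹' S : Set A) ∨ IsMeagre ((↑) ⁻¹' S : Set A)ᶜ := by
  obtain ⟨U, hU, hM⟩ := hBP
  by_cases hd : Dense U
  · right
    have h1 : IsMeagre Uᶜ := by
      unfold IsMeagre
      rw [compl_compl]
      exact residual_of_dense_open hU hd
    refine (h1.union hM).mono ?_
    intro a ha
    by_cases haU : a ∈ U
    · right; right; exact ⟨haU, ha⟩
    · left; exact haU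
  · left
    rw [dense_iff_inter_open] at hd
    push Not at hd
    obtain ⟨V, hV, ⟨p, hp⟩, hVU⟩ := hd
    obtain ⟨ε, hε, hball⟩ := Metric.isOpen_iff.1 hV p hp
    refine h p p.2 ε hε ?_
    refine IsMeagre.mono ?_ hM
    rintro a ⟨haS, ha1, ha2⟩
    left
    refine ⟨haS, fun haU => ?_⟩
    have haV : a ∈ V := hball (by
      rw [Metric.mem_ball, Subtype.dist_eq, Real.dist_eq, abs_lt]
      constructor <;> linarith)
    have : a ∈ V ∩ U := ⟨haV, haU⟩
    rw [hVU] at this
    exact this

/-- The covering lemma. -/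
lemma cover {F : Set (Set ℕ)} (hF : FinInv F) {x : ℕ → ℝ} {p : ℝ} (hp : p ∈ Ach univ x)
    {ε : ℝ} (hε : 0 < ε) :
    Ach F x ⊆ ⋃ q : Finset ℕ × Finset ℕ,
      (fun k => (∑ i ∈ q.1, x i - ∑ i ∈ q.2, x i) + k) ''
        (Ach F x ∩ Ioo (p - ε) (p + ε)) := by
  rintro s ⟨C, hC, hs⟩
  obtain ⟨C0, -, hC0⟩ := hp
  classical
  have h1 : ∀ᶠ n in atTop, |(∑ i ∈ Finset.range n, C0.indicator x i) - p| < ε / 2 := by
    have := (Metric.tendsto_nhds.1 hC0) (ε / 2) (by positivity)
    simpa [Real.dist_eq] using this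
  have h2 : ∀ᶠ n in atTop, |(∑ i ∈ Finset.range n, C.indicator x i) - s| < ε / 2 := by
    have := (Metric.tendsto_nhds.1 hs) (ε / 2) (by positivity)
    simpa [Real.dist_eq] using this
  obtain ⟨n, hn1, hn2⟩ := (h1.and h2).exists
  set a := ∑ i ∈ Finset.range n, C0.indicator x i with ha
  set b := ∑ i ∈ Finset.range n, C.indicator x i with hb
  set C' : Set ℕ := {i | if i < n then i ∈ C0 else i ∈ C} with hC'
  have hsum : ∀ m, n ≤ m → ∑ i ∈ Finset.range m, C'.indicator x i =
      a - b + ∑ i ∈ Finset.range m, C.indicator x i := by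
    intro m hm
    have e1 := Finset.sum_range_add_sum_Ico (f := C'.indicator x) hm
    have e2 := Finset.sum_range_add_sum_Ico (f := C.indicator x) hm
    rw [← e1, ← e2]
    have e3 : ∑ i ∈ Finset.range n, C'.indicator x i = a := by
      refine Finset.sum_congr rfl ?_
      intro i hi
      have hi' := Finset.mem_range.1 hi
      simp [hC', indicator, hi']
    have e4 : ∑ i ∈ Finset.Ico n m, C'.indicator x i = ∑ i ∈ Finset.Ico n m, C.indicator x i := by
      refine Finset.sum_congr rfl ?_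
      intro i hi
      have hi' := (Finset.mem_Ico.1 hi).1
      simp [hC', indicator, not_lt.2 hi']
    rw [e3, e4]
    ring
  have hC's : SubsumTo x C' (a - b + s) := by
    have h3 : Tendsto (fun m => a - b + ∑ i ∈ Finset.range m, C.indicator x i) atTop
        (𝓝 (a - b + s)) := tendsto_const_nhds.add hs
    refine h3.congr' ?_
    filter_upwards [eventually_ge_atTop n] with m hm
    rw [hsum m hm]
  have hC'F : C' ∈ F := by
    refine hF C hC C' ?_
    refine (Finset.range n).finite_toSet.subset ?_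
    intro i hi
    rw [Finset.coe_range, mem_Iio]
    by_contra hin
    rcases hi with ⟨h3, h4⟩ | ⟨h3, h4⟩
    · exact h4 (by simp [hC', hin, h3])
    · exact h4 (by simpa [hC', hin] using h3)
  rw [mem_iUnion]
  refine ⟨((Finset.range n).filter (· ∈ C), (Finset.range n).filter (· ∈ C0)), a - b + s,
    ⟨⟨C', hC'F, hC's⟩, ?_, ?_⟩, ?_⟩
  · rw [abs_lt] at hn1 hn2; linarith
  · rw [abs_lt] at hn1 hn2; linarith
  · have e1 : ∑ i ∈ (Finset.range n).filter (· ∈ C), x i = b := by
      rw [Finset.sum_filter]; rfl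
    have e2 : ∑ i ∈ (Finset.range n).filter (· ∈ C0), x i = a := by
      rw [Finset.sum_filter]; rfl
    simp only [e1, e2]
    ring

lemma isMeagre_translate {T : Set ℝ} (h : IsMeagre T) (c : ℝ) :
    IsMeagre ((fun k => c + k) '' T) :=
  (Homeomorph.addLeft c).isInducing.isMeagre_image h

lemma ach_meagre_of {F : Set (Set ℕ)} (hF : FinInv F) {x : ℕ → ℝ} {p : ℝ}
    (hp : p ∈ Ach univ x) {ε : ℝ} (hε : 0 < ε) (h : IsMeagre (Ach F x ∩ Ioo (p - ε) (p + ε))) :
    IsMeagre (Ach F x) := by
  refine IsMeagre.mono (cover hF hp hε) ?_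
  exact isMeagre_iUnion fun q => isMeagre_translate h _

lemma ach_subset (F : Set (Set ℕ)) (x : ℕ → ℝ) : Ach F x ⊆ Ach univ x := by
  rintro s ⟨C, -, hs⟩
  exact ⟨C, mem_univ _, hs⟩

/-- Case (b): the achievement set is the closure of its interior. -/
lemma spread_of_regular {F : Set (Set ℕ)} (hF : FinInv F) {x : ℕ → ℝ}
    (hreg : Ach univ x ⊆ closure (interior (Ach univ x))) : Spread (Ach univ x) (Ach F x) := by
  intro p hp ε hε hM
  have h1 : IsMeagre (Ach F x ∩ Ioo (p - ε) (p + ε)) := by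
    refine hM.isMeagre.mono ?_
    intro s hs
    exact ⟨hs, ach_subset F x hs.1⟩
  have h2 := ach_meagre_of hF hp hε h1
  set A := Ach univ x with hA
  have h3 : MeagreIn A (Ach F x ∩ interior A) := by
    have h4 : MeagreIn (interior A) (Ach F x) :=
      IsMeagre.preimage_of_isOpenMap continuous_subtype_val
        (isOpen_interior.isOpenMap_subtype_val) h2
    have h5 := h4.push 0 (A := A) (fun k hk => by simpa using interior_subset hk)
    simpa using h5
  have h4 : MeagreIn A (interior A)ᶜ := by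
    unfold MeagreIn IsMeagre
    rw [preimage_compl, compl_compl]
    refine residual_of_dense_open (isOpen_interior.preimage continuous_subtype_val) ?_
    rw [Subtype.dense_iff]
    intro a ha
    refine closure_mono ?_ (hreg ha)
    intro b hb
    exact ⟨⟨b, interior_subset hb⟩, hb, rfl⟩
  refine (h3.union h4).mono ?_
  intro s hs
  by_cases hsA : s ∈ interior A
  · left; exact ⟨hs, hsA⟩
  · right; exact hsA

lemma finInv_univ : FinInv univ := fun _ _ _ _ => mem_univ _

/-- A closed achievement set with nonempty interior is the closure of its interior. -/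
lemma regular_of_closed {x : ℕ → ℝ} (hc : IsClosed (Ach univ x))
    (hi : (interior (Ach univ x)).Nonempty) :
    Ach univ x ⊆ closure (interior (Ach univ x)) := by
  intro p hp
  by_contra hcl
  rw [Metric.mem_closure_iff] at hcl
  push Not at hcl
  obtain ⟨ε, hε, hfar⟩ := hcl
  have h1 : IsMeagre (Ach univ x ∩ Ioo (p - ε) (p + ε)) := by
    have h2 : IsMeagre (Ach univ x ∩ Icc (p - ε) (p + ε)) := by
      unfold IsMeagre
      refine residual_of_dense_open (hc.inter isClosed_Icc).isOpen_compl ?_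
      rw [← interior_eq_empty_iff_dense_compl, interior_inter, interior_Icc]
      by_contra hne
      obtain ⟨q, hq1, hq2, hq3⟩ := nonempty_iff_ne_empty.2 hne
      have := hfar q hq1
      rw [Real.dist_eq] at this
      have : |p - q| < ε := by rw [abs_lt]; constructor <;> linarith
      linarith
    exact h2.mono (inter_subset_inter_right _ Ioo_subset_Icc_self)
  have h2 := ach_meagre_of finInv_univ hp hε h1
  exact not_isMeagre_of_isOpen isOpen_interior hi (h2.mono interior_subset)

end Q92.Ach
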