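import Pool.Agent.Q92.AchSum

/-!
Achievement sets: the totally disconnected case and the assembly.
-/

open Filter Topology Set

namespace Q92.Ach

variable {y : ℕ → ℝ}

/-- The sums over subsets of `R` that lie in `F`. -/
def KS (F : Set (Set ℕ)) (y : ℕ → ℝ) (R : Set ℕ) : Set ℝ := {s | ∃ D ⊆ R, D ∈ F ∧ s = sg y D}

lemma finInv_union {F : Set (Set ℕ)} (hF : FinInv F) {C D : Set ℕ} (hC : C.Finite)
    (hD : D ∈ F) : C ∪ D ∈ F := by
  refine hF D hD _ (hC.subset ?_)
  intro i hi
  rcases hi with ⟨h1, h2⟩ | ⟨h1, h2⟩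
  · exact absurd (Or.inr h1) h2
  · exact h1.resolve_right h2

lemma finInv_inter {F : Set (Set ℕ)} (hF : FinInv F) {R D : Set ℕ} (hR : Rᶜ.Finite)
    (hD : D ∈ F) : D ∩ R ∈ F := by
  refine hF D hD _ (hR.subset ?_)
  intro i hi
  rcases hi with ⟨h1, h2⟩ | ⟨h1, h2⟩
  · exact fun h => h2 ⟨h1, h⟩
  · exact absurd h1.1 h2

/-- If the tail part is meagre in the tail achievement set then the whole is meagre. -/
lemma meagre_of_tail (hs : Summable y) {F : Set (Set ℕ)} (hF : FinInv F) {R : Set ℕ}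
    (hR : Rᶜ.Finite) (h : MeagreIn (KS univ y R) (KS F y R)) :
    MeagreIn (Ach univ y) (Ach F y) := by
  classical
  have h1 : ∀ C : {C : Finset ℕ // (C : Set ℕ) ⊆ Rᶜ},
      MeagreIn (Ach univ y) ((fun k => sg y (C : Finset ℕ) + k) '' (KS F y R ∩ KS univ y R)) := by
    intro C
    refine h.push _ ?_
    rintro k ⟨D, hD, -, rfl⟩
    refine (mem_ach hs).2 ⟨↑(C : Finset ℕ) ∪ D, mem_univ _, ?_⟩
    rw [sg_union hs]
    exact disjoint_left.2 fun i hi hi' => C.2 hi (hD hi')
  refine (MeagreIn.iUnion h1).mono ?_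
  intro s hsF
  obtain ⟨E, hE, rfl⟩ := (mem_ach hs).1 hsF
  rw [mem_iUnion]
  have hfin : (E ∩ Rᶜ).Finite := hR.subset inter_subset_right
  refine ⟨⟨hfin.toFinset, by simp⟩, sg y (E ∩ R), ⟨?_, ?_⟩, ?_⟩
  · exact ⟨E ∩ R, inter_subset_right, finInv_inter hF hR hE, rfl⟩
  · exact ⟨E ∩ R, inter_subset_right, mem_univ _, rfl⟩
  · simp only [Finite.coe_toFinset]
    rw [← sg_union hs]
    · congr 1
      ext i
      by_cases hi : i ∈ R <;> simp [hi]
    · exact disjoint_left.2 fun i hi hi' => hi.2 hi'.2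

/-- The totally disconnected case. -/
lemma spread_dust (h0 : ∀ n, 0 ≤ y n) (hs : Summable y) {F : Set (Set ℕ)} (hF : FinInv F)
    (hint : interior (Ach univ y) = ∅) : Spread (Ach univ y) (Ach F y) := by
  classical
  intro p hp ε hε hM
  have hKak : ∀ η > 0, ∃ v, 0 < v ∧ v < η ∧ sg y {j | y j < v} < v := by
    intro η hη
    by_contra hcon
    push Not at hcon
    obtain ⟨q, hq⟩ := interior_of_kakeya h0 hs hη hcon
    rw [hint] at hq
    exact hq
  have hcl := ach_closed hs
  set A := Ach univ y with hA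
  have hgap : ∀ a b : ℝ, a < b → ∃ c, a < c ∧ c < b ∧ c ∉ A := by
    intro a b hab
    by_contra hcon
    push Not at hcon
    have : Ioo a b ⊆ interior A := interior_maximal (fun c hc => hcon c hc.1 hc.2) isOpen_Ioo
    rw [hint] at this
    exact this (⟨by linarith, by linarith⟩ : (a + b) / 2 ∈ Ioo a b)
  obtain ⟨α, hα1, hα2, hαA⟩ := hgap (p - ε) p (by linarith)
  obtain ⟨β, hβ1, hβ2, hβA⟩ := hgap p (p + ε) (by linarith)
  obtain ⟨θ, hθ, hθA⟩ : ∃ θ > 0, ∀ a ∈ A, α - θ < a → α < a := by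
    obtain ⟨θ, hθ, hball⟩ := Metric.isOpen_iff.1 hcl.isOpen_compl α hαA
    refine ⟨θ, hθ, fun a ha h => ?_⟩
    by_contra hle
    push Not at hle
    have hmem : a ∈ Metric.ball α θ := by
      rw [Metric.mem_ball, Real.dist_eq, abs_lt]
      constructor <;> linarith
    exact hball hmem ha
  obtain ⟨v0, hv0, hv0θ, hv0K⟩ := hKak θ hθ
  set F0 : Set ℕ := {i | v0 ≤ y i} with hF0
  have hF0fin : F0.Finite := finite_ge hs hv0
  -- decomposition of a sum along `F0`
  have hdec : ∀ E : Set ℕ, sg y E = sg y (E ∩ F0) + sg y (E \ F0) := by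
    intro E
    rw [← sg_union hs, inter_union_sdiff]
    exact disjoint_left.2 fun i hi hi' => hi'.2 hi.2
  have hsmall : ∀ E : Set ℕ, sg y (E \ F0) < θ := by
    intro E
    have : sg y (E \ F0) ≤ sg y {j | y j < v0} := by
      refine sg_mono h0 hs ?_
      intro i hi
      exact not_le.1 (show ¬ v0 ≤ y i from hi.2)
    linarith
  have hachsg : ∀ E : Set ℕ, sg y E ∈ A := fun E => (mem_ach hs).2 ⟨E, mem_univ _, rfl⟩
  -- the finite set of partial sums in `(α, β)`
  set T0 : Set ℝ := {s | α < s ∧ s < β ∧ ∃ C ⊆ F0, s = sg y C} with hT0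
  have hT0fin : T0.Finite := by
    refine ((hF0fin.finite_subsets).image (sg y)).subset ?_
    rintro s ⟨-, -, C, hC, rfl⟩
    exact ⟨C, hC, rfl⟩
  have hT0ne : T0.Nonempty := by
    obtain ⟨E, -, hE⟩ := (mem_ach hs).1 hp
    have h1 := hdec E
    have h2 := hsmall E
    have h3 := sg_nonneg h0 (E \ F0)
    refine ⟨sg y (E ∩ F0), hθA _ (hachsg _) (by linarith), by linarith, E ∩ F0,
      inter_subset_right, rfl⟩
  obtain ⟨a, haT0, hamin⟩ := hT0fin.exists_minimalFor id T0 hT0ne
  have hamin' : ∀ s ∈ T0, a ≤ s := by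
    intro s hs'
    rcases le_total a s with h | h
    · exact h
    · exact hamin hs' h
  obtain ⟨haα, haβ, C, hCF0, haC⟩ := haT0
  obtain ⟨t0, hat0, ht0β, ht0⟩ : ∃ t0, a < t0 ∧ t0 ≤ β ∧ ∀ s ∈ T0, s ≠ a → t0 ≤ s := by
    have hfin : (insert β (T0 \ {a})).Finite := (hT0fin.sdiff).insert β
    obtain ⟨t0, ht0, hmin⟩ := hfin.exists_minimalFor id _ (insert_nonempty _ _)
    have hmin' : ∀ s ∈ insert β (T0 \ {a}), t0 ≤ s := by
      intro s hs'
      rcases le_total t0 s with h | h
      · exact h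
      · exact hmin hs' h
    refine ⟨t0, ?_, hmin' β (mem_insert _ _), fun s hs' hne => hmin' s (Or.inr ⟨hs', hne⟩)⟩
    rcases ht0 with rfl | ⟨h1, h2⟩
    · exact haβ
    · exact lt_of_le_of_ne (hamin' t0 h1) (fun h => h2 h.symm)
  obtain ⟨v, hv, hvlt, hvK⟩ := hKak (min (t0 - a) v0) (lt_min (by linarith) hv0)
  have hv1 : v < t0 - a := lt_of_lt_of_le hvlt (min_le_left _ _)
  have hv2 : v < v0 := lt_of_lt_of_le hvlt (min_le_right _ _)
  set R : Set ℕ := {j | y j < v} with hR
  have hRfin : Rᶜ.Finite := by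
    refine (finite_ge hs hv).subset ?_
    intro i hi
    exact not_lt.1 (show ¬ y i < v from hi)
  have hCR : ∀ D ⊆ R, Disjoint C D := by
    intro D hD
    refine disjoint_left.2 fun i hi hi' => ?_
    have h1 : v0 ≤ y i := hCF0 hi
    have h2 : y i < v := hD hi'
    linarith
  have hCD : ∀ D ⊆ R, a + sg y D = sg y (C ∪ D) := by
    intro D hD
    rw [sg_union hs (hCR D hD), haC]
  have hDle : ∀ D ⊆ R, sg y D < v := by
    intro D hD
    exact lt_of_le_of_lt (sg_mono h0 hs hD) hvK
  have hpull := hM.pull (K := KS univ y R) a (U := Ioo α (min t0 (a + v)))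
    (by
      rintro k ⟨D, hD, -, rfl⟩
      rw [hCD D hD]
      exact hachsg _)
    isOpen_Ioo
    (by
      intro q hq
      constructor
      · rintro ⟨hq1, hq2⟩
        have hq3 : q < t0 := lt_of_lt_of_le hq2 (min_le_left _ _)
        have hq4 : q < a + v := lt_of_lt_of_le hq2 (min_le_right _ _)
        obtain ⟨E, -, rfl⟩ := (mem_ach hs).1 hq
        have h1 := hdec E
        have h2 := hsmall E
        have h3 := sg_nonneg h0 (E \ F0)
        have h4 : sg y (E ∩ F0) ∈ T0 :=
          ⟨hθA _ (hachsg _) (by linarith), by linarith, E ∩ F0, inter_subset_right, rfl⟩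
        have h5 : sg y (E ∩ F0) = a := by
          by_contra hne
          have := ht0 _ h4 hne
          linarith
        refine ⟨E \ F0, ?_, mem_univ _, by rw [h1, h5]; ring⟩
        intro i hi
        have := le_sg h0 hs hi
        change y i < v
        linarith
      · rintro ⟨D, hD, -, hqD⟩
        have h1 := hDle D hD
        have h2 := sg_nonneg h0 D
        refine ⟨by linarith, lt_min (by linarith) (by linarith)⟩)
  refine meagre_of_tail hs hF hRfin (hpull.mono ?_)
  rintro s ⟨D, hD, hDF, rfl⟩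
  have h1 := hDle D hD
  have h2 := sg_nonneg h0 D
  refine ⟨?_, ?_, ?_⟩
  · rw [hCD D hD]
    exact (mem_ach hs).2 ⟨C ∪ D, finInv_union hF (hF0fin.subset hCF0) hDF, rfl⟩
  · linarith
  · linarith

/-- The nonnegative case. -/
lemma spread_nonneg (h0 : ∀ n, 0 ≤ y n) (hs : Summable y) {F : Set (Set ℕ)} (hF : FinInv F) :
    Spread (Ach univ y) (Ach F y) := by
  rcases (interior (Ach univ y)).eq_empty_or_nonempty with h | h
  · exact spread_dust h0 hs hF h
  · exact spread_of_regular hF (regular_of_closed (ach_closed hs) h)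

lemma sg_flip {x : ℕ → ℝ} (hs : Summable x) (C : Set ℕ) :
    sg x C = sg x {n | x n < 0} + sg (fun n => |x n|) (symmDiff C {n | x n < 0}) := by
  unfold sg
  rw [← (hs.indicator _).tsum_add (hs.abs.indicator _)]
  refine tsum_congr fun n => ?_
  by_cases h1 : n ∈ C <;> rcases lt_or_ge (x n) 0 with h2 | h2
  · simp [indicator, h1, h2, mem_symmDiff]
  · simp [indicator, h1, not_lt.2 h2, mem_symmDiff, abs_of_nonneg h2]
  · simp [indicator, h1, h2, mem_symmDiff, abs_of_neg h2]
  · simp [indicator, h1, not_lt.2 h2, mem_symmDiff]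

/-- The absolutely convergent case. -/
lemma spread_summable {x : ℕ → ℝ} (hs : Summable x) {F : Set (Set ℕ)} (hF : FinInv F) :
    Spread (Ach univ x) (Ach F x) := by
  set N : Set ℕ := {n | x n < 0} with hN
  set F' : Set (Set ℕ) := {D | symmDiff D N ∈ F} with hF'
  have hF'inv : FinInv F' := by
    intro C hC D hCD
    refine hF _ hC _ ?_
    have : symmDiff (symmDiff C N) (symmDiff D N) = symmDiff C D := by
      rw [symmDiff_symmDiff_symmDiff_comm, symmDiff_self, symmDiff_bot]
    rw [this]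
    exact hCD
  have hs' : Summable (fun n => |x n|) := hs.abs
  have key : ∀ G : Set (Set ℕ), Ach G x =
      (fun k => sg x N + k) '' Ach {D | symmDiff D N ∈ G} (fun n => |x n|) := by
    intro G
    ext s
    rw [mem_ach hs]
    constructor
    · rintro ⟨C, hC, rfl⟩
      refine ⟨_, (mem_ach hs').2 ⟨symmDiff C N, ?_, rfl⟩, (sg_flip hs C).symm⟩
      change symmDiff (symmDiff C N) N ∈ G
      rw [symmDiff_symmDiff_cancel_right]
      exact hC
    · rintro ⟨k, hk, rfl⟩
      obtain ⟨D, hD, rfl⟩ := (mem_ach hs').1 hk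
      refine ⟨symmDiff D N, hD, ?_⟩
      rw [sg_flip hs (symmDiff D N), symmDiff_symmDiff_cancel_right]
  rw [key F, key univ]
  have h1 : {D : Set ℕ | symmDiff D N ∈ (univ : Set (Set ℕ))} = univ := by ext; simp
  rw [h1]
  exact (spread_nonneg (fun n => abs_nonneg (x n)) hs' hF'inv).translate (ach_subset _ _) _

/-- The spreading property for all convergent series. -/
theorem spread_all {x : ℕ → ℝ} {t : ℝ}
    (hx : Tendsto (fun n => ∑ i ∈ Finset.range n, x i) atTop (𝓝 t)) {F : Set (Set ℕ)}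
    (hF : FinInv F) : Spread (Ach univ x) (Ach F x) := by
  by_cases hs : Summable x
  · exact spread_summable hs hF
  · refine spread_of_regular hF ?_
    rw [ach_eq_univ hx hs]
    simp

end Q92.Ach
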