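import Pool.Agent.Q92.AchBasic

/-!
Achievement sets: conditional case, closedness, the Kakeya type lemma and the
totally disconnected case.
-/

open Filter Topology Set

namespace Q92.Ach

/-- greedy selection -/
lemma greedy {w : ℕ → ℝ} (hw0 : ∀ n, 0 ≤ w n) (hw : Tendsto w atTop (𝓝 0))
    (hdiv : ¬ Summable w) {a : ℝ} (ha : 0 ≤ a) (J : ℕ) :
    ∃ δ : ℕ → ℕ, (∀ n, δ n = 0 ∨ δ n = 1) ∧ (∀ n < J, δ n = 0) ∧
      Tendsto (fun N => ∑ n ∈ Finset.range N, (δ n : ℝ) * w n) atTop (𝓝 a) := by
  classical
  -- the greedy sums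
  let S : ℕ → ℝ := fun n => Nat.rec 0 (fun n s => if J ≤ n ∧ s + w n ≤ a then s + w n else s) n
  have hS0 : S 0 = 0 := rfl
  have hS1 : ∀ n, S (n + 1) = if J ≤ n ∧ S n + w n ≤ a then S n + w n else S n := fun n => rfl
  let δ : ℕ → ℕ := fun n => if J ≤ n ∧ S n + w n ≤ a then 1 else 0
  have hSa : ∀ n, S n ≤ a := by
    intro n
    induction n with
    | zero => rw [hS0]; exact ha
    | succ n ih =>
      rw [hS1]
      split_ifs with h
      · exact h.2
      · exact ih
  have hmono : Monotone S := by
    apply monotone_nat_of_le_succ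
    intro n
    rw [hS1]
    split_ifs
    · linarith [hw0 n]
    · exact le_rfl
  have hsum : ∀ N, ∑ n ∈ Finset.range N, (δ n : ℝ) * w n = S N := by
    intro N
    induction N with
    | zero => simp [hS0]
    | succ N ih =>
      rw [Finset.sum_range_succ, ih, hS1]
      by_cases h : J ≤ N ∧ S N + w N ≤ a
      · simp [δ, h]
      · simp [δ, h]
  refine ⟨δ, fun n => ?_, fun n hn => ?_, ?_⟩
  · by_cases h : J ≤ n ∧ S n + w n ≤ a
    · right; simp [δ, h]
    · left; simp only [δ, h, if_false]
  · have h : ¬ (J ≤ n ∧ S n + w n ≤ a) := fun h => absurd h.1 (not_le.mpr hn)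
    simp only [δ, h, if_false]
  simp only [hsum]
  have hbdd : BddAbove (Set.range S) := ⟨a, by rintro _ ⟨n, rfl⟩; exact hSa n⟩
  have hlim := tendsto_atTop_ciSup hmono hbdd
  set s := ⨆ n, S n with hs
  have hsa : s ≤ a := ciSup_le hSa
  rcases hsa.eq_or_lt with h | h
  · rwa [h] at hlim
  exfalso
  -- eventually everything is taken
  have h1 : ∀ᶠ n in atTop, w n < a - s := hw.eventually_lt_const (by linarith)
  obtain ⟨N, hN⟩ := (h1.and (eventually_ge_atTop J)).exists_forall_of_atTop
  have h2 : ∀ n, N ≤ n → S (n + 1) = S n + w n := by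
    intro n hn
    rw [hS1, if_pos]
    refine ⟨(hN n hn).2, ?_⟩
    have := le_ciSup hbdd n
    have h3 := (hN n hn).1
    linarith
  apply hdiv
  rw [← summable_nat_add_iff N]
  apply summable_of_sum_range_le (c := a) (fun n => hw0 _)
  intro n
  have h3 : ∑ i ∈ Finset.range n, w (i + N) = S (n + N) - S N := by
    induction n with
    | zero => simp
    | succ n ih =>
      rw [Finset.sum_range_succ, ih, show n + 1 + N = (n + N) + 1 by ring, h2 (n + N) (by omega)]
      ring
  rw [h3]
  have h4 := hSa (n + N)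
  have h5 : 0 ≤ S N := by
    have := hmono (Nat.zero_le N)
    rwa [hS0] at this
  linarith

lemma not_summable_pos {x : ℕ → ℝ} {t : ℝ}
    (hx : Tendsto (fun n => ∑ i ∈ Finset.range n, x i) atTop (𝓝 t)) (hns : ¬ Summable x) :
    ¬ Summable (fun n => max (x n) 0) := by
  intro hs
  apply hns
  have h1 : Tendsto (fun n => ∑ i ∈ Finset.range n, max (-x i) 0) atTop
      (𝓝 (∑' n, max (x n) 0 - t)) := by
    have := (hs.hasSum.tendsto_sum_nat).sub hx
    refine this.congr fun n => ?_
    rw [← Finset.sum_sub_distrib]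
    refine Finset.sum_congr rfl fun i _ => ?_
    rcases le_total (x i) 0 with h | h
    · rw [max_eq_right h, max_eq_left (by linarith)]; ring
    · rw [max_eq_left h, max_eq_right (by linarith)]; ring
  have h2 : Summable (fun n => max (-x n) 0) :=
    ((hasSum_iff_tendsto_nat_of_nonneg (fun i => le_max_right _ _) _).2 h1).summable
  refine (hs.sub h2).congr fun i => ?_
  rcases le_total (x i) 0 with h | h
  · rw [max_eq_right h, max_eq_left (by linarith)]; ring
  · rw [max_eq_left h, max_eq_right (by linarith)]; ring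

lemma tendsto_zero_of_partial {x : ℕ → ℝ} {t : ℝ}
    (hx : Tendsto (fun n => ∑ i ∈ Finset.range n, x i) atTop (𝓝 t)) :
    Tendsto x atTop (𝓝 0) := by
  have h1 := (hx.comp (tendsto_add_atTop_nat 1)).sub hx
  rw [sub_self] at h1
  refine h1.congr fun n => ?_
  simp [Finset.sum_range_succ]

/-- In the conditionally convergent case the achievement set is the whole line. -/
lemma ach_eq_univ {x : ℕ → ℝ} {t : ℝ}
    (hx : Tendsto (fun n => ∑ i ∈ Finset.range n, x i) atTop (𝓝 t)) (hns : ¬ Summable x) :
    Ach univ x = univ := by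
  have hx0 := tendsto_zero_of_partial hx
  rw [eq_univ_iff_forall]
  intro a
  rcases le_total 0 a with ha | ha
  · have hw : Tendsto (fun n => max (x n) 0) atTop (𝓝 0) := by
      have := hx0.max (tendsto_const_nhds (x := (0 : ℝ)))
      simpa using this
    obtain ⟨δ, hδ, -, hlim⟩ := greedy (fun n => le_max_right (x n) 0) hw
      (not_summable_pos hx hns) ha 0
    refine ⟨{n | δ n = 1 ∧ 0 < x n}, mem_univ _, ?_⟩
    refine hlim.congr fun N => Finset.sum_congr rfl fun i _ => ?_
    rcases hδ i with h | h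
    · simp [h, indicator]
    · rcases le_or_gt (x i) 0 with h' | h'
      · rw [max_eq_right h']; simp [h, indicator, not_lt.2 h']
      · rw [max_eq_left h'.le]; simp [h, indicator, h']
  · have hx' : Tendsto (fun n => ∑ i ∈ Finset.range n, (-x i)) atTop (𝓝 (-t)) := by
      refine hx.neg.congr fun n => ?_
      simp
    have hw : Tendsto (fun n => max (-x n) 0) atTop (𝓝 0) := by
      have := hx0.neg.max (tendsto_const_nhds (x := (0 : ℝ)))
      simpa using this
    obtain ⟨δ, hδ, -, hlim⟩ := greedy (fun n => le_max_right (-x n) 0) hw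
      (not_summable_pos hx' (fun h => hns (by simpa using h.neg))) (by linarith : 0 ≤ -a) 0
    refine ⟨{n | δ n = 1 ∧ x n < 0}, mem_univ _, ?_⟩
    have := hlim.neg
    rw [neg_neg] at this
    refine this.congr fun N => ?_
    rw [← Finset.sum_neg_distrib]
    refine Finset.sum_congr rfl fun i _ => ?_
    rcases hδ i with h | h
    · simp [h, indicator]
    · rcases lt_or_ge (x i) 0 with h' | h'
      · rw [max_eq_left (by linarith)]; simp [h, indicator, h']
      · rw [max_eq_right (by linarith)]; simp [h, indicator, not_lt.2 h']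

/-- The subsum over `C`. -/
noncomputable def sg (y : ℕ → ℝ) (C : Set ℕ) : ℝ := ∑' n, C.indicator y n

section
variable {y : ℕ → ℝ}

lemma sg_tendsto (hs : Summable y) (C : Set ℕ) : SubsumTo y C (sg y C) :=
  (hs.indicator C).hasSum.tendsto_sum_nat

lemma subsumTo_iff (hs : Summable y) {C : Set ℕ} {s : ℝ} : SubsumTo y C s ↔ s = sg y C :=
  ⟨fun h => tendsto_nhds_unique h (sg_tendsto hs C), fun h => h ▸ sg_tendsto hs C⟩

lemma mem_ach (hs : Summable y) {F : Set (Set ℕ)} {s : ℝ} :
    s ∈ Ach F y ↔ ∃ C ∈ F, s = sg y C := by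
  constructor
  · rintro ⟨C, hC, h⟩; exact ⟨C, hC, (subsumTo_iff hs).1 h⟩
  · rintro ⟨C, hC, h⟩; exact ⟨C, hC, (subsumTo_iff hs).2 h⟩

lemma sg_nonneg (h0 : ∀ n, 0 ≤ y n) (C : Set ℕ) : 0 ≤ sg y C :=
  tsum_nonneg fun n => indicator_nonneg (fun i _ => h0 i) n

lemma sg_mono (h0 : ∀ n, 0 ≤ y n) (hs : Summable y) {C D : Set ℕ} (h : C ⊆ D) :
    sg y C ≤ sg y D :=
  (hs.indicator C).tsum_le_tsum (fun n => indicator_le_indicator_of_subset h h0 n)
    (hs.indicator D)

lemma sg_union (hs : Summable y) {C D : Set ℕ} (h : Disjoint C D) :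
    sg y (C ∪ D) = sg y C + sg y D := by
  unfold sg
  rw [← (hs.indicator C).tsum_add (hs.indicator D)]
  refine tsum_congr fun n => ?_
  rw [indicator_union_of_disjoint h]

lemma sg_singleton (a : ℕ) : sg y {a} = y a := by
  unfold sg
  rw [tsum_eq_single a]
  · simp
  · intro b hb; simp [hb]

lemma le_sg (h0 : ∀ n, 0 ≤ y n) (hs : Summable y) {C : Set ℕ} {j : ℕ} (hj : j ∈ C) :
    y j ≤ sg y C := by
  rw [← sg_singleton (y := y) j]
  exact sg_mono h0 hs (by simpa using hj)

lemma sg_insert (hs : Summable y) {a : ℕ} {C : Set ℕ} (ha : a ∉ C) :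
    sg y (insert a C) = y a + sg y C := by
  rw [insert_eq, sg_union hs (by simpa using ha), sg_singleton]

lemma sg_finite_range (C : Set ℕ) (m : ℕ) :
    sg y (C ∩ {i | i < m}) = ∑ i ∈ Finset.range m, C.indicator y i := by
  unfold sg
  rw [tsum_eq_sum (s := Finset.range m)]
  · refine Finset.sum_congr rfl fun i hi => ?_
    have : i < m := Finset.mem_range.1 hi
    by_cases h : i ∈ C <;> simp [indicator, h, this]
  · intro i hi
    have : ¬ i < m := fun h => hi (Finset.mem_range.2 h)
    simp [indicator, this]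

lemma ach_closed (hs : Summable y) : IsClosed (Ach univ y) := by
  have h1 : Continuous (fun f : ℕ → Bool => ∑' n, if f n then y n else 0) := by
    refine continuous_tsum (u := fun n => |y n|) ?_ hs.abs ?_
    · intro n
      exact (continuous_of_discreteTopology (f := fun b : Bool => if b then y n else 0)).comp
        (continuous_apply n)
    · intro n f
      by_cases h : f n = true
      · simp [h]
      · simp [h]
  have h2 : Ach univ y = range (fun f : ℕ → Bool => ∑' n, if f n then y n else 0) := by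
    classical
    ext s
    rw [mem_ach hs]
    constructor
    · rintro ⟨C, -, rfl⟩
      refine ⟨fun n => decide (n ∈ C), ?_⟩
      unfold sg
      refine tsum_congr fun n => ?_
      simp [indicator]
    · rintro ⟨f, rfl⟩
      refine ⟨{n | f n = true}, mem_univ _, ?_⟩
      unfold sg
      refine tsum_congr fun n => ?_
      simp [indicator]
  rw [h2]
  exact (isCompact_range h1).isClosed

/-- base of the Kakeya approximation -/
lemma approx_base (hs : Summable y) {ε : ℝ} (hε : 0 < ε) {G : Set ℕ}
    (hG : ∀ i ∈ G, y i < ε) {t : ℝ} (ht0 : 0 ≤ t) (ht : t ≤ sg y G) :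
    ∃ D ⊆ G, sg y D ≤ t ∧ t - ε < sg y D := by
  classical
  set P : ℕ → ℝ := fun n => ∑ i ∈ Finset.range n, G.indicator y i with hP
  by_cases hall : ∀ n, P n ≤ t
  · have : sg y G ≤ t := le_of_tendsto' (sg_tendsto hs G) hall
    exact ⟨G, Subset.rfl, this, by linarith⟩
  · push Not at hall
    have hmin := Nat.find_spec hall
    have hlt := fun m (hm : m < Nat.find hall) => Nat.find_min hall hm
    obtain ⟨m, hm⟩ : ∃ m, Nat.find hall = m + 1 := by
      refine Nat.exists_eq_succ_of_ne_zero ?_
      intro h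
      rw [h] at hmin
      simp [hP] at hmin
      linarith
    have h1 := hlt m (by omega)
    rw [hm] at hmin
    have h2 : P (m + 1) = P m + G.indicator y m := by simp [hP, Finset.sum_range_succ]
    have h3 : G.indicator y m < ε := by
      by_cases h : m ∈ G
      · simpa [h] using hG m h
      · simpa [h] using hε
    refine ⟨G ∩ {i | i < m}, inter_subset_left, ?_, ?_⟩
    · rw [sg_finite_range]; exact not_lt.1 h1
    · rw [sg_finite_range]
      change t - ε < P m
      linarith

lemma approx_step (h0 : ∀ n, 0 ≤ y n) (hs : Summable y) {ε : ℝ} (hε : 0 < ε) {η : ℝ}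
    (hK : ∀ v, 0 < v → v < η → v ≤ sg y {j | y j < v}) (s : Finset ℕ) :
    (∀ i ∈ s, ε ≤ y i) → (∀ i, ε ≤ y i → ∀ j ∈ s, y i < y j → i ∈ s) →
    (∀ i ∈ s, y i < η) → ∀ t, 0 ≤ t → t ≤ sg y (↑s ∪ {i | y i < ε}) →
    ∃ D ⊆ (↑s ∪ {i | y i < ε} : Set ℕ), sg y D ≤ t ∧ t - ε < sg y D := by
  classical
  induction s using Finset.induction_on_max_value y with
  | empty =>
    intro _ _ _ t ht0 ht
    have := approx_base hs hε (G := (↑(∅ : Finset ℕ) ∪ {i | y i < ε}))
      (by simp) ht0 ht
    exact this
  | insert a s has hmax ih =>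
    intro h1 h2 h3 t ht0 ht
    have h1' : ∀ i ∈ s, ε ≤ y i := fun i hi => h1 i (Finset.mem_insert_of_mem hi)
    have h3' : ∀ i ∈ s, y i < η := fun i hi => h3 i (Finset.mem_insert_of_mem hi)
    have h2' : ∀ i, ε ≤ y i → ∀ j ∈ s, y i < y j → i ∈ s := by
      intro i hi j hj hij
      have := h2 i hi j (Finset.mem_insert_of_mem hj) hij
      rcases Finset.mem_insert.1 this with rfl | h
      · exact absurd (hmax j hj) (not_le.2 hij)
      · exact h
    have ih' := ih h1' h2' h3'
    have haG : a ∉ (↑s ∪ {i | y i < ε} : Set ℕ) := by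
      rintro (h | h)
      · exact has h
      · exact absurd (h1 a (Finset.mem_insert_self a s)) (not_le.2 h)
    have hsum : sg y (↑(insert a s) ∪ {i | y i < ε}) =
        y a + sg y (↑s ∪ {i | y i < ε}) := by
      rw [Finset.coe_insert, insert_union, sg_insert hs haG]
    have hsub : (↑s ∪ {i | y i < ε} : Set ℕ) ⊆ ↑(insert a s) ∪ {i | y i < ε} := by
      rw [Finset.coe_insert, insert_union]; exact subset_insert _ _
    rcases le_or_gt t (sg y (↑s ∪ {i | y i < ε})) with htl | htl
    · obtain ⟨D, hD, hD'⟩ := ih' t ht0 htl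
      exact ⟨D, hD.trans hsub, hD'⟩
    · have ha0 : 0 < y a := lt_of_lt_of_le hε (h1 a (Finset.mem_insert_self a s))
      have h4 : y a ≤ sg y (↑s ∪ {i | y i < ε}) := by
        refine (hK (y a) ha0 (h3 a (Finset.mem_insert_self a s))).trans ?_
        refine sg_mono h0 hs ?_
        intro i hi
        rcases lt_or_ge (y i) ε with h | h
        · right; exact h
        · left
          have := h2 i h a (Finset.mem_insert_self a s) hi
          rcases Finset.mem_insert.1 this with rfl | h'
          · exact absurd (show y i < y i from hi) (lt_irrefl _)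
          · exact h'
      obtain ⟨D, hD, hD1, hD2⟩ := ih' (t - y a) (by linarith) (by rw [hsum] at ht; linarith)
      refine ⟨insert a D, ?_, ?_, ?_⟩
      · rw [Finset.coe_insert, insert_union]; exact insert_subset_insert hD
      · rw [sg_insert hs (fun h => haG (hD h))]; linarith
      · rw [sg_insert hs (fun h => haG (hD h))]; linarith

lemma finite_ge (hs : Summable y) {v : ℝ} (hv : 0 < v) : {i | v ≤ y i}.Finite := by
  have h1 := hs.tendsto_cofinite_zero
  have h2 : ∀ᶠ i in cofinite, y i < v := h1.eventually_lt_const hv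
  have h3 := eventually_cofinite.1 h2
  refine h3.subset ?_
  intro i hi
  exact not_lt.2 hi

/-- Kakeya type lemma -/
lemma interior_of_kakeya (h0 : ∀ n, 0 ≤ y n) (hs : Summable y) {η : ℝ} (hη : 0 < η)
    (hK : ∀ v, 0 < v → v < η → v ≤ sg y {j | y j < v}) :
    (interior (Ach univ y)).Nonempty := by
  classical
  have hT : 0 < sg y {j | y j < η} := by
    have h1 := hK (η / 2) (by positivity) (by linarith)
    have h2 := sg_mono h0 hs (C := {j | y j < η / 2}) (D := {j | y j < η})
      (fun j (hj : y j < η / 2) => show y j < η by linarith)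
    linarith
  have hsub : Ioo 0 (sg y {j | y j < η}) ⊆ Ach univ y := by
    rintro t ⟨ht0, ht⟩
    rw [← (ach_closed hs).closure_eq, Metric.mem_closure_iff]
    intro ε' hε'
    set ε := min ε' η with hεd
    have hε : 0 < ε := lt_min hε' hη
    have hfin : {i | ε ≤ y i ∧ y i < η}.Finite := (finite_ge hs hε).subset fun i hi => hi.1
    have hset : (↑hfin.toFinset ∪ {i | y i < ε} : Set ℕ) = {j | y j < η} := by
      ext i
      simp only [Finite.coe_toFinset, mem_union, mem_ofPred_eq]
      constructor
      · rintro (h | h)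
        · exact h.2
        · exact lt_of_lt_of_le h (min_le_right _ _)
      · intro h
        rcases lt_or_ge (y i) ε with h' | h'
        · right; exact h'
        · left; exact ⟨h', h⟩
    obtain ⟨D, -, hD1, hD2⟩ := approx_step h0 hs hε hK hfin.toFinset
      (by intro i hi; exact ((hfin.mem_toFinset).1 hi).1)
      (by
        intro i hi j hj hij
        rw [hfin.mem_toFinset] at hj ⊢
        exact ⟨hi, hij.trans hj.2⟩)
      (by intro i hi; exact ((hfin.mem_toFinset).1 hi).2)
      t ht0.le (by rw [hset]; exact ht.le)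
    refine ⟨sg y D, (mem_ach hs).2 ⟨D, mem_univ _, rfl⟩, ?_⟩
    rw [Real.dist_eq, abs_lt]
    have := min_le_left ε' η
    constructor <;> linarith
  exact ⟨sg y {j | y j < η} / 2, interior_maximal hsub isOpen_Ioo ⟨by linarith, by linarith⟩⟩

end

end Q92.Ach
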