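import Mathlib

/-!
# Barycentres of measures on compact convex sets
-/

set_option linter.unusedSectionVars false

namespace Q92.Bary

open MeasureTheory Filter Topology Set

variable {V : Type*} [AddCommGroup V] [Module ℝ V] [TopologicalSpace V]
  [IsTopologicalAddGroup V] [ContinuousSMul ℝ V] [LocallyConvexSpace ℝ V] [T2Space V]
variable {X : Set V}

/-- affine maps on a convex set -/
def AffOn {E : Type*} [AddCommGroup E] [Module ℝ E] (f : X → E) : Prop :=
  ∀ x y z : X, ∀ t : ℝ, 0 ≤ t → t ≤ 1 → (z : V) = t • (x : V) + (1 - t) • (y : V) →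
    f z = t • f x + (1 - t) • f y

variable [MeasurableSpace X] [BorelSpace X]

/-- `r` is the barycentre of the (not normalized) measure `μ` -/
def IsBar (μ : Measure X) (r : X) : Prop :=
  ∀ ℓ : StrongDual ℝ V, μ.real univ * ℓ r = ∫ x, ℓ x ∂μ

lemma integrable_cont [CompactSpace X] (μ : Measure X) [IsFiniteMeasure μ] {F : Type*}
    [NormedAddCommGroup F] {g : X → F} (hg : Continuous g) : Integrable g μ :=
  hg.integrable_of_hasCompactSupport (HasCompactSupport.of_compactSpace _)

lemma real_pos_of_ne {μ : Measure X} [IsFiniteMeasure μ] (h : μ ≠ 0) : 0 < μ.real univ := by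
  rw [measureReal_def]
  exact ENNReal.toReal_pos (by simpa using h) (measure_ne_top _ _)

lemma bar_unique {μ : Measure X} (hμ : μ.real univ ≠ 0) {r r' : X} (h : IsBar μ r)
    (h' : IsBar μ r') : r = r' := by
  by_contra hne
  have hne' : (r : V) ≠ r' := fun h => hne (Subtype.ext h)
  obtain ⟨ℓ, hℓ⟩ := SeparatingDual.exists_separating_of_ne (R := ℝ) hne'
  apply hℓ
  have := (h ℓ).trans (h' ℓ).symm
  exact mul_left_cancel₀ hμ this

lemma exists_finite_mean [CompactSpace X] (hX : Convex ℝ X) (μ : Measure X) [IsFiniteMeasure μ]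
    (hμ : μ ≠ 0) (F : Finset (StrongDual ℝ V)) :
    ∃ r : X, ∀ ℓ ∈ F, μ.real univ * ℓ r = ∫ x, ℓ x ∂μ := by
  classical
  let T : V →L[ℝ] (F → ℝ) := ContinuousLinearMap.pi (fun ℓ => (ℓ : StrongDual ℝ V))
  have hXc : IsCompact X := isCompact_iff_compactSpace.mpr inferInstance
  have hK : IsCompact (T '' X) := hXc.image T.continuous
  have hKc : Convex ℝ (T '' X) := hX.linear_image T.toLinearMap
  have hint : Integrable (fun x : X => T x) μ :=
    integrable_cont μ (T.continuous.comp continuous_subtype_val)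
  have : NeZero μ := ⟨hμ⟩
  have h1 := hKc.average_mem hK.isClosed
    (Eventually.of_forall fun x : X => mem_image_of_mem T x.2) hint
  obtain ⟨r, hr, hr'⟩ := h1
  refine ⟨⟨r, hr⟩, fun ℓ hℓ => ?_⟩
  have h2 : ℓ r = (⨍ x, T x ∂μ) ⟨ℓ, hℓ⟩ := by rw [← hr']; rfl
  change μ.real univ * ℓ r = _
  rw [h2, average_eq, Pi.smul_apply, smul_eq_mul, ← mul_assoc,
    mul_inv_cancel₀ (real_pos_of_ne hμ).ne', one_mul]
  have h3 := (ContinuousLinearMap.proj (R := ℝ) (φ := fun _ : F => ℝ)
    (⟨ℓ, hℓ⟩ : F)).integral_comp_comm hint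
  exact h3.symm

lemma exists_isBar [CompactSpace X] (hX : Convex ℝ X) (μ : Measure X) [IsFiniteMeasure μ]
    (hμ : μ ≠ 0) : ∃ r : X, IsBar μ r := by
  have h1 := (isCompact_univ (X := X)).inter_iInter_nonempty
    (fun ℓ : StrongDual ℝ V => {x : X | μ.real univ * ℓ x = ∫ x, ℓ x ∂μ})
    (fun ℓ => isClosed_eq (continuous_const.mul (ℓ.continuous.comp continuous_subtype_val))
      continuous_const)
    (fun F => by
      obtain ⟨r, hr⟩ := exists_finite_mean hX μ hμ F
      exact ⟨r, mem_univ _, mem_iInter₂.mpr hr⟩)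
  obtain ⟨r, -, hr⟩ := h1
  exact ⟨r, fun ℓ => mem_iInter.mp hr ℓ⟩

/-- the barycentre of a measure carried by a closed convex set lies in it -/
lemma bar_mem [CompactSpace X] (μ : Measure X) [IsFiniteMeasure μ] (hμ : μ ≠ 0)
    {C : Set V} (hC : IsClosed C) (hCc : Convex ℝ C) (hcar : μ {x : X | (x : V) ∉ C} = 0)
    {r : X} (hr : IsBar μ r) : (r : V) ∈ C := by
  by_contra hrC
  obtain ⟨ℓ, s, h1, h2⟩ := geometric_hahn_banach_point_closed hCc hC hrC
  have hm := real_pos_of_ne hμ
  have h3 : μ.real univ * s ≤ ∫ x, ℓ x ∂μ := by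
    have h4 : ∫ _x : X, s ∂μ ≤ ∫ x : X, ℓ x ∂μ := by
      apply integral_mono_ae (integrable_const _)
        (integrable_cont μ (ℓ.continuous.comp continuous_subtype_val))
      have : ∀ᵐ x : X ∂μ, (x : V) ∈ C := by
        rw [ae_iff]; exact hcar
      filter_upwards [this] with x hx
      exact (h2 x hx).le
    rwa [integral_const, smul_eq_mul] at h4
  rw [← hr ℓ] at h3
  have := lt_of_mul_lt_mul_left (lt_of_le_of_lt h3 ((mul_lt_mul_iff_right₀ hm).mpr h1)) hm.le
  exact lt_irrefl _ this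

open Classical in
/-- the value of an affine function at the barycentre, times the mass -/
noncomputable def Fv (f : X → ℝ) (μ : Measure X) : ℝ :=
  if h : ∃ r, IsBar μ r then μ.real univ * f h.choose else 0

lemma Fv_eq (f : X → ℝ) {μ : Measure X} {r : X} (hr : IsBar μ r) :
    Fv f μ = μ.real univ * f r := by
  unfold Fv
  have h : ∃ r, IsBar μ r := ⟨r, hr⟩
  rw [dif_pos h]
  rcases eq_or_ne (μ.real univ) 0 with h0 | h0
  · rw [h0]; ring
  · rw [bar_unique h0 h.choose_spec hr]

lemma isBar_zero (r : X) : IsBar (0 : Measure X) r := by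
  intro ℓ; simp

lemma Fv_zero (f : X → ℝ) : Fv f (0 : Measure X) = 0 := by
  unfold Fv
  split_ifs <;> simp

lemma Fv_neg (f : X → ℝ) (μ : Measure X) : Fv (fun x => - f x) μ = - Fv f μ := by
  unfold Fv
  split_ifs <;> simp

lemma abs_Fv_le [CompactSpace X] {f : X → ℝ} {M : ℝ} (hM : ∀ x, |f x| ≤ M) (hM0 : 0 ≤ M)
    (μ : Measure X) [IsFiniteMeasure μ] : |Fv f μ| ≤ M * μ.real univ := by
  unfold Fv
  split_ifs with h
  · rw [abs_mul, abs_of_nonneg measureReal_nonneg, mul_comm]
    exact mul_le_mul_of_nonneg_right (hM _) measureReal_nonneg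
  · rw [abs_zero]
    exact mul_nonneg hM0 measureReal_nonneg

lemma Fv_add [CompactSpace X] (hX : Convex ℝ X) {f : X → ℝ} (hf : AffOn f) (μ ν : Measure X)
    [IsFiniteMeasure μ] [IsFiniteMeasure ν] : Fv f (μ + ν) = Fv f μ + Fv f ν := by
  rcases eq_or_ne μ 0 with rfl | hμ
  · rw [zero_add, Fv_zero, zero_add]
  rcases eq_or_ne ν 0 with rfl | hν
  · rw [add_zero, Fv_zero, add_zero]
  obtain ⟨r, hr⟩ := exists_isBar hX μ hμ
  obtain ⟨q, hq⟩ := exists_isBar hX ν hν
  have h1 := real_pos_of_ne hμ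
  have h2 := real_pos_of_ne hν
  set a := μ.real univ with ha
  set b := ν.real univ with hb
  have hsum : (μ + ν).real univ = a + b := by
    rw [measureReal_def, Measure.add_apply, ENNReal.toReal_add (measure_ne_top _ _)
      (measure_ne_top _ _)]; rfl
  have hab : 0 < a + b := by positivity
  have ht : 1 - a / (a + b) = b / (a + b) := by field_simp; ring
  have hmem : (a / (a + b)) • (r : V) + (1 - a / (a + b)) • (q : V) ∈ X := by
    apply hX r.2 q.2 (by positivity) (by rw [ht]; positivity) (by ring)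
  have hbar : IsBar (μ + ν) ⟨_, hmem⟩ := by
    intro ℓ
    have hi : Integrable (fun x : X => ℓ (x : V)) μ :=
      integrable_cont μ (ℓ.continuous.comp continuous_subtype_val)
    have hi' : Integrable (fun x : X => ℓ (x : V)) ν :=
      integrable_cont ν (ℓ.continuous.comp continuous_subtype_val)
    rw [integral_add_measure hi hi', ← hr ℓ, ← hq ℓ, hsum, ← ha, ← hb]
    change (a + b) * ℓ ((a / (a + b)) • (r : V) + (1 - a / (a + b)) • (q : V)) = _
    rw [ht, map_add, map_smul, map_smul, smul_eq_mul, smul_eq_mul]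
    field_simp
  rw [Fv_eq f hbar, Fv_eq f hr, Fv_eq f hq, hsum,
    hf r q ⟨_, hmem⟩ (a / (a + b)) (by positivity)
      (by rw [div_le_one hab]; linarith) rfl, ht, smul_eq_mul, smul_eq_mul, ← ha, ← hb]
  field_simp

end Q92.Bary
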