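import Mathlib
import Pool.Agent.Q92.Bary

/-!
# The barycentric formula for affine functions of the first Baire class
-/

set_option linter.unusedSectionVars false

namespace Q92.Bary

open MeasureTheory Filter Topology Set

/-- a finitely additive set function dominated by a finite measure is a signed measure -/
noncomputable def mkSigned {Ω : Type*} [MeasurableSpace Ω] (μ : Measure Ω) [IsFiniteMeasure μ]
    (G : Set Ω → ℝ) (C : ℝ)
    (hadd : ∀ A B, MeasurableSet A → MeasurableSet B → Disjoint A B → G (A ∪ B) = G A + G B)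
    (hb : ∀ A, MeasurableSet A → |G A| ≤ C * μ.real A) : SignedMeasure Ω :=
  open Classical in
  { measureOf' := fun A => if MeasurableSet A then G A else 0
    empty' := by
      rw [if_pos MeasurableSet.empty]
      have := hb ∅ MeasurableSet.empty
      simpa using this
    not_measurable' := fun A hA => if_neg hA
    m_iUnion' := by
      intro f hf hd
      have hU : MeasurableSet (⋃ i, f i) := MeasurableSet.iUnion hf
      simp only [hf, hU, if_true]
      have hsm : Summable (fun i => μ.real (f i)) := by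
        have h1 : ∑' i, μ (f i) ≠ ⊤ := by
          rw [← measure_iUnion hd hf]; exact measure_ne_top _ _
        exact ENNReal.summable_toReal h1
      have hsG : Summable (fun i => G (f i)) := by
        apply Summable.of_norm_bounded (hsm.mul_left C)
        intro i
        exact hb _ (hf i)
      rw [hsG.hasSum_iff_tendsto_nat]
      have hpart : ∀ n : ℕ, ∑ i ∈ Finset.range n, G (f i) = G (⋃ i ∈ Finset.range n, f i) := by
        intro n
        induction n with
        | zero =>
          have h0 : G ∅ = 0 := by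
            have := hb ∅ MeasurableSet.empty
            simpa using this
          simp [h0]
        | succ n ih =>
          rw [Finset.sum_range_succ, ih]
          have h1 : (⋃ i ∈ Finset.range (n + 1), f i) = (⋃ i ∈ Finset.range n, f i) ∪ f n := by
            ext x
            simp only [mem_iUnion, Finset.mem_range, mem_union, exists_prop]
            constructor
            · rintro ⟨i, hi, hx⟩
              rcases Nat.lt_succ_iff_lt_or_eq.mp hi with h | h
              · exact Or.inl ⟨i, h, hx⟩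
              · exact Or.inr (h ▸ hx)
            · rintro (⟨i, hi, hx⟩ | hx)
              · exact ⟨i, by omega, hx⟩
              · exact ⟨n, by omega, hx⟩
          rw [h1, hadd _ _ (Finset.measurableSet_biUnion _ fun i _ => hf i) (hf n)]
          rw [Set.disjoint_left]
          intro x hx hx'
          simp only [mem_iUnion, Finset.mem_range, exists_prop] at hx
          obtain ⟨i, hi, hx⟩ := hx
          exact (Set.disjoint_left.mp (hd (by omega : i ≠ n))) hx hx'
      have hrest : ∀ n : ℕ, |G (⋃ i, f i) - ∑ i ∈ Finset.range n, G (f i)|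
          ≤ C * (∑' i, μ.real (f i) - ∑ i ∈ Finset.range n, μ.real (f i)) := by
        intro n
        set A := ⋃ i ∈ Finset.range n, f i with hA
        have hAm : MeasurableSet A := Finset.measurableSet_biUnion _ fun i _ => hf i
        have hAsub : A ⊆ ⋃ i, f i := by
          intro x hx
          simp only [hA, mem_iUnion, Finset.mem_range, exists_prop] at hx
          obtain ⟨i, -, hx⟩ := hx
          exact mem_iUnion.mpr ⟨i, hx⟩
        have h1 : G (⋃ i, f i) = G A + G ((⋃ i, f i) \ A) := by
          rw [← hadd _ _ hAm (hU.diff hAm) disjoint_sdiff_right, union_sdiff_cancel hAsub]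
        have h2 : μ.real ((⋃ i, f i) \ A) = ∑' i, μ.real (f i)
            - ∑ i ∈ Finset.range n, μ.real (f i) := by
          rw [measureReal_sdiff hAsub hAm]
          congr 1
          · rw [measureReal_def, measure_iUnion hd hf, ENNReal.tsum_toReal_eq]
            · rfl
            · exact fun i => measure_ne_top _ _
          · rw [hA, measureReal_biUnion_finset]
            · intro i _ j _ hij
              exact hd hij
            · intro i _; exact hf i
        rw [hpart n, ← h2, h1, add_sub_cancel_left]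
        exact hb _ (hU.diff hAm)
      rw [tendsto_iff_dist_tendsto_zero]
      have h3 : Tendsto (fun n : ℕ => C * (∑' i, μ.real (f i)
          - ∑ i ∈ Finset.range n, μ.real (f i))) atTop (𝓝 0) := by
        have := (hsm.hasSum.tendsto_sum_nat.const_sub (∑' i, μ.real (f i))).const_mul C
        simpa using this
      apply squeeze_zero (fun _ => dist_nonneg) _ h3
      intro n
      rw [dist_comm, Real.dist_eq]
      exact hrest n }

open Classical in
lemma mkSigned_apply {Ω : Type*} [MeasurableSpace Ω] (μ : Measure Ω) [IsFiniteMeasure μ]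
    (G : Set Ω → ℝ) (C : ℝ)
    (hadd : ∀ A B, MeasurableSet A → MeasurableSet B → Disjoint A B → G (A ∪ B) = G A + G B)
    (hb : ∀ A, MeasurableSet A → |G A| ≤ C * μ.real A) {A : Set Ω} (hA : MeasurableSet A) :
    mkSigned μ G C hadd hb A = G A := by
  change (if MeasurableSet A then G A else 0) = G A
  exact if_pos hA

variable {V : Type*} [AddCommGroup V] [Module ℝ V] [TopologicalSpace V]
  [IsTopologicalAddGroup V] [ContinuousSMul ℝ V] [LocallyConvexSpace ℝ V] [T2Space V]
variable {X : Set V} [MeasurableSpace X] [BorelSpace X]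

/-- positive part of the set `{y ∈ K : every neighbourhood of y has positive measure}` -/
lemma support_null [CompactSpace X] (ρ : Measure X) [ρ.Regular] :
    ρ {y : X | ∃ U ∈ 𝓝 y, ρ U = 0} = 0 := by
  set O : Set X := ⋃₀ {U : Set X | IsOpen U ∧ ρ U = 0} with hO
  have hOo : IsOpen O := isOpen_sUnion fun U hU => hU.1
  have hsub : {y : X | ∃ U ∈ 𝓝 y, ρ U = 0} ⊆ O := by
    rintro y ⟨U, hU, hU0⟩
    obtain ⟨W, hWU, hW, hyW⟩ := mem_nhds_iff.mp hU
    exact mem_sUnion.mpr ⟨W, ⟨hW, measure_mono_null hWU hU0⟩, hyW⟩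
  apply measure_mono_null hsub
  rw [hOo.measure_eq_iSup_isCompact]
  simp only [ENNReal.iSup_eq_zero]
  intro K hKO hK
  obtain ⟨T, hT, hTf, hKT⟩ := hK.elim_finite_subcover_image (b := {U : Set X | IsOpen U ∧ ρ U = 0})
    (c := id) (fun U hU => hU.1) (by rw [hO, sUnion_eq_biUnion] at hKO; exact hKO)
  apply measure_mono_null hKT
  rw [measure_biUnion_null_iff hTf.countable]
  intro U hU
  exact (hT hU).2

/-- The barycentric inequality for bounded affine functions of the first Baire class. -/
theorem bary_le [CompactSpace X] (hX : Convex ℝ X) (μ : Measure X) [IsFiniteMeasure μ]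
    [μ.Regular] {f : X → ℝ} (hf : AffOn f) {u : ℕ → C(X, ℝ)} {M : ℝ} (hu : ∀ n x, |u n x| ≤ M)
    (hlim : ∀ x, Tendsto (fun n => u n x) atTop (𝓝 (f x))) : Fv f μ ≤ ∫ x, f x ∂μ := by
  by_contra hcon
  push Not at hcon
  have hXc : IsCompact X := isCompact_iff_compactSpace.mpr inferInstance
  have hfM : ∀ x, |f x| ≤ M := fun x =>
    le_of_tendsto ((continuous_abs.tendsto _).comp (hlim x)) (Eventually.of_forall fun n => hu n x)
  have hμ : μ ≠ 0 := by
    rintro rfl
    rw [Fv_zero] at hcon
    simp at hcon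
  have hm := real_pos_of_ne hμ
  have hne : Nonempty X := by
    by_contra hX0
    rw [not_nonempty_iff] at hX0
    exact hμ (Measure.eq_zero_of_isEmpty μ)
  have hM0 : 0 ≤ M := (abs_nonneg _).trans (hfM hne.some)
  have hfm : Measurable f := measurable_of_tendsto_metrizable
    (fun n => (u n).continuous.measurable) (tendsto_pi_nhds.mpr hlim)
  have hfi : Integrable f μ := by
    apply Integrable.of_bound hfm.aestronglyMeasurable M
    exact Eventually.of_forall fun x => by rw [Real.norm_eq_abs]; exact hfM x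
  set m := μ.real univ with hmdef
  set c := (Fv f μ - ∫ x, f x ∂μ) / (2 * m) with hc
  have hc0 : 0 < c := div_pos (by linarith) (by positivity)
  -- the signed measure
  set G : Set X → ℝ := fun A => Fv f (μ.restrict A) - ∫ x in A, f x ∂μ - c * μ.real A with hG
  have hadd : ∀ A B, MeasurableSet A → MeasurableSet B → Disjoint A B →
      G (A ∪ B) = G A + G B := by
    intro A B hA hB hAB
    simp only [hG]
    rw [Measure.restrict_union hAB hB, Fv_add hX hf, integral_add_measure hfi.restrict
      hfi.restrict, measureReal_union hAB hB]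
    ring
  have hreal : ∀ A : Set X, (μ.restrict A).real univ = μ.real A := fun A => by
    rw [measureReal_restrict_apply_univ]
  have hb : ∀ A, MeasurableSet A → |G A| ≤ (2 * M + c) * μ.real A := by
    intro A hA
    have h1 := abs_Fv_le hfM hM0 (μ.restrict A)
    rw [hreal A] at h1
    have h2 : |∫ x in A, f x ∂μ| ≤ M * μ.real A := by
      have := norm_setIntegral_le_of_norm_le_const (μ := μ) (s := A) (f := f) (C := M)
        (measure_lt_top _ _) (fun x _ => by rw [Real.norm_eq_abs]; exact hfM x)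
      rwa [Real.norm_eq_abs] at this
    have h3 : 0 ≤ μ.real A := measureReal_nonneg
    have h4 : |c * μ.real A| = c * μ.real A := abs_of_nonneg (by positivity)
    calc |G A| ≤ |Fv f (μ.restrict A)| + |∫ x in A, f x ∂μ| + |c * μ.real A| := by
          refine (abs_sub _ _).trans ?_
          gcongr
          exact abs_sub _ _
      _ ≤ _ := by rw [h4]; linarith
  set τ := mkSigned μ G (2 * M + c) hadd hb with hτ
  obtain ⟨P, hPm, hP1, hP2⟩ := τ.exists_compl_positive_negative
  have hGuniv : 0 < G univ := by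
    simp only [hG]
    rw [Measure.restrict_univ, ← hmdef]
    have : c * m = (Fv f μ - ∫ x, f x ∂μ) / 2 := by rw [hc]; field_simp
    linarith
  have hGPc : G Pᶜ ≤ 0 := by
    have h1 := hP2
    rw [VectorMeasure.restrict_le_restrict_iff _ _ hPm.compl] at h1
    have h2 := h1 hPm.compl Subset.rfl
    rw [hτ, mkSigned_apply _ _ _ _ _ hPm.compl] at h2
    simpa using h2
  have hGP : 0 < G P := by
    have := hadd P Pᶜ hPm hPm.compl disjoint_compl_right
    rw [union_compl_self] at this
    linarith
  have hGB : ∀ B, MeasurableSet B → B ⊆ P → 0 ≤ G B := by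
    intro B hB hBP
    have h1 := hP1
    rw [VectorMeasure.restrict_le_restrict_iff _ _ hPm] at h1
    have h2 := h1 hB hBP
    rw [hτ, mkSigned_apply _ _ _ _ _ hB] at h2
    simpa using h2
  have hμP : μ P ≠ 0 := by
    intro h0
    have := (le_abs_self _).trans (hb P hPm)
    rw [measureReal_def, h0] at this
    simp at this
    linarith
  -- a level set
  obtain ⟨k, hk⟩ : ∃ k : ℤ, μ (P ∩ {x | ⌊f x / (c / 2)⌋ = k}) ≠ 0 := by
    by_contra hall
    push Not at hall
    apply hμP
    have : P = ⋃ k : ℤ, P ∩ {x | ⌊f x / (c / 2)⌋ = k} := by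
      ext x
      simp only [mem_iUnion, mem_inter_iff]
      exact ⟨fun h => ⟨_, h, rfl⟩, fun ⟨_, h, _⟩ => h⟩
    rw [this]
    exact measure_iUnion_null hall
  have hDm : MeasurableSet (P ∩ {x | ⌊f x / (c / 2)⌋ = k}) :=
    hPm.inter ((Int.measurable_floor.comp (hfm.div_const _)) (measurableSet_singleton k))
  obtain ⟨K, hKD, hK, hμK⟩ := hDm.exists_lt_isCompact_of_ne_top (measure_ne_top μ _)
    (pos_iff_ne_zero.mpr hk)
  have hKm : MeasurableSet K := hK.isClosed.measurableSet
  set α : ℝ := (k + 1) * (c / 2) with hα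
  set β : ℝ := (k + 2) * (c / 2) with hβ
  have hfK : ∀ y ∈ K, k * (c / 2) ≤ f y ∧ f y < α := by
    intro y hy
    have h1 : ⌊f y / (c / 2)⌋ = k := (hKD hy).2
    rw [Int.floor_eq_iff] at h1
    rw [le_div_iff₀ (by positivity), div_lt_iff₀ (by positivity)] at h1
    exact ⟨h1.1, h1.2⟩
  have hβα : β - α = c / 2 := by rw [hα, hβ]; ring
  -- barycentres of pieces of `K`
  have hR : ∀ B, MeasurableSet B → B ⊆ K → μ B ≠ 0 → ∀ r, IsBar (μ.restrict B) r → β ≤ f r := by
    intro B hB hBK hB0 r hr
    have h1 := hGB B hB (fun x hx => (hKD (hBK hx)).1)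
    simp only [hG] at h1
    rw [Fv_eq f hr, hreal B] at h1
    have hBpos : 0 < μ.real B := by
      rw [measureReal_def]; exact ENNReal.toReal_pos hB0 (measure_ne_top _ _)
    have h2 : k * (c / 2) * μ.real B ≤ ∫ x in B, f x ∂μ := by
      have := setIntegral_mono_on (μ := μ) (s := B) (f := fun _ => (k : ℝ) * (c / 2)) (g := f)
        (integrable_const _).integrableOn hfi.integrableOn hB (fun x hx => (hfK x (hBK hx)).1)
      rw [setIntegral_const, smul_eq_mul] at this
      linarith
    have h3 : μ.real B * β ≤ μ.real B * f r := by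
      rw [hβ]; nlinarith
    exact le_of_mul_le_mul_left h3 hBpos
  -- the support
  set ρ := μ.restrict K with hρ
  set L : Set X := {y | y ∈ K ∧ ∀ U ∈ 𝓝 y, ρ U ≠ 0} with hL
  have hLc : ρ Lᶜ = 0 := by
    have h1 : Lᶜ ⊆ Kᶜ ∪ {y : X | ∃ U ∈ 𝓝 y, ρ U = 0} := by
      intro y hy
      by_cases hyK : y ∈ K
      · right
        by_contra hno
        apply hy
        refine ⟨hyK, fun U hU h0 => hno ⟨U, hU, h0⟩⟩
      · exact Or.inl hyK
    apply measure_mono_null h1
    rw [measure_union_null_iff]
    refine ⟨?_, support_null ρ⟩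
    rw [hρ, Measure.restrict_apply hKm.compl, compl_inter_self, measure_empty]
  have hρ0 : ρ ≠ 0 := by
    intro h0
    have : μ K = 0 := by
      rw [← Measure.restrict_apply_univ K, ← hρ, h0]; simp
    exact hμK.ne' this
  have hLne : L.Nonempty := by
    by_contra hE
    rw [not_nonempty_iff_eq_empty] at hE
    rw [hE, compl_empty, Measure.measure_univ_eq_zero] at hLc
    exact hρ0 hLc
  set A1 : Set V := convexHull ℝ ((↑) '' L) with hA1
  set RR : Set X := {r | ∃ B, MeasurableSet B ∧ B ⊆ K ∧ μ B ≠ 0 ∧ IsBar (μ.restrict B) r} with hRR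
  set A2 : Set V := convexHull ℝ ((↑) '' RR) with hA2
  set C : Set V := closure A1 with hC
  have hA1c : Convex ℝ A1 := convex_convexHull ℝ _
  have hCc : Convex ℝ C := hA1c.closure
  have hCX : C ⊆ X := by
    apply closure_minimal _ hXc.isClosed
    apply convexHull_min _ hX
    rintro _ ⟨x, -, rfl⟩
    exact x.2
  -- barycentres lie in `C`
  have hRC : ∀ r ∈ RR, (r : V) ∈ C := by
    rintro r ⟨B, hB, hBK, hB0, hr⟩
    have hne' : μ.restrict B ≠ 0 := by
      intro h0
      apply hB0
      rw [← Measure.restrict_apply_univ B, h0]; simp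
    apply bar_mem (μ.restrict B) hne' isClosed_closure hCc _ hr
    have h1 : {x : X | (x : V) ∉ C} ⊆ Lᶜ := by
      intro x hx hxL
      exact hx (subset_closure (subset_convexHull ℝ _ (mem_image_of_mem _ hxL)))
    have h2 : μ.restrict B Lᶜ ≤ ρ Lᶜ := Measure.restrict_mono hBK le_rfl _
    exact measure_mono_null h1 (le_antisymm (h2.trans hLc.le) (zero_le))
  have hA2C : A2 ⊆ C := by
    apply convexHull_min _ hCc
    rintro _ ⟨r, hr, rfl⟩
    exact hRC r hr
  -- density of `A2`
  have hLA2 : ∀ y ∈ L, (y : V) ∈ closure A2 := by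
    intro y hy
    rw [mem_closure_iff_nhds]
    intro U hU
    obtain ⟨W, ⟨hW1, hW2⟩, hW3⟩ :
        ∃ W : Set V, (W ∈ 𝓝 (y : V) ∧ (IsClosed W ∧ Convex ℝ W)) ∧ W ⊆ U := by
      obtain ⟨N, hN, hNc, hNU⟩ := exists_mem_nhds_isClosed_subset hU
      obtain ⟨W, ⟨hW, hWc⟩, hWN⟩ :=
        (LocallyConvexSpace.convex_basis (𝕜 := ℝ) (y : V)).mem_iff.mp hN
      exact ⟨closure W, ⟨mem_of_superset hW subset_closure, isClosed_closure, hWc.closure⟩,
        (closure_minimal hWN hNc).trans hNU⟩
    set B := K ∩ {x : X | (x : V) ∈ W} with hB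
    have hWX : {x : X | (x : V) ∈ W} ∈ 𝓝 y := continuous_subtype_val.continuousAt.preimage_mem_nhds hW1
    have hWm : MeasurableSet {x : X | (x : V) ∈ W} :=
      (hW2.1.preimage continuous_subtype_val).measurableSet
    have hB0 : μ B ≠ 0 := by
      have := hy.2 _ hWX
      rwa [hρ, Measure.restrict_apply hWm, inter_comm] at this
    have hne' : μ.restrict B ≠ 0 := by
      intro h0
      apply hB0
      rw [← Measure.restrict_apply_univ B, h0]; simp
    obtain ⟨r, hr⟩ := exists_isBar hX (μ.restrict B) hne'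
    have hBm : MeasurableSet B := hKm.inter hWm
    refine ⟨r, hW3 ?_, subset_convexHull ℝ _ (mem_image_of_mem _ ⟨B, hBm, inter_subset_left,
      hB0, hr⟩)⟩
    apply bar_mem (μ.restrict B) hne' hW2.1 hW2.2 _ hr
    have hWcm : MeasurableSet {x : X | (x : V) ∉ W} := hWm.compl
    rw [Measure.restrict_apply hWcm]
    have : {x : X | (x : V) ∉ W} ∩ B = ∅ := by
      ext x
      simp only [hB, mem_inter_iff, mem_empty_iff_false, iff_false, not_and]
      intro h1 _ h3
      exact h1 h3
    rw [this, measure_empty]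
  have hCA2 : C ⊆ closure A2 := by
    apply closure_minimal _ isClosed_closure
    apply convexHull_min _ (convex_convexHull ℝ _).closure
    rintro _ ⟨y, hy, rfl⟩
    exact hLA2 y hy
  -- values on the two dense sets
  have hv1 : ∀ v (hv : v ∈ X), v ∈ A1 → f ⟨v, hv⟩ ≤ α := by
    have hconv : Convex ℝ {v : V | ∃ hv : v ∈ X, f ⟨v, hv⟩ ≤ α} := by
      rintro v ⟨hv, hv'⟩ w ⟨hw, hw'⟩ a b ha hb hab
      refine ⟨hX hv hw ha hb hab, ?_⟩
      obtain rfl : b = 1 - a := by linarith
      rw [hf ⟨v, hv⟩ ⟨w, hw⟩ ⟨_, hX hv hw ha hb hab⟩ a ha (by linarith) rfl,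
        smul_eq_mul, smul_eq_mul]
      have e1 := mul_le_mul_of_nonneg_left hv' ha
      have e2 := mul_le_mul_of_nonneg_left hw' hb
      linarith
    have hsub : A1 ⊆ {v : V | ∃ hv : v ∈ X, f ⟨v, hv⟩ ≤ α} := by
      apply convexHull_min _ hconv
      rintro _ ⟨y, hy, rfl⟩
      exact ⟨y.2, (hfK y hy.1).2.le⟩
    intro v hv hvA
    obtain ⟨_, h⟩ := hsub hvA
    exact h
  have hv2 : ∀ v (hv : v ∈ X), v ∈ A2 → β ≤ f ⟨v, hv⟩ := by
    have hconv : Convex ℝ {v : V | ∃ hv : v ∈ X, β ≤ f ⟨v, hv⟩} := by
      rintro v ⟨hv, hv'⟩ w ⟨hw, hw'⟩ a b ha hb hab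
      refine ⟨hX hv hw ha hb hab, ?_⟩
      obtain rfl : b = 1 - a := by linarith
      rw [hf ⟨v, hv⟩ ⟨w, hw⟩ ⟨_, hX hv hw ha hb hab⟩ a ha (by linarith) rfl,
        smul_eq_mul, smul_eq_mul]
      have e1 := mul_le_mul_of_nonneg_left hv' ha
      have e2 := mul_le_mul_of_nonneg_left hw' hb
      linarith
    have hsub : A2 ⊆ {v : V | ∃ hv : v ∈ X, β ≤ f ⟨v, hv⟩} := by
      apply convexHull_min _ hconv
      rintro _ ⟨r, ⟨B, hB, hBK, hB0, hr⟩, rfl⟩
      exact ⟨r.2, hR B hB hBK hB0 r hr⟩
    intro v hv hvA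
    obtain ⟨_, h⟩ := hsub hvA
    exact h
  -- the Baire category argument
  have hCcomp : CompactSpace C :=
    isCompact_iff_compactSpace.mp (hXc.of_isClosed_subset isClosed_closure hCX)
  have hCne : Nonempty C := by
    obtain ⟨y, hy⟩ := hLne
    exact ⟨⟨y, subset_closure (subset_convexHull ℝ _ (mem_image_of_mem _ hy))⟩⟩
  let inc : C → X := fun x => ⟨x, hCX x.2⟩
  have hinc : Continuous inc := continuous_subtype_val.subtype_mk _
  set ε : ℝ := (β - α) / 5 with hε
  have hε0 : 0 < ε := by rw [hε, hβα]; positivity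
  let FF : ℕ → Set C := fun N => {x | ∀ n, N ≤ n → |u n (inc x) - u N (inc x)| ≤ ε}
  have hFFc : ∀ N, IsClosed (FF N) := by
    intro N
    have : FF N = ⋂ n, ⋂ (_ : N ≤ n), {x | |u n (inc x) - u N (inc x)| ≤ ε} := by
      ext x; simp [FF]
    rw [this]
    refine isClosed_iInter fun n => isClosed_iInter fun _ => isClosed_le ?_ continuous_const
    exact continuous_abs.comp (((u n).continuous.comp hinc).sub ((u N).continuous.comp hinc))
  have hFFu : ⋃ N, FF N = univ := by
    rw [eq_univ_iff_forall]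
    intro x
    obtain ⟨N, hN⟩ := Metric.cauchySeq_iff'.mp (hlim (inc x)).cauchySeq ε hε0
    exact mem_iUnion.mpr ⟨N, fun n hn => by
      have := hN n hn
      rw [Real.dist_eq] at this
      exact this.le⟩
  obtain ⟨N, w, hw⟩ := nonempty_interior_of_iUnion_of_closed hFFc hFFu
  have hfN : ∀ x ∈ FF N, |f (inc x) - u N (inc x)| ≤ ε := by
    intro x hx
    have h1 : Tendsto (fun n => |u n (inc x) - u N (inc x)|) atTop
        (𝓝 |f (inc x) - u N (inc x)|) := ((hlim (inc x)).sub_const _).abs
    exact le_of_tendsto h1 (eventually_atTop.mpr ⟨N, hx⟩)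
  have hW : interior (FF N) ∩ {x : C | |u N (inc x) - u N (inc w)| < ε} ∈ 𝓝 w := by
    apply inter_mem (isOpen_interior.mem_nhds hw)
    have hcont : Continuous fun x : C => |u N (inc x) - u N (inc w)| :=
      continuous_abs.comp (((u N).continuous.comp hinc).sub continuous_const)
    have := hcont.tendsto w
    simp only [sub_self, abs_zero] at this
    exact this.eventually_lt_const hε0
  obtain ⟨O, hO, hOW⟩ := mem_nhds_subtype _ _ _ |>.mp hW
  have hest : ∀ v, (hv : v ∈ C) → v ∈ O → |f ⟨v, hCX hv⟩ - u N (inc w)| ≤ 2 * ε := by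
    intro v hv hvO
    have h1 := hOW (show (⟨v, hv⟩ : C) ∈ Subtype.val ⁻¹' O from hvO)
    have h2 := hfN _ (interior_subset h1.1)
    have h3 : |u N (inc ⟨v, hv⟩) - u N (inc w)| < ε := h1.2
    have h4 : f ⟨v, hCX hv⟩ - u N (inc w) = (f (inc ⟨v, hv⟩) - u N (inc ⟨v, hv⟩))
        + (u N (inc ⟨v, hv⟩) - u N (inc w)) := by
      change f (inc ⟨v, hv⟩) - _ = _
      ring
    rw [h4]
    calc _ ≤ |f (inc ⟨v, hv⟩) - u N (inc ⟨v, hv⟩)| + |u N (inc ⟨v, hv⟩) - u N (inc w)| :=
          abs_add_le _ _
      _ ≤ 2 * ε := by linarith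
  obtain ⟨v1, hv1O, hv1A⟩ := mem_closure_iff_nhds.mp (show (w : V) ∈ closure A1 from w.2) O hO
  obtain ⟨v2, hv2O, hv2A⟩ := mem_closure_iff_nhds.mp (hCA2 w.2) O hO
  have e1 := hest v1 (subset_closure hv1A) hv1O
  have e2 := hest v2 (hA2C hv2A) hv2O
  have e3 := hv1 v1 (hCX (subset_closure hv1A)) hv1A
  have e4 := hv2 v2 (hCX (hA2C hv2A)) hv2A
  rw [abs_le] at e1 e2
  have e5 : 5 * ε = β - α := by rw [hε]; ring
  linarith [e1.1, e2.2]

/-- **Barycentric formula** for bounded affine functions of the first Baire class. -/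
theorem bary_eq [CompactSpace X] (hX : Convex ℝ X) (μ : Measure X) [IsFiniteMeasure μ]
    [μ.Regular] {f : X → ℝ} (hf : AffOn f) {u : ℕ → C(X, ℝ)} {M : ℝ} (hu : ∀ n x, |u n x| ≤ M)
    (hlim : ∀ x, Tendsto (fun n => u n x) atTop (𝓝 (f x))) : Fv f μ = ∫ x, f x ∂μ := by
  apply le_antisymm (bary_le hX μ hf hu hlim)
  have h1 := bary_le hX μ (f := fun x => - f x) (u := fun n => - u n) (M := M)
    (fun x y z t h0 h1 h2 => by
      change - f z = t • (- f x) + (1 - t) • (- f y)
      rw [hf x y z t h0 h1 h2]; simp only [smul_eq_mul]; ring)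
    (fun n x => by simpa using hu n x) (fun x => (hlim x).neg)
  rw [Fv_neg, integral_neg] at h1
  linarith

end Q92.Bary
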