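import Mathlib

/-!
# A poor free filter on `ℕ` that is not generated by a statistical measure

Helper file: definitions about free filters on `ℕ`, and a Gaifman type construction.
-/

namespace Q92.Gaifman

open Set Filter Topology

/-- the ideal of a filter -/
def ideal (F : Filter ℕ) : Set (Set ℕ) := {A | Aᶜ ∈ F}

/-- the grill of a filter -/
def grill (F : Filter ℕ) : Set (Set ℕ) := {A | A ∉ ideal F}

/-- a free filter: a proper filter containing all cofinite sets -/
structure IsFree (F : Filter ℕ) : Prop where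
  neBot : F.NeBot
  free : ∀ A : Set ℕ, Aᶜ.Finite → A ∈ F

/-- `F` is poor -/
def Poor (F : Filter ℕ) : Prop :=
  ∀ (Γ : Type) (A : Γ → Set ℕ), (∀ γ, A γ ∈ grill F) →
    (∀ γ γ', γ ≠ γ' → A γ ∩ A γ' ∈ ideal F) → Countable Γ

/-- `F` is conglomerated -/
def Conglomerated (F : Filter ℕ) : Prop :=
  ∃ D : ℕ → Set ℕ, (∀ n, D n ∈ ideal F) ∧ (∀ m n, m ≠ n → Disjoint (D m) (D n)) ∧
    ∀ M : Set ℕ, M.Infinite → (⋃ n ∈ M, D n) ∈ grill F

/-- a statistical measure -/
structure IsStatMeasure (μ : Set ℕ → ℝ) : Prop where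
  nonneg : ∀ A, 0 ≤ μ A
  add : ∀ A B, Disjoint A B → μ (A ∪ B) = μ A + μ B
  univ : μ Set.univ = 1
  singleton : ∀ k : ℕ, μ {k} = 0

/-- `F` is generated by `μ` -/
def GeneratedBy (F : Filter ℕ) (μ : Set ℕ → ℝ) : Prop := ∀ A : Set ℕ, A ∈ F ↔ μ A = 1

/-! ### an independent family indexed by the reals -/

abbrev D : Type := Finset ℚ × Finset (Finset ℚ)

noncomputable instance : Denumerable D := Denumerable.prod

/-- the numbering of `D` -/
noncomputable def eD : D ≃ ℕ := Denumerable.eqv D

/-- trace of a real on a finite set of rationals -/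
noncomputable def tr (F : Finset ℚ) (x : ℝ) : Finset ℚ := by
  classical exact F.filter (fun q => (q : ℝ) < x)

/-- the independent family -/
def A (x : ℝ) : Set ℕ := {n | tr (eD.symm n).1 x ∈ (eD.symm n).2}

/-- intersection of the family over a finite set -/
def AA (p : Finset ℝ) : Set ℕ := {n | ∀ x ∈ p, n ∈ A x}

lemma exists_sep (s : Finset ℝ) : ∃ F : Finset ℚ, ∀ F', F ⊆ F' → ∀ x ∈ s, ∀ y ∈ s, x ≠ y →
    tr F' x ≠ tr F' y := by
  classical
  have h : ∀ x y : ℝ, ∃ q : ℚ, x < y → x < q ∧ (q : ℝ) < y := by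
    intro x y
    by_cases h : x < y
    · obtain ⟨q, hq⟩ := exists_rat_btwn h
      exact ⟨q, fun _ => hq⟩
    · exact ⟨0, fun h' => absurd h' h⟩
  choose q hq using h
  refine ⟨(s ×ˢ s).image (fun z => q z.1 z.2), fun F' hF' x hx y hy hxy => ?_⟩
  have key : ∀ x ∈ s, ∀ y ∈ s, x < y → tr F' x ≠ tr F' y := by
    intro x hx y hy hlt heq
    obtain ⟨h1, h2⟩ := hq x y hlt
    have hmem : q x y ∈ F' := hF' (Finset.mem_image.mpr
      ⟨(x, y), Finset.mem_product.mpr ⟨hx, hy⟩, rfl⟩)
    have : q x y ∈ tr F' y := by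
      unfold tr; exact Finset.mem_filter.mpr ⟨hmem, h2⟩
    rw [← heq] at this
    unfold tr at this
    have h3 := (Finset.mem_filter.mp this).2
    linarith
  rcases lt_or_gt_of_ne hxy with h | h
  · exact key x hx y hy h
  · exact (key y hy x hx h).symm

lemma indep (p q : Finset ℝ) (hpq : Disjoint p q) :
    {n | (∀ x ∈ p, n ∈ A x) ∧ ∀ x ∈ q, n ∉ A x}.Infinite := by
  classical
  obtain ⟨F, hF⟩ := exists_sep (p ∪ q)
  have hinf : (Ici F).Infinite := by
    apply Set.infinite_of_not_bddAbove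
    rintro ⟨G, hG⟩
    obtain ⟨r, hr⟩ := Infinite.exists_notMem_finset G
    have h1 : insert r F ∈ Ici F := Finset.subset_insert r F
    have h2 := hG h1
    exact hr (h2 (Finset.mem_insert_self r F))
  have himg : ((fun F' : Finset ℚ => eD (F', p.image (tr F'))) '' Ici F).Infinite := by
    refine hinf.image ?_
    intro F₁ _ F₂ _ h
    have := eD.injective h
    exact (Prod.mk.inj this).1
  refine himg.mono ?_
  rintro _ ⟨F', hF', rfl⟩
  have hF'' : F ⊆ F' := hF'
  constructor
  · intro x hx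
    show tr (eD.symm (eD (F', p.image (tr F')))).1 x ∈ (eD.symm (eD (F', p.image (tr F')))).2
    rw [Equiv.symm_apply_apply]
    exact Finset.mem_image_of_mem _ hx
  · intro x hx hmem
    have hmem' : tr (eD.symm (eD (F', p.image (tr F')))).1 x
        ∈ (eD.symm (eD (F', p.image (tr F')))).2 := hmem
    rw [Equiv.symm_apply_apply] at hmem'
    obtain ⟨y, hy, hyx⟩ := Finset.mem_image.mp hmem'
    have hne : y ≠ x := fun h => Finset.disjoint_left.mp hpq hy (h ▸ hx)
    exact hF F' hF'' y (Finset.mem_union_left _ hy) x (Finset.mem_union_right _ hx) hne hyx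

/-! ### admissible sets -/

/-- enumeration of the constraints -/
noncomputable def eN : (ℚ × ℕ) × ℕ ≃ ℕ := Denumerable.eqv _

/-- left end of the `n`-th interval -/
noncomputable def lft (n : ℕ) : ℝ := ((eN.symm n).1.1 : ℝ)

/-- inverse length of the `n`-th interval -/
noncomputable def inv (n : ℕ) : ℝ := ((eN.symm n).1.2 : ℝ) + 1

lemma inv_pos' (n : ℕ) : 0 < inv n := by unfold inv; positivity

/-- number of colours at stage `n` -/
def K (n : ℕ) : ℕ := (n + 1) * (n + 1)

/-- membership in the `n`-th interval -/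
def inI (n : ℕ) (x : ℝ) : Prop := lft n < x ∧ x < lft n + 1 / inv n

/-- the colour of a real at stage `n` -/
noncomputable def col (n : ℕ) (x : ℝ) : ℕ := ⌊(x - lft n) * inv n * K n⌋₊

open Classical in
/-- the colours at stage `n` used by `p` -/
noncomputable def colors (n : ℕ) (p : Finset ℝ) : Finset ℕ := (p.filter (inI n)).image (col n)

/-- admissible finite sets of reals -/
def Adm (p : Finset ℝ) : Prop := ∀ n, (colors n p).card ≤ n + 1

lemma colors_card (n : ℕ) (p : Finset ℝ) : (colors n p).card ≤ p.card := by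
  classical
  unfold colors
  exact Finset.card_image_le.trans (Finset.card_filter_le _ _)

lemma colors_mono {n : ℕ} {p q : Finset ℝ} (h : p ⊆ q) : colors n p ⊆ colors n q := by
  classical
  unfold colors
  exact Finset.image_subset_image (Finset.filter_subset_filter _ h)

lemma colors_union (n : ℕ) (p q : Finset ℝ) : colors n (p ∪ q) = colors n p ∪ colors n q := by
  classical
  unfold colors
  rw [Finset.filter_union, Finset.image_union]

lemma Adm.mono {p q : Finset ℝ} (hq : Adm q) (h : p ⊆ q) : Adm p := fun n =>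
  (Finset.card_le_card (colors_mono h)).trans (hq n)

lemma adm_singleton (x : ℝ) : Adm {x} := fun n => by
  have := colors_card n {x}
  simp at this
  omega

/-- the type of a finite set -/
noncomputable def typ (p : Finset ℝ) : ℕ × List (Finset ℕ) :=
  (p.card, (List.range (2 * p.card)).map (fun n => colors n p))

lemma adm_union {p q : Finset ℝ} (hp : Adm p) (h : typ p = typ q) : Adm (p ∪ q) := by
  classical
  intro n
  have h1 : p.card = q.card := (Prod.mk.inj h).1
  have h2 := (Prod.mk.inj h).2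
  rw [← h1] at h2
  by_cases hn : n < 2 * p.card
  · have h3 := List.map_inj_left.mp h2 n (List.mem_range.mpr hn)
    rw [colors_union, ← h3, Finset.union_idempotent]
    exact hp n
  · push Not at hn
    have h4 := colors_card n (p ∪ q)
    have h5 := Finset.card_union_le p q
    omega

/-! ### the filter -/

/-- the defining conditions -/
def good (F : Filter ℕ) : Prop :=
  (∀ B : Set ℕ, Bᶜ.Finite → B ∈ F) ∧ (∀ p, ¬ Adm p → (AA p)ᶜ ∈ F) ∧ ∀ p, Adm p → (AA p)ᶜ ∉ F

/-- the base filter -/
def F0 : Filter ℕ := cofinite ⊓ ⨅ p : {p : Finset ℝ // ¬ Adm p}, 𝓟 (AA p.1)ᶜ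

lemma AA_union (p q : Finset ℝ) [DecidableEq ℝ] : AA (p ∪ q) = AA p ∩ AA q := by
  ext n
  simp only [AA, mem_ofPred_eq, mem_inter_iff, Finset.mem_union]
  constructor
  · intro h
    exact ⟨fun x hx => h x (Or.inl hx), fun x hx => h x (Or.inr hx)⟩
  · rintro ⟨h1, h2⟩ x (hx | hx)
    · exact h1 x hx
    · exact h2 x hx

lemma F0_good : good F0 := by
  classical
  refine ⟨fun B hB => ?_, fun p hp => ?_, fun p hp hmem => ?_⟩
  · exact mem_inf_of_left (mem_cofinite.mpr hB)
  · exact mem_inf_of_right (mem_iInf_of_mem ⟨p, hp⟩ (mem_principal_self _))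
  · -- a finite subfamily
    unfold F0 at hmem
    rw [mem_inf_iff] at hmem
    obtain ⟨U, hU, V, hV, hUV⟩ := hmem
    rw [mem_iInf] at hV
    obtain ⟨I, hI, W, hW, hVW⟩ := hV
    have hex : ∀ i : I, ∃ x ∈ i.1.1, x ∉ p := by
      intro i
      by_contra h
      push Not at h
      exact i.1.2 (hp.mono h)
    choose r hr1 hr2 using hex
    have : Fintype I := hI.fintype
    set q : Finset ℝ := Finset.univ.image r with hq
    have hdis : Disjoint p q := by
      rw [Finset.disjoint_left]
      intro x hx hxq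
      obtain ⟨i, -, rfl⟩ := Finset.mem_image.mp hxq
      exact hr2 i hx
    have hinf := indep p q hdis
    have hUfin : Uᶜ.Finite := mem_cofinite.mp hU
    obtain ⟨n, ⟨hn1, hn2⟩, hnU⟩ := (hinf.sdiff hUfin).nonempty
    have hnU' : n ∈ U := by
      by_contra h; exact hnU h
    have hnV : n ∈ V := by
      rw [hVW, mem_iInter]
      intro i
      have := hW i
      rw [mem_principal] at this
      apply this
      intro hmem
      exact hn2 (r i) (Finset.mem_image_of_mem _ (Finset.mem_univ i)) (hmem (r i) (hr1 i))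
    have : n ∈ (AA p)ᶜ := by rw [hUV]; exact ⟨hnU', hnV⟩
    exact this hn1

/-- a maximal good filter -/
lemma exists_max : ∃ F : Filter ℕ, good F ∧ ∀ G : Filter ℕ, good G → G ≤ F → F ≤ G := by
  have := zorn_le_nonempty₀ (α := (Filter ℕ)ᵒᵈ) {F | good (OrderDual.ofDual F)} ?_
    (OrderDual.toDual F0) F0_good
  · obtain ⟨m, -, hm⟩ := this
    exact ⟨OrderDual.ofDual m, hm.prop, fun G hG hle => hm.le_of_ge (y := OrderDual.toDual G) hG hle⟩
  · intro c hc hchain y hy
    set S : Set (Filter ℕ) := OrderDual.ofDual '' c with hS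
    have hmemS : ∀ F ∈ S, good F := by
      rintro F ⟨z, hz, rfl⟩
      exact hc hz
    have hSne : S.Nonempty := ⟨_, y, hy, rfl⟩
    have hdir : DirectedOn (· ≥ ·) S := by
      rintro _ ⟨a, ha, rfl⟩ _ ⟨b, hb, rfl⟩
      rcases hchain.total ha hb with h | h
      · exact ⟨_, ⟨b, hb, rfl⟩, h, le_rfl⟩
      · exact ⟨_, ⟨a, ha, rfl⟩, le_rfl, h⟩
    refine ⟨OrderDual.toDual (sInf S), ?_, fun z hz => ?_⟩
    · obtain ⟨F₁, hF₁⟩ := hSne
      have hle : sInf S ≤ F₁ := sInf_le hF₁
      refine ⟨fun B hB => hle ((hmemS F₁ hF₁).1 B hB), fun p hp => hle ((hmemS F₁ hF₁).2.1 p hp),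
        fun p hp hmem => ?_⟩
      have hmem' : (AA p)ᶜ ∈ sInf S := hmem
      have hne : S.Nonempty := ⟨F₁, hF₁⟩
      rw [sInf_eq_iInf, mem_biInf_of_directed (f := fun F : Filter ℕ => F) hdir hne] at hmem'
      obtain ⟨F₂, hF₂, hmem₂⟩ := hmem'
      exact (hmemS F₂ hF₂).2.2 p hp hmem₂
    · have hzS : OrderDual.ofDual z ∈ S := ⟨z, hz, rfl⟩
      exact sInf_le hzS

/-- the Gaifman filter -/
noncomputable def FG : Filter ℕ := Classical.choose exists_max

lemma FG_good : good FG := (Classical.choose_spec exists_max).1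

lemma FG_min (G : Filter ℕ) (hG : good G) (h : G ≤ FG) : FG ≤ G :=
  (Classical.choose_spec exists_max).2 G hG h

/-- density -/
lemma dense {X : Set ℕ} (hX : X ∈ grill FG) : ∃ p, Adm p ∧ AA p \ X ∈ ideal FG := by
  by_contra hcon
  push Not at hcon
  apply hX
  show Xᶜ ∈ FG
  have hgood : good (FG ⊓ 𝓟 Xᶜ) := by
    refine ⟨fun B hB => mem_inf_of_left (FG_good.1 B hB),
      fun p hp => mem_inf_of_left (FG_good.2.1 p hp), fun p hp hmem => ?_⟩
    rw [mem_inf_principal] at hmem
    apply hcon p hp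
    show (AA p \ X)ᶜ ∈ FG
    filter_upwards [hmem] with n hn h
    exact hn h.2 h.1
  exact FG_min _ hgood inf_le_left (mem_inf_of_right (mem_principal_self _))

lemma FG_free : IsFree FG := by
  refine ⟨?_, FG_good.1⟩
  rw [neBot_iff]
  intro h
  have h1 : Adm ∅ := (adm_singleton 0).mono (Finset.empty_subset _)
  apply FG_good.2.2 ∅ h1
  rw [h]
  exact mem_bot

lemma FG_poor : Poor FG := by
  classical
  intro Γ X hX hXd
  have hex : ∀ γ, ∃ p, Adm p ∧ AA p \ X γ ∈ ideal FG := fun γ => dense (hX γ)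
  choose p hp1 hp2 using hex
  have hinj : Function.Injective (fun γ => typ (p γ)) := by
    intro γ γ' h
    by_contra hne
    have hadm := adm_union (hp1 γ) h
    apply FG_good.2.2 _ hadm
    rw [AA_union]
    have h1 : (AA (p γ) \ X γ)ᶜ ∈ FG := hp2 γ
    have h2 : (AA (p γ') \ X γ')ᶜ ∈ FG := hp2 γ'
    have h3 : (X γ ∩ X γ')ᶜ ∈ FG := hXd γ γ' hne
    filter_upwards [h1, h2, h3] with n g1 g2 g3 g4
    have : n ∈ X γ := by
      by_contra h; exact g1 ⟨g4.1, h⟩
    have : n ∈ X γ' := by
      by_contra h; exact g2 ⟨g4.2, h⟩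
    exact g3 ⟨by assumption, by assumption⟩
  exact hinj.countable

/-! ### statistical measures -/

section measure
variable {μ : Set ℕ → ℝ} (hμ : IsStatMeasure μ)
include hμ

lemma mu_empty : μ ∅ = 0 := by
  have := hμ.add ∅ ∅ (by simp)
  simp at this
  exact this

lemma mu_mono {X Y : Set ℕ} (h : X ⊆ Y) : μ X ≤ μ Y := by
  have h1 := hμ.add X (Y \ X) disjoint_sdiff_self_right
  rw [Set.union_sdiff_cancel h] at h1
  have := hμ.nonneg (Y \ X)
  linarith

lemma mu_compl (X : Set ℕ) : μ X + μ Xᶜ = 1 := by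
  rw [← hμ.add X Xᶜ disjoint_compl_right, union_compl_self, hμ.univ]

lemma mu_biUnion {ι : Type} [DecidableEq ι] (s : Finset ι) (B : ι → Set ℕ)
    (h : ∀ i ∈ s, ∀ j ∈ s, i ≠ j → Disjoint (B i) (B j)) :
    μ (⋃ i ∈ s, B i) = ∑ i ∈ s, μ (B i) := by
  induction s using Finset.induction_on with
  | empty => simpa using mu_empty hμ
  | insert a s ha ih =>
    rw [Finset.set_biUnion_insert, Finset.sum_insert ha, hμ.add, ih]
    · intro i hi j hj
      exact h i (Finset.mem_insert_of_mem hi) j (Finset.mem_insert_of_mem hj)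
    · rw [Set.disjoint_iUnion_right]
      intro i
      rw [Set.disjoint_iUnion_right]
      intro hi
      exact h a (Finset.mem_insert_self _ _) i (Finset.mem_insert_of_mem hi)
        (fun h' => ha (h' ▸ hi))

lemma sum_le (s : Finset ℕ) (B : ℕ → Set ℕ) (n : ℕ)
    (h : ∀ T ⊆ s, T.card = n + 2 → μ {x | ∀ j ∈ T, x ∈ B j} = 0) :
    ∑ j ∈ s, μ (B j) ≤ n + 1 := by
  classical
  set τ : ℕ → Finset ℕ := fun x => s.filter (fun j => x ∈ B j) with hτ
  have hB : ∀ j ∈ s, μ (B j) = ∑ T ∈ s.powerset, if j ∈ T then μ (τ ⁻¹' {T}) else 0 := by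
    intro j hj
    rw [← Finset.sum_filter, ← mu_biUnion hμ]
    · congr 1
      ext x
      simp only [mem_iUnion, Finset.mem_filter, Finset.mem_powerset, mem_preimage,
        mem_singleton_iff, exists_prop]
      constructor
      · intro hx
        exact ⟨τ x, ⟨Finset.filter_subset _ _, Finset.mem_filter.mpr ⟨hj, hx⟩⟩, rfl⟩
      · rintro ⟨T, ⟨-, hjT⟩, hT⟩
        rw [← hT] at hjT
        exact (Finset.mem_filter.mp hjT).2
    · intro T _ T' _ hne
      rw [Set.disjoint_left]
      intro x hx hx'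
      exact hne (hx.symm.trans hx')
  have htot : ∑ T ∈ s.powerset, μ (τ ⁻¹' {T}) = 1 := by
    rw [← mu_biUnion hμ, ← hμ.univ]
    · congr 1
      ext x
      simp only [mem_iUnion, Finset.mem_powerset, mem_preimage, mem_singleton_iff, exists_prop,
        Set.mem_univ, iff_true]
      exact ⟨τ x, Finset.filter_subset _ _, rfl⟩
    · intro T _ T' _ hne
      rw [Set.disjoint_left]
      intro x hx hx'
      exact hne (hx.symm.trans hx')
  rw [Finset.sum_congr rfl hB, Finset.sum_comm]
  have h1 : ∀ T ∈ s.powerset, (∑ j ∈ s, if j ∈ T then μ (τ ⁻¹' {T}) else 0)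
      ≤ (n + 1) * μ (τ ⁻¹' {T}) := by
    intro T hT
    rw [Finset.mem_powerset] at hT
    have e : (∑ j ∈ s, if j ∈ T then μ (τ ⁻¹' {T}) else 0) = T.card * μ (τ ⁻¹' {T}) := by
      rw [← Finset.sum_filter, Finset.sum_const, nsmul_eq_mul]
      congr 2
      rw [Finset.filter_mem_eq_inter, Finset.inter_eq_right.mpr hT]
    rw [e]
    by_cases hc : T.card ≤ n + 1
    · apply mul_le_mul_of_nonneg_right _ (hμ.nonneg _)
      exact_mod_cast hc
    · push Not at hc
      obtain ⟨T', hT'T, hT'c⟩ := Finset.exists_subset_card_eq (show n + 2 ≤ T.card by omega)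
      have h2 := h T' (hT'T.trans hT) hT'c
      have h3 : τ ⁻¹' {T} ⊆ {x | ∀ j ∈ T', x ∈ B j} := by
        intro x hx j hj
        have hx' : τ x = T := hx
        have : j ∈ τ x := by rw [hx']; exact hT'T hj
        exact (Finset.mem_filter.mp this).2
      have h4 : μ (τ ⁻¹' {T}) = 0 :=
        le_antisymm ((mu_mono hμ h3).trans h2.le) (hμ.nonneg _)
      rw [h4]; simp
  refine (Finset.sum_le_sum h1).trans ?_
  rw [← Finset.mul_sum, htot, mul_one]

end measure

lemma exists_large (a : ℚ) (M m : ℕ) : ∃ n, m < n ∧ (eN.symm n).1 = (a, M) := by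
  have hinj : Function.Injective (fun i : ℕ => eN ((a, M), i)) := by
    intro i j h
    exact (Prod.mk.inj (eN.injective h)).2
  obtain ⟨_, ⟨i, rfl⟩, hi⟩ := (Set.infinite_range_of_injective hinj).exists_gt m
  exact ⟨_, hi, by simp⟩

lemma FG_not_generated (μ : Set ℕ → ℝ) (hμ : IsStatMeasure μ) : ¬ GeneratedBy FG μ := by
  classical
  intro hgen
  have hnull : ∀ X : Set ℕ, Xᶜ ∈ FG ↔ μ X = 0 := by
    intro X
    rw [hgen]
    have := mu_compl hμ X
    constructor <;> intro h <;> linarith
  have hpos : ∀ x : ℝ, 0 < μ (A x) := by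
    intro x
    refine lt_of_le_of_ne (hμ.nonneg _) (fun h => ?_)
    apply FG_good.2.2 {x} (adm_singleton x)
    rw [hnull]
    have : AA {x} = A x := by ext n; simp [AA]
    rw [this, ← h]
  set E : ℕ → Set ℝ := fun m => {x | 1 / ((m : ℝ) + 1) ≤ μ (A x)} with hE
  obtain ⟨m, hm⟩ := nonempty_interior_of_iUnion_of_closed (f := fun m => closure (E m))
    (fun m => isClosed_closure) (by
      rw [eq_univ_iff_forall]
      intro x
      obtain ⟨m, hm⟩ := exists_nat_one_div_lt (hpos x)
      exact mem_iUnion.mpr ⟨m, subset_closure hm.le⟩)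
  obtain ⟨y, hy⟩ := hm
  obtain ⟨ε, hε, hball⟩ := Metric.isOpen_iff.mp isOpen_interior y hy
  obtain ⟨a, ha1, ha2⟩ := exists_rat_btwn (show y - ε < y by linarith)
  obtain ⟨M, hM⟩ := exists_nat_one_div_lt hε
  obtain ⟨n, hmn, hn⟩ := exists_large a M m
  have hlft : lft n = a := by unfold lft; rw [hn]
  have hinv : inv n = M + 1 := by unfold inv; rw [hn]
  have hinv0 : 0 < inv n := inv_pos' n
  have hKpos : (0:ℝ) < K n := by
    unfold K; push_cast; positivity
  have hsub : ∀ x, inI n x → x ∈ closure (E m) := by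
    rintro x ⟨h1, h2⟩
    apply interior_subset
    apply hball
    rw [Metric.mem_ball, Real.dist_eq, abs_lt]
    rw [hlft] at h1 h2
    rw [hinv] at h2
    constructor <;> linarith
  -- choose points
  have hpt : ∀ j : ℕ, ∃ x : ℝ, j < K n → x ∈ E m ∧ inI n x ∧ col n x = j := by
    intro j
    by_cases hj : j < K n
    swap
    · exact ⟨0, fun h => absurd h hj⟩
    have hjK : (j : ℝ) + 1 ≤ K n := by exact_mod_cast hj
    set U : Set ℝ := Ioo (lft n + j / (inv n * K n)) (lft n + (j + 1) / (inv n * K n)) with hU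
    have hIK : 0 < inv n * K n := by positivity
    have hUI : ∀ x ∈ U, inI n x ∧ col n x = j := by
      rintro x ⟨h1, h2⟩
      have h3 : (j : ℝ) / (inv n * K n) < x - lft n := by linarith
      have h4 : x - lft n < (j + 1) / (inv n * K n) := by linarith
      rw [div_lt_iff₀ hIK] at h3
      rw [lt_div_iff₀ hIK] at h4
      have h5 : (x - lft n) * inv n * K n = (x - lft n) * (inv n * K n) := by ring
      refine ⟨⟨?_, ?_⟩, ?_⟩
      · have : 0 ≤ (j : ℝ) / (inv n * K n) := by positivity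
        linarith
      · have h6 : (j + 1 : ℝ) / (inv n * K n) ≤ 1 / inv n := by
          rw [div_le_div_iff₀ hIK hinv0]
          nlinarith
        linarith
      · unfold col
        rw [h5, Nat.floor_eq_iff (by nlinarith [(Nat.cast_nonneg j : (0:ℝ) ≤ j)])]
        exact ⟨h3.le, h4⟩
    have hne : U.Nonempty := by
      apply nonempty_Ioo.mpr
      have : (j : ℝ) / (inv n * K n) < (j + 1) / (inv n * K n) :=
        div_lt_div_of_pos_right (by linarith) hIK
      linarith
    obtain ⟨c, hc⟩ := hne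
    have hcl := hsub c (hUI c hc).1
    rw [_root_.mem_closure_iff] at hcl
    obtain ⟨x, hxU, hxE⟩ := hcl U isOpen_Ioo hc
    exact ⟨x, fun _ => ⟨hxE, hUI x hxU⟩⟩
  choose x hx using hpt
  have hsum := sum_le hμ (Finset.range (K n)) (fun j => A (x j)) n (by
    intro T hT hTc
    have hTK : ∀ j ∈ T, j < K n := fun j hj => Finset.mem_range.mp (hT hj)
    rw [← hnull]
    have hnad : ¬ Adm (T.image x) := by
      intro hadm
      have h1 := hadm n
      have h2 : T ⊆ colors n (T.image x) := by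
        intro j hj
        unfold colors
        rw [Finset.mem_image]
        refine ⟨x j, Finset.mem_filter.mpr ⟨Finset.mem_image_of_mem _ hj, (hx j (hTK j hj)).2.1⟩,
          (hx j (hTK j hj)).2.2⟩
      have h3 := Finset.card_le_card h2
      omega
    have h4 := FG_good.2.1 _ hnad
    have h5 : {y | ∀ j ∈ T, y ∈ A (x j)} = AA (T.image x) := by
      ext y
      simp [AA]
    rw [h5]; exact h4)
  have hlow : (K n : ℝ) * (1 / ((m : ℝ) + 1)) ≤ ∑ j ∈ Finset.range (K n), μ (A (x j)) := by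
    have : (K n : ℝ) * (1 / ((m : ℝ) + 1)) = ∑ j ∈ Finset.range (K n), (1 / ((m : ℝ) + 1)) := by
      rw [Finset.sum_const, Finset.card_range, nsmul_eq_mul]
    rw [this]
    exact Finset.sum_le_sum fun j hj => (hx j (Finset.mem_range.mp hj)).1
  have h1 : (K n : ℝ) = ((n : ℝ) + 1) * ((n : ℝ) + 1) := by unfold K; push_cast; ring
  have h2 := hlow.trans hsum
  rw [h1, mul_one_div, div_le_iff₀ (by positivity)] at h2
  have h3 : (m : ℝ) + 1 ≤ n := by exact_mod_cast hmn
  have h4 : (0:ℝ) < (n : ℝ) + 1 := by positivity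
  nlinarith

end Q92.Gaifman
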