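import Mathlib
import Pool.Agent.Q92.Gaifman

/-!
# Conglomerated filters are not poor
-/

namespace Q92.Gaifman

open Set Filter Topology

open Classical in
/-- code of the initial segment of length `n` of `S` -/
noncomputable def seg (S : Set ℕ) (n : ℕ) : ℕ :=
  Encodable.encode (n, (Finset.range n).filter (· ∈ S))

lemma seg_inj (S : Set ℕ) : Function.Injective (seg S) := by
  intro m n h
  exact (Prod.mk.inj (Encodable.encode_injective h)).1

lemma seg_inter {S T : Set ℕ} (h : S ≠ T) : (range (seg S) ∩ range (seg T)).Finite := by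
  classical
  obtain ⟨i, hi⟩ : ∃ i, ¬ (i ∈ S ↔ i ∈ T) := by
    by_contra hcon
    push Not at hcon
    exact h (Set.ext hcon)
  refine ((Finset.range (i + 1)).image (seg S)).finite_toSet.subset ?_
  rintro _ ⟨⟨m, rfl⟩, ⟨n, hn⟩⟩
  have h1 := Prod.mk.inj (Encodable.encode_injective hn)
  obtain ⟨h2, h3⟩ := h1
  subst h2
  rw [Finset.mem_coe, Finset.mem_image]
  refine ⟨n, ?_, rfl⟩
  rw [Finset.mem_range]
  by_contra hlt
  apply hi
  have h4 : i ∈ Finset.range n := Finset.mem_range.mpr (by omega)
  have h5 : i ∈ (Finset.range n).filter (· ∈ T) ↔ i ∈ (Finset.range n).filter (· ∈ S) := by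
    rw [h3]
  simp only [Finset.mem_filter, h4, true_and] at h5
  exact h5.symm

/-- a conglomerated filter is not poor -/
theorem not_poor_of_conglomerated {F : Filter ℕ} (hF : Conglomerated F) : ¬ Poor F := by
  obtain ⟨D, hD, hdis, hM⟩ := hF
  intro hpoor
  have hc := hpoor (Set ℕ) (fun S => ⋃ n ∈ range (seg S), D n)
    (fun S => hM _ (Set.infinite_range_of_injective (seg_inj S))) (by
      intro S T hST
      have hfin := seg_inter hST
      have h1 : (⋂ n ∈ (range (seg S) ∩ range (seg T)), (D n)ᶜ) ∈ F := by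
        rw [Filter.biInter_mem hfin]
        intro n _
        exact hD n
      show ((⋃ n ∈ range (seg S), D n) ∩ ⋃ n ∈ range (seg T), D n)ᶜ ∈ F
      refine mem_of_superset h1 ?_
      intro k hk hk2
      obtain ⟨h2, h3⟩ := hk2
      simp only [mem_iUnion, exists_prop] at h2 h3
      obtain ⟨m, hm, hkm⟩ := h2
      obtain ⟨n, hn, hkn⟩ := h3
      have hmn : m = n := by
        by_contra hne
        exact Set.disjoint_left.mp (hdis m n hne) hkm hkn
      subst hmn
      have h4 := mem_iInter₂.mp hk m ⟨hm, hn⟩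
      exact h4 hkm)
  have : ∃ f : ℕ → Set ℕ, Function.Surjective f := exists_surjective_nat _
  obtain ⟨f, hf⟩ := this
  exact Function.cantor_surjective f hf

end Q92.Gaifman
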