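import Mathlib

/-!
# Domination of functionals on `C(X, E)` by measures
-/

namespace Q92.Domin

open MeasureTheory Filter Topology
open scoped NNReal CompactlySupported

variable {X : Type*} [TopologicalSpace X] [CompactSpace X]
variable {E : Type*} [NormedAddCommGroup E] [NormedSpace ℝ E]

/-- the values of `Λ` on the functions dominated by `u` -/
def vals (Λ : C(X, E) →L[ℝ] ℝ) (u : X → ℝ) : Set ℝ :=
  {r | ∃ g : C(X, E), (∀ x, ‖g x‖ ≤ u x) ∧ r = Λ g}

/-- the total variation functional -/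
noncomputable def tv (Λ : C(X, E) →L[ℝ] ℝ) (u : X → ℝ) : ℝ := sSup (vals Λ u)

variable (Λ : C(X, E) →L[ℝ] ℝ)

lemma vals_bdd {u : X → ℝ} (hu : Continuous u) : BddAbove (vals Λ u) := by
  obtain ⟨M, hM⟩ : ∃ M, ∀ x, u x ≤ M := by
    rcases isEmpty_or_nonempty X with h | h
    · exact ⟨0, fun x => h.elim x⟩
    · obtain ⟨x, -, hx⟩ := isCompact_univ.exists_isMaxOn Set.univ_nonempty hu.continuousOn
      exact ⟨u x, fun y => hx (Set.mem_univ y)⟩
  refine ⟨‖Λ‖ * max M 0, ?_⟩
  rintro r ⟨g, hg, rfl⟩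
  have h1 : ‖g‖ ≤ max M 0 := by
    rw [ContinuousMap.norm_le _ (le_max_right _ _)]
    exact fun x => (hg x).trans ((hM x).trans (le_max_left _ _))
  calc Λ g ≤ ‖Λ g‖ := le_abs_self _
    _ ≤ ‖Λ‖ * ‖g‖ := Λ.le_opNorm g
    _ ≤ _ := by gcongr

omit [CompactSpace X] in
lemma zero_mem_vals {u : X → ℝ} (hu : ∀ x, 0 ≤ u x) : (0 : ℝ) ∈ vals Λ u :=
  ⟨0, fun x => by simpa using hu x, by simp⟩

lemma tv_nonneg {u : X → ℝ} (hu : Continuous u) (hu0 : ∀ x, 0 ≤ u x) : 0 ≤ tv Λ u :=
  le_csSup (vals_bdd Λ hu) (zero_mem_vals Λ hu0)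

lemma le_tv {u : X → ℝ} (hu : Continuous u) {g : C(X, E)} (hg : ∀ x, ‖g x‖ ≤ u x) :
    Λ g ≤ tv Λ u := le_csSup (vals_bdd Λ hu) ⟨g, hg, rfl⟩

lemma abs_le_tv {u : X → ℝ} (hu : Continuous u) {g : C(X, E)} (hg : ∀ x, ‖g x‖ ≤ u x) :
    |Λ g| ≤ tv Λ u := by
  rw [abs_le]
  constructor
  · have := le_tv Λ hu (g := -g) (fun x => by simpa using hg x)
    rw [map_neg] at this
    linarith
  · exact le_tv Λ hu hg

omit [CompactSpace X] in
lemma tv_le {u : X → ℝ} (hu0 : ∀ x, 0 ≤ u x) {c : ℝ}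
    (h : ∀ g : C(X, E), (∀ x, ‖g x‖ ≤ u x) → Λ g ≤ c) : tv Λ u ≤ c := by
  apply csSup_le ⟨0, zero_mem_vals Λ hu0⟩
  rintro r ⟨g, hg, rfl⟩
  exact h g hg

lemma tv_add {u v : X → ℝ} (hu : Continuous u) (hv : Continuous v) (hu0 : ∀ x, 0 ≤ u x)
    (hv0 : ∀ x, 0 ≤ v x) : tv Λ (fun x => u x + v x) = tv Λ u + tv Λ v := by
  apply le_antisymm
  · apply tv_le Λ (fun x => add_nonneg (hu0 x) (hv0 x))
    intro g hg
    apply le_of_forall_pos_le_add
    intro η hη
    obtain ⟨ε, hε, hεη⟩ : ∃ ε : ℝ, 0 < ε ∧ ‖Λ‖ * ε ≤ η := by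
      refine ⟨η / (‖Λ‖ + 1), by positivity, ?_⟩
      rw [mul_div_assoc', div_le_iff₀ (by positivity)]
      nlinarith [norm_nonneg Λ]
    have hpos : ∀ x, 0 < u x + v x + ε := fun x => by
      have := hu0 x; have := hv0 x; linarith
    let g1 : C(X, E) := ⟨fun x => (u x / (u x + v x + ε)) • g x, by
      apply Continuous.smul _ g.continuous
      exact hu.div ((hu.add hv).add continuous_const) (fun x => (hpos x).ne')⟩
    let g2 : C(X, E) := ⟨fun x => (v x / (u x + v x + ε)) • g x, by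
      apply Continuous.smul _ g.continuous
      exact hv.div ((hu.add hv).add continuous_const) (fun x => (hpos x).ne')⟩
    have h1 : ∀ x, ‖g1 x‖ ≤ u x := by
      intro x
      change ‖(u x / (u x + v x + ε)) • g x‖ ≤ u x
      rw [norm_smul, Real.norm_eq_abs, abs_of_nonneg (div_nonneg (hu0 x) (hpos x).le),
        div_mul_eq_mul_div, div_le_iff₀ (hpos x)]
      have := hg x
      apply mul_le_mul_of_nonneg_left _ (hu0 x)
      linarith
    have h2 : ∀ x, ‖g2 x‖ ≤ v x := by
      intro x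
      change ‖(v x / (u x + v x + ε)) • g x‖ ≤ v x
      rw [norm_smul, Real.norm_eq_abs, abs_of_nonneg (div_nonneg (hv0 x) (hpos x).le),
        div_mul_eq_mul_div, div_le_iff₀ (hpos x)]
      have := hg x
      apply mul_le_mul_of_nonneg_left _ (hv0 x)
      linarith
    have h3 : ‖g - g1 - g2‖ ≤ ε := by
      rw [ContinuousMap.norm_le _ hε.le]
      intro x
      change ‖g x - (u x / (u x + v x + ε)) • g x - (v x / (u x + v x + ε)) • g x‖ ≤ ε
      have e1 : g x - (u x / (u x + v x + ε)) • g x - (v x / (u x + v x + ε)) • g x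
          = (ε / (u x + v x + ε)) • g x := by
        have : g x = (1 : ℝ) • g x := (one_smul _ _).symm
        conv_lhs => enter [1, 1]; rw [this]
        rw [← sub_smul, ← sub_smul]
        congr 1
        have := (hpos x).ne'
        field_simp
        ring
      rw [e1, norm_smul, Real.norm_eq_abs, abs_of_nonneg (div_nonneg hε.le (hpos x).le),
        div_mul_eq_mul_div, div_le_iff₀ (hpos x)]
      have := hg x
      apply mul_le_mul_of_nonneg_left _ hε.le
      linarith
    have h4 : Λ (g - g1 - g2) ≤ η := by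
      calc Λ (g - g1 - g2) ≤ ‖Λ (g - g1 - g2)‖ := le_abs_self _
        _ ≤ ‖Λ‖ * ‖g - g1 - g2‖ := Λ.le_opNorm _
        _ ≤ ‖Λ‖ * ε := by gcongr
        _ ≤ η := hεη
    rw [map_sub, map_sub] at h4
    have h5 := le_tv Λ hu h1
    have h6 := le_tv Λ hv h2
    linarith
  · have key : ∀ g1 : C(X, E), (∀ x, ‖g1 x‖ ≤ u x) →
        tv Λ v ≤ tv Λ (fun x => u x + v x) - Λ g1 := by
      intro g1 hg1
      apply tv_le Λ hv0
      intro g2 hg2
      have h1 := le_tv Λ (hu.add hv) (g := g1 + g2) (fun x =>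
        (norm_add_le _ _).trans (add_le_add (hg1 x) (hg2 x)))
      rw [map_add] at h1
      have h2 : tv Λ (u + v) = tv Λ (fun x => u x + v x) := rfl
      linarith
    have : tv Λ u ≤ tv Λ (fun x => u x + v x) - tv Λ v := by
      apply tv_le Λ hu0
      intro g1 hg1
      linarith [key g1 hg1]
    linarith

lemma tv_smul {u : X → ℝ} (hu : Continuous u) (hu0 : ∀ x, 0 ≤ u x) {c : ℝ} (hc : 0 ≤ c) :
    tv Λ (fun x => c * u x) = c * tv Λ u := by
  have key : ∀ (u : X → ℝ), Continuous u → (∀ x, 0 ≤ u x) → ∀ c : ℝ, 0 ≤ c →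
      c * tv Λ u ≤ tv Λ (fun x => c * u x) := by
    intro u hu hu0 c hc
    rcases hc.eq_or_lt with rfl | hc
    · rw [zero_mul]
      exact tv_nonneg Λ (continuous_const.mul hu) (fun x => by simp)
    · rw [← le_div_iff₀' hc]
      apply tv_le Λ hu0
      intro g hg
      rw [le_div_iff₀' hc]
      have := le_tv Λ (u := fun x => c * u x) (continuous_const.mul hu) (g := c • g) (fun x => by
        change ‖c • g x‖ ≤ _
        rw [norm_smul, Real.norm_eq_abs, abs_of_pos hc]
        exact mul_le_mul_of_nonneg_left (hg x) hc.le)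
      rwa [map_smul, smul_eq_mul] at this
  apply le_antisymm _ (key u hu hu0 c hc)
  rcases hc.eq_or_lt with rfl | hc
  · rw [zero_mul]
    apply tv_le Λ (fun x => by simp)
    intro g hg
    have : g = 0 := by
      ext x
      have := hg x
      rw [zero_mul] at this
      simpa using this
    rw [this, map_zero]
  · have h1 := key (fun x => c * u x) (continuous_const.mul hu)
      (fun x => mul_nonneg hc.le (hu0 x)) c⁻¹ (by positivity)
    have h2 : (fun x => c⁻¹ * (c * u x)) = u := by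
      funext x; field_simp
    rw [h2] at h1
    rwa [inv_mul_le_iff₀ hc] at h1

variable [T2Space X] [MeasurableSpace X] [BorelSpace X]

/-- the total variation functional as a positive linear functional -/
noncomputable def tvLin : C_c(X, ℝ≥0) →ₗ[ℝ≥0] ℝ≥0 where
  toFun u := ⟨tv Λ (fun x => (u x : ℝ)),
    tv_nonneg Λ (NNReal.continuous_coe.comp u.continuous) (fun x => (u x).2)⟩
  map_add' u v := by
    apply NNReal.eq
    have := tv_add Λ (u := fun x => (u x : ℝ)) (v := fun x => (v x : ℝ))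
      (NNReal.continuous_coe.comp u.continuous) (NNReal.continuous_coe.comp v.continuous)
      (fun x => (u x).2) (fun x => (v x).2)
    exact this
  map_smul' c u := by
    apply NNReal.eq
    have := tv_smul Λ (u := fun x => (u x : ℝ))
      (NNReal.continuous_coe.comp u.continuous) (fun x => (u x).2) c.2
    exact this

/-- Every functional on `C(X, E)` is dominated by a measure. -/
theorem exists_dominating : ∃ ν : Measure X, IsFiniteMeasure ν ∧ ν.Regular ∧
    (∀ g : C(X, E), |Λ g| ≤ ∫ x, ‖g x‖ ∂ν) := by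
  have hfin : IsFiniteMeasure (NNRealRMK.rieszMeasure (tvLin Λ)) := by
    infer_instance
  refine ⟨NNRealRMK.rieszMeasure (tvLin Λ), hfin, inferInstance, fun g => ?_⟩
  let u : C_c(X, ℝ≥0) := ⟨⟨fun x => ‖g x‖₊, continuous_nnnorm.comp g.continuous⟩,
    HasCompactSupport.of_compactSpace _⟩
  have h1 := NNRealRMK.integral_rieszMeasure (tvLin Λ) u
  have h2 : (fun x => ((u x : ℝ≥0) : ℝ)) = fun x => ‖g x‖ := by
    funext x; rfl
  rw [h2] at h1
  rw [h1]
  have h3 : ((tvLin Λ u : ℝ≥0) : ℝ) = tv Λ (fun x => ((u x : ℝ≥0) : ℝ)) := rfl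
  rw [h3, h2]
  exact abs_le_tv Λ (continuous_norm.comp g.continuous) (fun x => le_rfl)

/-- Decomposition of a real functional. -/
theorem exists_pair (L : C(X, ℝ) →L[ℝ] ℝ) : ∃ μ ν : Measure X,
    (IsFiniteMeasure μ ∧ μ.Regular) ∧ (IsFiniteMeasure ν ∧ ν.Regular) ∧
    ∀ g : C(X, ℝ), 2 * L g = ∫ x, g x ∂μ - ∫ x, g x ∂ν := by
  obtain ⟨κ, hκ, -, hdom⟩ := exists_dominating L
  have hint : ∀ g : C(X, ℝ), Integrable (fun x => g x) κ := fun g =>
    g.continuous.integrable_of_hasCompactSupport (HasCompactSupport.of_compactSpace _)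
  have hmon : ∀ (s : ℝ), |s| = 1 → ∀ f g : C(X, ℝ), (∀ x, f x ≤ g x) →
      ∫ x, f x ∂κ + s * L f ≤ ∫ x, g x ∂κ + s * L g := by
    intro s hs f g hfg
    have h1 := hdom (g - f)
    have h2 : ∫ x, ‖(g - f) x‖ ∂κ = ∫ x, g x ∂κ - ∫ x, f x ∂κ := by
      rw [← integral_sub (hint g) (hint f)]
      congr 1
      funext x
      rw [ContinuousMap.sub_apply, Real.norm_eq_abs, abs_of_nonneg (sub_nonneg.mpr (hfg x))]
    rw [h2, map_sub] at h1
    have h3 : |s * (L g - L f)| ≤ ∫ x, g x ∂κ - ∫ x, f x ∂κ := by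
      rw [abs_mul, hs, one_mul]; exact h1
    have h4 := neg_le_of_abs_le h3
    linarith
  let Φ : ℝ → C_c(X, ℝ) → ℝ := fun s g =>
    ∫ x, g.toContinuousMap x ∂κ + s * L g.toContinuousMap
  let Λs : ∀ s : ℝ, |s| = 1 → (C_c(X, ℝ) →ₚ[ℝ] ℝ) := fun s hs =>
    { toFun := Φ s
      map_add' := fun g g' => by
        change ∫ x, (g.toContinuousMap x + g'.toContinuousMap x) ∂κ
          + s * L (g.toContinuousMap + g'.toContinuousMap) = _
        rw [integral_add (hint g.toContinuousMap) (hint g'.toContinuousMap), map_add]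
        change _ = (∫ x, g.toContinuousMap x ∂κ + s * L g.toContinuousMap)
          + (∫ x, g'.toContinuousMap x ∂κ + s * L g'.toContinuousMap)
        ring
      map_smul' := fun c g => by
        change ∫ x, (c * g.toContinuousMap x) ∂κ + s * L (c • g.toContinuousMap) = c • _
        rw [integral_const_mul, map_smul]
        change _ = c • (∫ x, g.toContinuousMap x ∂κ + s * L g.toContinuousMap)
        simp only [smul_eq_mul]
        ring
      monotone' := fun f g hfg => hmon s hs f.toContinuousMap g.toContinuousMap hfg }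
  refine ⟨RealRMK.rieszMeasure (Λs 1 (by simp)), RealRMK.rieszMeasure (Λs (-1) (by simp)),
    ⟨inferInstance, inferInstance⟩, ⟨inferInstance, inferInstance⟩, fun g => ?_⟩
  let u : C_c(X, ℝ) := ⟨g, HasCompactSupport.of_compactSpace _⟩
  have h1 : ∫ x, g x ∂(RealRMK.rieszMeasure (Λs 1 (by simp))) = ∫ x, g x ∂κ + 1 * L g :=
    RealRMK.integral_rieszMeasure (Λs 1 (by simp)) u
  have h2 : ∫ x, g x ∂(RealRMK.rieszMeasure (Λs (-1) (by simp))) = ∫ x, g x ∂κ + (-1) * L g :=
    RealRMK.integral_rieszMeasure (Λs (-1) (by simp)) u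
  rw [h1, h2]
  ring

end Q92.Domin
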