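import Mathlib
import Pool.Agent.Q92.Rearr

/-!
# The planar series with two Levy vectors: scalar facts
-/

namespace Q92.LevySeq

open Finset Filter Topology

/-- the level of the `t`-th quadruple -/
def kap (t : ℕ) : ℕ := Nat.sqrt (Nat.log 2 (t + 1))

/-- `c_k` -/
noncomputable def c (k : ℕ) : ℝ := (1 / 2) ^ (k ^ 2)

/-- `d_k` -/
noncomputable def d (k : ℕ) : ℝ := (1 / 2) ^ k

/-- `x`-coordinates -/
noncomputable def sx (n : ℕ) : ℝ :=
  if n % 4 = 0 then c (kap (n / 4)) else if n % 4 = 2 then -c (kap (n / 4)) else 0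

/-- `y`-coordinates -/
noncomputable def sy (n : ℕ) : ℝ :=
  if n % 4 = 0 then d (kap (n / 4)) else if n % 4 = 1 then -d (kap (n / 4)) else
    if n % 4 = 2 then -d (kap (n / 4)) else d (kap (n / 4))

lemma c_pos (k : ℕ) : 0 < c k := by unfold c; positivity

lemma d_pos (k : ℕ) : 0 < d k := by unfold d; positivity

lemma kap_lt_iff (t k : ℕ) : kap t < k ↔ t + 1 < 2 ^ (k ^ 2) := by
  unfold kap
  rw [Nat.sqrt_lt', Nat.log_lt_iff_lt_pow (by norm_num) (by omega)]

lemma le_kap_iff (t k : ℕ) : k ≤ kap t ↔ 2 ^ (k ^ 2) ≤ t + 1 := by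
  have := kap_lt_iff t k
  omega

lemma kap_pow (t : ℕ) : 2 ^ (kap t ^ 2) ≤ t + 1 := (le_kap_iff t (kap t)).mp le_rfl

lemma kap_mono : Monotone kap := by
  intro s t hst
  rw [le_kap_iff]
  exact (kap_pow s).trans (by omega)

lemma kap_tendsto : Tendsto kap atTop atTop := by
  apply tendsto_atTop_atTop_of_monotone kap_mono
  intro k
  exact ⟨2 ^ (k ^ 2), by rw [le_kap_iff]; omega⟩

lemma c_ge (t : ℕ) : 1 / ((t : ℝ) + 1) ≤ c (kap t) := by
  unfold c
  rw [one_div_pow]
  apply one_div_le_one_div_of_le (by positivity)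
  exact_mod_cast kap_pow t

lemma d_ge_c (k : ℕ) : c k ≤ d k := by
  unfold c d
  apply pow_le_pow_of_le_one (by norm_num) (by norm_num)
  nlinarith

lemma d_ge (t : ℕ) : 1 / ((t : ℝ) + 1) ≤ d (kap t) := (c_ge t).trans (d_ge_c _)

lemma d_tendsto : Tendsto (fun t => d (kap t)) atTop (𝓝 0) :=
  (tendsto_pow_atTop_nhds_zero_of_lt_one (by norm_num) (by norm_num)).comp kap_tendsto

lemma c_tendsto : Tendsto (fun t => c (kap t)) atTop (𝓝 0) :=
  squeeze_zero (fun _ => (c_pos _).le) (fun _ => d_ge_c _) d_tendsto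

lemma abs_sx_le (n : ℕ) : |sx n| ≤ d (kap (n / 4)) := by
  have h1 := c_pos (kap (n / 4))
  have h2 := d_ge_c (kap (n / 4))
  unfold sx
  split_ifs
  · rw [abs_of_pos h1]; exact h2
  · rw [abs_neg, abs_of_pos h1]; exact h2
  · rw [abs_zero]; exact (d_pos _).le

lemma abs_sy (n : ℕ) : |sy n| = d (kap (n / 4)) := by
  have h1 := d_pos (kap (n / 4))
  unfold sy
  split_ifs
  · rw [abs_of_pos h1]
  · rw [abs_neg, abs_of_pos h1]
  · rw [abs_neg, abs_of_pos h1]
  · rw [abs_of_pos h1]

lemma d4_tendsto : Tendsto (fun n : ℕ => d (kap (n / 4))) atTop (𝓝 0) :=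
  d_tendsto.comp (Nat.tendsto_div_const_atTop (by norm_num))

lemma sx_tendsto : Tendsto sx atTop (𝓝 0) :=
  squeeze_zero_norm abs_sx_le d4_tendsto

lemma sy_tendsto : Tendsto sy atTop (𝓝 0) :=
  squeeze_zero_norm (fun n => (abs_sy n).le) d4_tendsto

/-- convergence along multiples of `m` suffices -/
lemma tendsto_of_mul {w : ℕ → ℝ} {s : ℝ} (m : ℕ) (hm : 0 < m) (hw : Tendsto w atTop (𝓝 0))
    (h : Tendsto (fun t => ∑ n ∈ range (m * t), w n) atTop (𝓝 s)) :
    Tendsto (fun N => ∑ n ∈ range N, w n) atTop (𝓝 s) := by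
  have h1 : ∀ N, ∑ n ∈ range N, w n =
      ∑ n ∈ range (m * (N / m)), w n + ∑ i ∈ range (N % m), w (m * (N / m) + i) := by
    intro N
    rw [← Finset.sum_range_add]
    congr 1
    rw [Nat.div_add_mod]
  have hdiv : Tendsto (fun N : ℕ => N / m) atTop atTop := Nat.tendsto_div_const_atTop hm.ne'
  have h2 : Tendsto (fun N => ∑ n ∈ range (m * (N / m)), w n) atTop (𝓝 s) := h.comp hdiv
  have h3 : Tendsto (fun N => ∑ i ∈ range (N % m), w (m * (N / m) + i)) atTop (𝓝 0) := by
    have h4 : Tendsto (fun N => ∑ i ∈ range m, |w (m * (N / m) + i)|) atTop (𝓝 0) := by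
      have : Tendsto (fun N => ∑ i ∈ range m, |w (m * (N / m) + i)|) atTop
          (𝓝 (∑ i ∈ range m, (0 : ℝ))) := by
        apply tendsto_finsetSum
        intro i _
        have h5 : Tendsto (fun N : ℕ => m * (N / m) + i) atTop atTop := by
          apply tendsto_atTop_mono _ hdiv
          intro N
          exact (Nat.le_mul_of_pos_left _ hm).trans (Nat.le_add_right _ _)
        have := (hw.comp h5).abs
        rw [abs_zero] at this
        exact this
      simpa using this
    apply squeeze_zero_norm _ h4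
    intro N
    rw [Real.norm_eq_abs]
    refine (Finset.abs_sum_le_sum_abs _ _).trans ?_
    apply Finset.sum_le_sum_of_subset_of_nonneg
    · intro i hi
      rw [mem_range] at hi ⊢
      exact hi.trans (Nat.mod_lt _ hm)
    · intro i _ _
      exact abs_nonneg _
  have := h2.add h3
  rw [add_zero] at this
  exact this.congr fun N => (h1 N).symm

/-- greedy selection -/
lemma greedy {w : ℕ → ℝ} (hw0 : ∀ n, 0 ≤ w n) (hw : Tendsto w atTop (𝓝 0))
    (hdiv : ¬ Summable w) {a : ℝ} (ha : 0 ≤ a) (J : ℕ) :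
    ∃ δ : ℕ → ℕ, (∀ n, δ n = 0 ∨ δ n = 1) ∧ (∀ n < J, δ n = 0) ∧
      Tendsto (fun N => ∑ n ∈ range N, (δ n : ℝ) * w n) atTop (𝓝 a) := by
  classical
  -- the greedy sums
  let S : ℕ → ℝ := fun n => Nat.rec 0 (fun n s => if J ≤ n ∧ s + w n ≤ a then s + w n else s) n
  have hS0 : S 0 = 0 := rfl
  have hS1 : ∀ n, S (n + 1) = if J ≤ n ∧ S n + w n ≤ a then S n + w n else S n := fun n => rfl
  let δ : ℕ → ℕ := fun n => if J ≤ n ∧ S n + w n ≤ a then 1 else 0
  have hSa : ∀ n, S n ≤ a := by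
    intro n
    induction n with
    | zero => rw [hS0]; exact ha
    | succ n ih =>
      rw [hS1]
      split_ifs with h
      · exact h.2
      · exact ih
  have hmono : Monotone S := by
    apply monotone_nat_of_le_succ
    intro n
    rw [hS1]
    split_ifs
    · linarith [hw0 n]
    · exact le_rfl
  have hsum : ∀ N, ∑ n ∈ range N, (δ n : ℝ) * w n = S N := by
    intro N
    induction N with
    | zero => simp [hS0]
    | succ N ih =>
      rw [sum_range_succ, ih, hS1]
      by_cases h : J ≤ N ∧ S N + w N ≤ a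
      · simp [δ, h]
      · simp [δ, h]
  refine ⟨δ, fun n => ?_, fun n hn => ?_, ?_⟩
  · by_cases h : J ≤ n ∧ S n + w n ≤ a
    · right; simp [δ, h]
    · left; simp only [δ, h, if_false]
  · have h : ¬ (J ≤ n ∧ S n + w n ≤ a) := fun h => absurd h.1 (not_le.mpr hn)
    simp only [δ, h, if_false]
  simp only [hsum]
  have hbdd : BddAbove (Set.range S) := ⟨a, by rintro _ ⟨n, rfl⟩; exact hSa n⟩
  have hlim := tendsto_atTop_ciSup hmono hbdd
  set s := ⨆ n, S n with hs
  have hsa : s ≤ a := ciSup_le hSa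
  rcases hsa.eq_or_lt with h | h
  · rwa [h] at hlim
  exfalso
  -- eventually everything is taken
  have h1 : ∀ᶠ n in atTop, w n < a - s := hw.eventually_lt_const (by linarith)
  obtain ⟨N, hN⟩ := (h1.and (eventually_ge_atTop J)).exists_forall_of_atTop
  have h2 : ∀ n, N ≤ n → S (n + 1) = S n + w n := by
    intro n hn
    rw [hS1, if_pos]
    refine ⟨(hN n hn).2, ?_⟩
    have := le_ciSup hbdd n
    have h3 := (hN n hn).1
    linarith
  apply hdiv
  rw [← summable_nat_add_iff N]
  apply summable_of_sum_range_le (c := a) (fun n => hw0 _)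
  intro n
  have h3 : ∑ i ∈ range n, w (i + N) = S (n + N) - S N := by
    induction n with
    | zero => simp
    | succ n ih =>
      rw [sum_range_succ, ih, show n + 1 + N = (n + N) + 1 by ring, h2 (n + N) (by omega)]
      ring
  rw [h3]
  have h4 := hSa (n + N)
  have h5 : 0 ≤ S N := by
    have := hmono (Nat.zero_le N)
    rwa [hS0] at this
  linarith

lemma not_summable_one_div (m r : ℕ) : ¬ Summable fun j : ℕ => 1 / (((m * j + r : ℕ) : ℝ) + 1) := by
  intro h
  have h1 : Summable fun j : ℕ => ((m + r + 1 : ℕ) : ℝ) * (1 / (((m * j + r : ℕ) : ℝ) + 1)) :=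
    h.mul_left _
  have h2 : Summable fun j : ℕ => 1 / ((j : ℝ) + 1) := by
    apply Summable.of_nonneg_of_le (fun j => by positivity) _ h1
    intro j
    rw [mul_one_div, div_le_div_iff₀ (by positivity) (by positivity), one_mul]
    push_cast
    have hj : (0 : ℝ) ≤ j := Nat.cast_nonneg j
    have hmm : (0 : ℝ) ≤ m := Nat.cast_nonneg m
    have hr : (0 : ℝ) ≤ r := Nat.cast_nonneg r
    nlinarith [mul_nonneg hr hj]
  have h3 : Summable fun j : ℕ => 1 / (((j + 1 : ℕ) : ℝ)) := by
    simpa using h2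
  exact Real.not_summable_one_div_natCast
    ((summable_nat_add_iff (f := fun j : ℕ => 1 / (j : ℝ)) 1).mp h3)

lemma not_summable_c (m r : ℕ) : ¬ Summable fun j : ℕ => c (kap (m * j + r)) := by
  intro h
  apply not_summable_one_div m r
  exact Summable.of_nonneg_of_le (fun j => by positivity) (fun j => c_ge _) h

lemma not_summable_d (m r : ℕ) : ¬ Summable fun j : ℕ => d (kap (m * j + r)) := by
  intro h
  apply not_summable_one_div m r
  exact Summable.of_nonneg_of_le (fun j => by positivity) (fun j => d_ge _) h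

lemma e (i j : ℕ) (hi : i < 8) : (8 * j + i) % 8 = i := by omega

lemma e' (i j : ℕ) (hi : i < 8) : (8 * j + i) / 8 = j := by omega

lemma e4 (j : ℕ) : (8 * j + 0) % 4 = 0 ∧ (8 * j + 1) % 4 = 1 ∧ (8 * j + 2) % 4 = 2 ∧
    (8 * j + 3) % 4 = 3 ∧ (8 * j + 4) % 4 = 0 ∧ (8 * j + 5) % 4 = 1 ∧
    (8 * j + 6) % 4 = 2 ∧ (8 * j + 7) % 4 = 3 := by omega

lemma e5 (j : ℕ) : (8 * j + 0) / 4 = 2 * j + 0 ∧ (8 * j + 1) / 4 = 2 * j + 0 ∧
    (8 * j + 2) / 4 = 2 * j + 0 ∧ (8 * j + 3) / 4 = 2 * j + 0 ∧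
    (8 * j + 4) / 4 = 2 * j + 1 ∧ (8 * j + 5) / 4 = 2 * j + 1 ∧
    (8 * j + 6) / 4 = 2 * j + 1 ∧ (8 * j + 7) / 4 = 2 * j + 1 := by omega

lemma sum8 (w : ℕ → ℝ) (t : ℕ) : ∑ n ∈ range (8 * t), w n
    = ∑ j ∈ range t, ∑ i ∈ range 8, w (8 * j + i) := by
  induction t with
  | zero => simp
  | succ t ih =>
    rw [sum_range_succ, ← ih, ← Finset.sum_range_add]
    rfl

/-- every point is the sum of a subseries using only late terms -/
lemma exists_sel (a b : ℝ) (J : ℕ) : ∃ ε : ℕ → ℕ, (∀ n, ε n = 0 ∨ ε n = 1) ∧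
    (∀ n < J, ε n = 0) ∧
    Tendsto (fun N => ∑ n ∈ range N, (ε n : ℝ) * sx n) atTop (𝓝 a) ∧
    Tendsto (fun N => ∑ n ∈ range N, (ε n : ℝ) * sy n) atTop (𝓝 b) := by
  classical
  have htc : ∀ r : ℕ, Tendsto (fun j : ℕ => 2 * j + r) atTop atTop := by
    intro r
    apply tendsto_atTop_mono _ tendsto_id
    intro j
    simp only [id_eq]
    omega
  obtain ⟨δ, hδ1, hδ2, hδ3⟩ := greedy (w := fun j => c (kap (2 * j + 0)))
    (fun j => (c_pos _).le) (c_tendsto.comp (htc 0)) (not_summable_c 2 0)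
    (abs_nonneg a) J
  obtain ⟨η, hη1, hη2, hη3⟩ := greedy (w := fun j => d (kap (2 * j + 1)))
    (fun j => (d_pos _).le) (d_tendsto.comp (htc 1)) (not_summable_d 2 1)
    (abs_nonneg b) J
  let ε : ℕ → ℕ := fun n =>
    if (n % 8 = 0 ∨ n % 8 = 1) ∧ 0 ≤ a then δ (n / 8)
    else if (n % 8 = 2 ∨ n % 8 = 3) ∧ a < 0 then δ (n / 8)
    else if n % 8 = 7 ∧ 0 ≤ b then η (n / 8)
    else if n % 8 = 5 ∧ b < 0 then η (n / 8) else 0
  have hε01 : ∀ n, ε n = 0 ∨ ε n = 1 := by
    intro n
    simp only [ε]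
    split_ifs
    · exact hδ1 _
    · exact hδ1 _
    · exact hη1 _
    · exact hη1 _
    · exact Or.inl rfl
  have hεabs : ∀ n (y : ℝ), ‖(ε n : ℝ) * y‖ ≤ ‖y‖ := by
    intro n y
    rcases hε01 n with h | h <;> rw [h] <;> simp
  refine ⟨ε, hε01, ?_, ?_, ?_⟩
  · intro n hn
    have h8 : n / 8 < J := lt_of_le_of_lt (Nat.div_le_self n 8) hn
    simp only [ε]
    split_ifs
    · exact hδ2 _ h8
    · exact hδ2 _ h8
    · exact hη2 _ h8
    · exact hη2 _ h8
    · rfl
  · apply tendsto_of_mul 8 (by norm_num)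
    · apply squeeze_zero_norm (fun n => hεabs n (sx n))
      simpa using sx_tendsto.norm
    · have key : ∀ j, ∑ i ∈ range 8, (ε (8 * j + i) : ℝ) * sx (8 * j + i)
          = (if 0 ≤ a then 1 else -1) * ((δ j : ℝ) * c (kap (2 * j + 0))) := by
        intro j
        simp only [sum_range_succ, sum_range_zero, ε, sx]
        obtain ⟨f0, f1, f2, f3, f4, f5, f6, f7⟩ := e4 j
        obtain ⟨g0, g1, g2, g3, g4, g5, g6, g7⟩ := e5 j
        rw [e 0 j (by norm_num), e 1 j (by norm_num), e 2 j (by norm_num), e 3 j (by norm_num),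
          e 4 j (by norm_num), e 5 j (by norm_num), e 6 j (by norm_num), e 7 j (by norm_num),
          e' 0 j (by norm_num), e' 1 j (by norm_num), e' 2 j (by norm_num),
          e' 3 j (by norm_num), e' 4 j (by norm_num), e' 5 j (by norm_num),
          e' 6 j (by norm_num), e' 7 j (by norm_num),
          f0, f1, f2, f3, f4, f5, f6, f7, g0, g1, g2, g3, g4, g5, g6, g7]
        rcases le_or_gt 0 a with h | h
        · simp [h, not_lt.mpr h]
        · simp [h, not_le.mpr h]
      have h8 : ∀ t, ∑ n ∈ range (8 * t), (ε n : ℝ) * sx n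
          = (if 0 ≤ a then 1 else -1) * ∑ j ∈ range t, (δ j : ℝ) * c (kap (2 * j + 0)) := by
        intro t
        rw [sum8, mul_sum]
        exact Finset.sum_congr rfl fun j _ => key j
      simp only [h8]
      have h9 : (if 0 ≤ a then (1 : ℝ) else -1) * |a| = a := by
        rcases le_or_gt 0 a with h | h
        · rw [if_pos h, abs_of_nonneg h, one_mul]
        · rw [if_neg (not_le.mpr h), abs_of_neg h]; ring
      have h10 := hδ3.const_mul (if 0 ≤ a then (1 : ℝ) else -1)
      rwa [h9] at h10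
  · apply tendsto_of_mul 8 (by norm_num)
    · apply squeeze_zero_norm (fun n => hεabs n (sy n))
      simpa using sy_tendsto.norm
    · have key : ∀ j, ∑ i ∈ range 8, (ε (8 * j + i) : ℝ) * sy (8 * j + i)
          = (if 0 ≤ b then 1 else -1) * ((η j : ℝ) * d (kap (2 * j + 1))) := by
        intro j
        simp only [sum_range_succ, sum_range_zero, ε, sy]
        obtain ⟨f0, f1, f2, f3, f4, f5, f6, f7⟩ := e4 j
        obtain ⟨g0, g1, g2, g3, g4, g5, g6, g7⟩ := e5 j
        rw [e 0 j (by norm_num), e 1 j (by norm_num), e 2 j (by norm_num), e 3 j (by norm_num),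
          e 4 j (by norm_num), e 5 j (by norm_num), e 6 j (by norm_num), e 7 j (by norm_num),
          e' 0 j (by norm_num), e' 1 j (by norm_num), e' 2 j (by norm_num),
          e' 3 j (by norm_num), e' 4 j (by norm_num), e' 5 j (by norm_num),
          e' 6 j (by norm_num), e' 7 j (by norm_num),
          f0, f1, f2, f3, f4, f5, f6, f7, g0, g1, g2, g3, g4, g5, g6, g7]
        rcases le_or_gt 0 a with h | h <;> rcases le_or_gt 0 b with h' | h'
        · simp [h, not_lt.mpr h, h', not_lt.mpr h']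
        · simp [h, not_lt.mpr h, h', not_le.mpr h']
        · simp [h, not_le.mpr h, h', not_lt.mpr h']
        · simp [h, not_le.mpr h, h', not_le.mpr h']
      have h8 : ∀ t, ∑ n ∈ range (8 * t), (ε n : ℝ) * sy n
          = (if 0 ≤ b then 1 else -1) * ∑ j ∈ range t, (η j : ℝ) * d (kap (2 * j + 1)) := by
        intro t
        rw [sum8, mul_sum]
        exact Finset.sum_congr rfl fun j _ => key j
      simp only [h8]
      have h9 : (if 0 ≤ b then (1 : ℝ) else -1) * |b| = b := by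
        rcases le_or_gt 0 b with h | h
        · rw [if_pos h, abs_of_nonneg h, one_mul]
        · rw [if_neg (not_le.mpr h), abs_of_neg h]; ring
      have h10 := hη3.const_mul (if 0 ≤ b then (1 : ℝ) else -1)
      rwa [h9] at h10

end Q92.LevySeq
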