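import Mathlib
import Pool.Agent.Q92.LevySeq

/-!
# The planar series with two Levy vectors: rearrangements
-/

namespace Q92.LevySeq

open Finset Filter Topology Q92.PermChain Q92.Rearr

lemma sum4 (w : ℕ → ℝ) (t : ℕ) : ∑ n ∈ range (4 * t), w n
    = ∑ j ∈ range t, ∑ i ∈ range 4, w (4 * j + i) := by
  induction t with
  | zero => simp
  | succ t ih =>
    rw [sum_range_succ, ← ih, ← Finset.sum_range_add]
    rfl

lemma q4 (j : ℕ) : (4 * j + 0) % 4 = 0 ∧ (4 * j + 1) % 4 = 1 ∧ (4 * j + 2) % 4 = 2 ∧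
    (4 * j + 3) % 4 = 3 ∧ (4 * j + 0) / 4 = j ∧ (4 * j + 1) / 4 = j ∧
    (4 * j + 2) / 4 = j ∧ (4 * j + 3) / 4 = j := by omega

lemma full_x : Tendsto (fun N => ∑ n ∈ range N, sx n) atTop (𝓝 0) := by
  apply tendsto_of_mul 4 (by norm_num) sx_tendsto
  have h : ∀ t, ∑ n ∈ range (4 * t), sx n = 0 := by
    intro t
    rw [sum4]
    apply Finset.sum_eq_zero
    intro j _
    obtain ⟨f0, f1, f2, f3, g0, g1, g2, g3⟩ := q4 j
    simp only [sum_range_succ, sum_range_zero, sx]
    rw [f0, f1, f2, f3, g0, g1, g2, g3]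
    simp
  simp only [h]
  exact tendsto_const_nhds

lemma full_y : Tendsto (fun N => ∑ n ∈ range N, sy n) atTop (𝓝 0) := by
  apply tendsto_of_mul 4 (by norm_num) sy_tendsto
  have h : ∀ t, ∑ n ∈ range (4 * t), sy n = 0 := by
    intro t
    rw [sum4]
    apply Finset.sum_eq_zero
    intro j _
    obtain ⟨f0, f1, f2, f3, g0, g1, g2, g3⟩ := q4 j
    simp only [sum_range_succ, sum_range_zero, sy]
    rw [f0, f1, f2, f3, g0, g1, g2, g3]
    simp
  simp only [h]
  exact tendsto_const_nhds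

/-- finite late sets with prescribed approximate sum -/
lemma exists_fin (a b : ℝ) (N : ℕ) {δ : ℝ} (hδ : 0 < δ) : ∃ N' : ℕ, ∃ E : Finset ℕ,
    N < N' ∧ (∀ n ∈ E, N ≤ n ∧ n < N') ∧ |∑ n ∈ E, sx n - a| < δ ∧ |∑ n ∈ E, sy n - b| < δ := by
  classical
  obtain ⟨ε, h1, h2, h3, h4⟩ := exists_sel a b N
  have e1 := (Metric.tendsto_atTop.mp h3) δ hδ
  have e2 := (Metric.tendsto_atTop.mp h4) δ hδ
  obtain ⟨N1, hN1⟩ := e1
  obtain ⟨N2, hN2⟩ := e2
  set N' := max (N + 1) (max N1 N2) with hN'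
  set E := (range N').filter (fun n => ε n = 1) with hE
  have hsum : ∀ w : ℕ → ℝ, ∑ n ∈ range N', (ε n : ℝ) * w n = ∑ n ∈ E, w n := by
    intro w
    rw [hE, Finset.sum_filter]
    apply Finset.sum_congr rfl
    intro n _
    rcases h1 n with h | h <;> simp [h]
  refine ⟨N', E, by omega, ?_, ?_, ?_⟩
  · intro n hn
    rw [hE, mem_filter, mem_range] at hn
    refine ⟨?_, hn.1⟩
    by_contra h
    push Not at h
    rw [h2 n h] at hn
    exact absurd hn.2 (by norm_num)
  · have := hN1 N' (by omega)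
    rwa [hsum, Real.dist_eq] at this
  · have := hN2 N' (by omega)
    rwa [hsum, Real.dist_eq] at this

/-- the sum range is the whole plane -/
theorem sr (a b : ℝ) : ∃ σ : Equiv.Perm ℕ,
    Tendsto (fun N => ∑ i ∈ range N, sx (σ i)) atTop (𝓝 a) ∧
    Tendsto (fun N => ∑ i ∈ range N, sy (σ i)) atTop (𝓝 b) := by
  classical
  choose g E hg hE hEx hEy using fun (p : ℕ × ℕ) => exists_fin (-a) (-b) p.1
    (δ := 1 / ((p.2 : ℝ) + 1)) (by positivity)
  let Nk : ℕ → ℕ := fun k => Nat.rec 0 (fun k N => g (N, k)) k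
  have hNk : ∀ k, Nk (k + 1) = g (Nk k, k) := fun k => rfl
  have hNlt : ∀ k, Nk k < Nk (k + 1) := fun k => by rw [hNk]; exact hg (Nk k, k)
  have hNmono : StrictMono Nk := strictMono_nat_of_lt_succ hNlt
  let F : ℕ → Finset ℕ := fun j => match j with
    | 0 => ∅
    | k + 1 => range (Nk (k + 1)) \ E (Nk k, k)
  have hF0 : F 0 = ∅ := rfl
  have hF1 : ∀ k, F (k + 1) = range (Nk (k + 1)) \ E (Nk k, k) := fun k => rfl
  have hsubE : ∀ k, range (Nk k) ⊆ F (k + 1) := by
    intro k n hn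
    rw [hF1, Finset.mem_sdiff, mem_range]
    rw [mem_range] at hn
    exact ⟨hn.trans (hNlt k), fun h => absurd (hE (Nk k, k) n h).1 (not_le.mpr hn)⟩
  have hsubR : ∀ k, F k ⊆ range (Nk k) := by
    intro k
    rcases k with _ | k
    · rw [hF0]; exact Finset.empty_subset _
    · rw [hF1]; exact Finset.sdiff_subset
  have hmono : ∀ j, F j ⊆ F (j + 1) := fun j => (hsubR j).trans (hsubE j)
  have hex : ∀ n, ∃ j, n ∈ F j := by
    intro n
    refine ⟨n + 1 + 1, hsubE (n + 1) ?_⟩
    rw [mem_range]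
    have := hNmono.le_apply (x := n + 1)
    omega
  let x : ℕ → Fin 2 → ℝ := fun n => ![sx n, sy n]
  have hx : Tendsto x atTop (𝓝 0) := by
    rw [tendsto_pi_nhds]
    intro i
    fin_cases i
    · exact sx_tendsto
    · exact sy_tendsto
  have hone : Tendsto (fun k : ℕ => 1 / ((k : ℝ) + 1)) atTop (𝓝 0) :=
    tendsto_one_div_add_atTop_nhds_zero_nat
  have hNlim : Tendsto (fun k => Nk (k + 1)) atTop atTop :=
    hNmono.tendsto_atTop.comp (tendsto_add_atTop_nat 1)
  have key : ∀ (w : ℕ → ℝ) (u : ℝ), Tendsto (fun N => ∑ n ∈ range N, w n) atTop (𝓝 0) →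
      (∀ k, |∑ n ∈ E (Nk k, k), w n - -u| < 1 / ((k : ℝ) + 1)) →
      Tendsto (fun j => ∑ n ∈ F j, w n) atTop (𝓝 u) := by
    intro w u hw hwE
    rw [← tendsto_add_atTop_iff_nat 1]
    have h1 : ∀ k, ∑ n ∈ F (k + 1), w n
        = ∑ n ∈ range (Nk (k + 1)), w n - ∑ n ∈ E (Nk k, k), w n := by
      intro k
      rw [hF1, eq_sub_iff_add_eq, Finset.sum_sdiff]
      intro n hn
      rw [mem_range]
      exact (hE (Nk k, k) n hn).2
    have h2 : Tendsto (fun k => ∑ n ∈ E (Nk k, k), w n - -u) atTop (𝓝 0) :=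
      squeeze_zero_norm (fun k => (hwE k).le) hone
    have h3 := (hw.comp hNlim).sub (h2.add_const (-u))
    rw [zero_add, zero_sub, neg_neg] at h3
    refine h3.congr fun k => ?_
    rw [h1 k]
    change ∑ n ∈ range (Nk (k + 1)), w n - (∑ n ∈ E (Nk k, k), w n - -u + -u) = _
    ring
  have hs : Tendsto (fun j => ∑ n ∈ F j, x n) atTop (𝓝 ![a, b]) := by
    rw [tendsto_pi_nhds]
    intro i
    simp only [Finset.sum_apply]
    fin_cases i
    · exact key sx a full_x (fun k => hEx (Nk k, k))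
    · exact key sy b full_y (fun k => hEy (Nk k, k))
  obtain ⟨σ, hσ⟩ := rearr x ![a, b] F hF0 hmono hex hx hs
  rw [tendsto_pi_nhds] at hσ
  refine ⟨σ, ?_, ?_⟩
  · have := hσ 0
    simp only [Finset.sum_apply] at this
    exact this
  · have := hσ 1
    simp only [Finset.sum_apply] at this
    exact this

/-- end points of the levels -/
def T (k : ℕ) : ℕ := 4 * (2 ^ (k ^ 2) - 1)

lemma T_mono : Monotone T := by
  apply monotone_nat_of_le_succ
  intro k
  unfold T
  have : 2 ^ (k ^ 2) ≤ 2 ^ ((k + 1) ^ 2) :=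
    Nat.pow_le_pow_right (by norm_num) (Nat.pow_le_pow_left (by omega) 2)
  omega

lemma kap_eq {k n : ℕ} (h1 : T k ≤ n) (h2 : n < T (k + 1)) : kap (n / 4) = k := by
  unfold T at h1 h2
  have e1 : 1 ≤ 2 ^ (k ^ 2) := Nat.one_le_two_pow
  have e2 : 1 ≤ 2 ^ ((k + 1) ^ 2) := Nat.one_le_two_pow
  have h3 : k ≤ kap (n / 4) := by rw [le_kap_iff]; omega
  have h4 : kap (n / 4) < k + 1 := by rw [kap_lt_iff]; omega
  omega

/-- A rearrangement for which `1/3` is not the abscissa of any sum of a subseries. -/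
theorem bad : ∃ σ : Equiv.Perm ℕ, ∀ ε : ℕ → ℕ, (∀ n, ε n = 0 ∨ ε n = 1) → ∀ y : ℝ,
    ¬ (Tendsto (fun N => ∑ i ∈ range N, (ε i : ℝ) * sx (σ i)) atTop (𝓝 (1 / 3)) ∧
      Tendsto (fun N => ∑ i ∈ range N, (ε i : ℝ) * sy (σ i)) atTop (𝓝 y)) := by
  classical
  let F : ℕ → Finset ℕ := fun j => if j % 2 = 0 then range (T (j / 2)) else
    range (T (j / 2)) ∪ (Ico (T (j / 2)) (T (j / 2 + 1))).filter (fun n => n % 2 = 0)
  have hFe : ∀ k, F (2 * k) = range (T k) := by
    intro k
    simp only [F]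
    rw [if_pos (by omega), show 2 * k / 2 = k by omega]
  have hFo : ∀ k, F (2 * k + 1) = range (T k) ∪
      (Ico (T k) (T (k + 1))).filter (fun n => n % 2 = 0) := by
    intro k
    simp only [F]
    rw [if_neg (by omega), show (2 * k + 1) / 2 = k by omega]
  have hF0 : F 0 = ∅ := by
    have := hFe 0
    simpa [T] using this
  have hmono : ∀ j, F j ⊆ F (j + 1) := by
    intro j
    rcases Nat.even_or_odd' j with ⟨k, rfl | rfl⟩
    · rw [hFe, hFo]; exact Finset.subset_union_left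
    · rw [hFo, show 2 * k + 1 + 1 = 2 * (k + 1) by ring, hFe]
      intro n hn
      rw [mem_union, mem_range, mem_filter, mem_Ico] at hn
      rw [mem_range]
      rcases hn with h | h
      · exact h.trans_le (T_mono (by omega))
      · exact h.1.2
  have hex : ∀ n, ∃ j, n ∈ F j := by
    intro n
    refine ⟨2 * (n + 1), ?_⟩
    rw [hFe, mem_range]
    unfold T
    have h1 : n + 1 < 2 ^ (n + 1) := Nat.lt_two_pow_self
    have h2 : 2 ^ (n + 1) ≤ 2 ^ ((n + 1) ^ 2) := Nat.pow_le_pow_right (by norm_num) (by nlinarith)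
    omega
  have hmono' : Monotone F := monotone_nat_of_le_succ hmono
  let e : ∀ j, Fin (B F j).card ≃ {n // n ∈ B F j} := fun j => (B F j).equivFin.symm
  obtain ⟨σ, hσ⟩ := exists_perm F hF0 hmono hex e
  have hσ' : ∀ j, (range (F j).card).image σ = F j := by
    intro j
    have := hσ j 0 (Nat.zero_le _)
    rw [add_zero] at this
    rw [this]
    simp
  refine ⟨σ, fun ε hε y => ?_⟩
  rintro ⟨hx, hy⟩
  -- the selection in the original order
  let η : ℕ → ℕ := fun n => ε (σ.symm n)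
  have hη : ∀ n, η n = 0 ∨ η n = 1 := fun n => hε _
  have hcard : Tendsto (fun j => (F j).card) atTop atTop := by
    apply tendsto_atTop_atTop_of_monotone (fun i j h => card_le_card (hmono' h))
    intro N
    refine ⟨2 * (N + 1), ?_⟩
    rw [hFe, card_range]
    unfold T
    have h1 : N + 1 < 2 ^ (N + 1) := Nat.lt_two_pow_self
    have h2 : 2 ^ (N + 1) ≤ 2 ^ ((N + 1) ^ 2) := Nat.pow_le_pow_right (by norm_num) (by nlinarith)
    omega
  have htrans : ∀ (w : ℕ → ℝ) j, ∑ i ∈ range (F j).card, (ε i : ℝ) * w (σ i)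
      = ∑ n ∈ F j, (η n : ℝ) * w n := by
    intro w j
    rw [← hσ' j, Finset.sum_image (fun a _ b _ h => σ.injective h), hσ' j]
    apply Finset.sum_congr rfl
    intro i _
    simp [η]
  have hX : Tendsto (fun j => ∑ n ∈ F j, (η n : ℝ) * sx n) atTop (𝓝 (1 / 3)) := by
    refine (hx.comp hcard).congr fun j => ?_
    exact htrans sx j
  have hY : Tendsto (fun j => ∑ n ∈ F j, (η n : ℝ) * sy n) atTop (𝓝 y) := by
    refine (hy.comp hcard).congr fun j => ?_
    exact htrans sy j
  -- the integers `m_k`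
  let m : ℕ → ℤ := fun k => ∑ n ∈ (Ico (T k) (T (k + 1))).filter (fun n => n % 2 = 0),
    (if n % 4 = 0 then (η n : ℤ) else -(η n : ℤ))
  have hblock : ∀ (w : ℕ → ℝ) k, ∑ n ∈ F (2 * k + 1), w n - ∑ n ∈ F (2 * k), w n
      = ∑ n ∈ (Ico (T k) (T (k + 1))).filter (fun n => n % 2 = 0), w n := by
    intro w k
    rw [hFe, hFo, Finset.sum_union]
    · ring
    · rw [Finset.disjoint_left]
      intro n hn hn'
      rw [mem_range] at hn
      rw [mem_filter, mem_Ico] at hn'
      omega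
  have hmx : ∀ k, ∑ n ∈ F (2 * k + 1), (η n : ℝ) * sx n - ∑ n ∈ F (2 * k), (η n : ℝ) * sx n
      = m k * c k := by
    intro k
    rw [hblock]
    simp only [m]
    push_cast
    rw [Finset.sum_mul]
    apply Finset.sum_congr rfl
    intro n hn
    rw [mem_filter, mem_Ico] at hn
    unfold sx
    rw [kap_eq hn.1.1 hn.1.2]
    have : n % 4 = 0 ∨ n % 4 = 2 := by omega
    rcases this with h | h <;> simp [h]
  have hmy : ∀ k, ∑ n ∈ F (2 * k + 1), (η n : ℝ) * sy n - ∑ n ∈ F (2 * k), (η n : ℝ) * sy n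
      = m k * d k := by
    intro k
    rw [hblock]
    simp only [m]
    push_cast
    rw [Finset.sum_mul]
    apply Finset.sum_congr rfl
    intro n hn
    rw [mem_filter, mem_Ico] at hn
    unfold sy
    rw [kap_eq hn.1.1 hn.1.2]
    have : n % 4 = 0 ∨ n % 4 = 2 := by omega
    rcases this with h | h <;> simp [h]
  -- abscissas at the ends of the levels
  let A : ℕ → ℝ := fun k => ∑ n ∈ F (2 * k), (η n : ℝ) * sx n
  have hA1 : ∀ k, A (k + 1) = A k + m k * c k := by
    intro k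
    have h1 : A (k + 1) = ∑ n ∈ F (2 * k + 1), (η n : ℝ) * sx n := by
      simp only [A]
      symm
      rw [show 2 * (k + 1) = (2 * k + 1) + 1 by ring]
      apply Finset.sum_subset (hmono _)
      intro n hn hn'
      rw [show (2 * k + 1) + 1 = 2 * (k + 1) by ring, hFe, mem_range] at hn
      rw [hFo, mem_union, mem_range, mem_filter, mem_Ico] at hn'
      have h2 : n % 2 ≠ 0 := by
        intro h
        apply hn'
        by_cases h3 : n < T k
        · exact Or.inl h3
        · exact Or.inr ⟨⟨by omega, hn⟩, h⟩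
      unfold sx
      rw [if_neg (by omega), if_neg (by omega), mul_zero]
    rw [h1]
    have := hmx k
    simp only [A]
    linarith
  have hint : ∀ j, ∃ z : ℤ, A (j + 1) = z * c j := by
    intro j
    induction j with
    | zero =>
      refine ⟨m 0, ?_⟩
      rw [hA1 0]
      have : A 0 = 0 := by
        simp only [A]
        rw [mul_zero, hF0]; simp
      rw [this, zero_add]
    | succ j ih =>
      obtain ⟨z, hz⟩ := ih
      refine ⟨z * 2 ^ (2 * j + 1) + m (j + 1), ?_⟩
      rw [hA1 (j + 1), hz]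
      have : c j = 2 ^ (2 * j + 1) * c (j + 1) := by
        have h2 : (2 : ℝ) ^ (2 * j + 1) * (1 / 2) ^ (2 * j + 1) = 1 := by
          rw [← mul_pow]; norm_num
        unfold c
        rw [show (j + 1) ^ 2 = j ^ 2 + (2 * j + 1) by ring, pow_add _ (j ^ 2)]
        calc ((1 : ℝ) / 2) ^ j ^ 2 = (1 / 2) ^ j ^ 2 * 1 := (mul_one _).symm
          _ = (1 / 2) ^ j ^ 2 * (2 ^ (2 * j + 1) * (1 / 2) ^ (2 * j + 1)) := by rw [h2]
          _ = _ := by ring
      rw [this]
      push_cast
      ring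
  have hAlim : Tendsto A atTop (𝓝 (1 / 3)) := by
    apply hX.comp
    apply tendsto_atTop_mono _ tendsto_id
    intro k
    simp only [id_eq]
    omega
  -- the `m_k` are eventually small
  have hmd : ∀ᶠ k in atTop, |(m k : ℝ) * d k| ≤ 1 := by
    have he : Tendsto (fun k : ℕ => 2 * k + 1) atTop atTop := by
      apply tendsto_atTop_mono _ tendsto_id
      intro k
      simp only [id_eq]
      omega
    have he' : Tendsto (fun k : ℕ => 2 * k) atTop atTop := by
      apply tendsto_atTop_mono _ tendsto_id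
      intro k
      simp only [id_eq]
      omega
    have h1 := ((hY.comp he).sub (hY.comp he')).abs
    rw [sub_self, abs_zero] at h1
    filter_upwards [h1.eventually_le_const (show (0 : ℝ) < 1 by norm_num)] with k hk
    rw [← hmy k]
    exact hk
  obtain ⟨K, hK⟩ := hmd.exists_forall_of_atTop
  have hstep : ∀ k, K ≤ k → |A (k + 1) - A k| ≤ c k / d k := by
    intro k hk
    rw [hA1 k, add_sub_cancel_left, abs_mul, abs_of_pos (c_pos k), le_div_iff₀ (d_pos k)]
    have h1 := hK k hk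
    rw [abs_mul, abs_of_pos (d_pos k)] at h1
    calc |(m k : ℝ)| * c k * d k = (|(m k : ℝ)| * d k) * c k := by ring
      _ ≤ 1 * c k := by
        apply mul_le_mul_of_nonneg_right h1 (c_pos k).le
      _ = c k := one_mul _
  have hratio : ∀ k, 1 ≤ k → 2 * (c (k + 1) / d (k + 1)) ≤ c k / d k := by
    intro k hk
    have h1 : c (k + 1) / d (k + 1) = (c k / d k) * (1 / 2) ^ (2 * k) := by
      have h3 : c (k + 1) = c k * ((1 / 2) ^ (2 * k) * (1 / 2)) := by
        unfold c
        rw [show (k + 1) ^ 2 = k ^ 2 + (2 * k + 1) by ring, pow_add _ (k ^ 2), pow_succ _ (2 * k)]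
      have h4 : d (k + 1) = d k * (1 / 2) := by
        unfold d
        rw [pow_succ]
      have h5 := d_pos k
      rw [h3, h4]
      field_simp
    have h2 : ((1 : ℝ) / 2) ^ (2 * k) ≤ (1 / 2) ^ 1 :=
      pow_le_pow_of_le_one (by norm_num) (by norm_num) (by omega)
    have h3 : 0 < c k / d k := div_pos (c_pos k) (d_pos k)
    rw [h1]
    nlinarith
  have htel : ∀ k, K ≤ k → 1 ≤ k → ∀ i, |A (k + i) - A k|
      ≤ 2 * (c k / d k) - 2 * (c (k + i) / d (k + i)) := by
    intro k hk hk1 i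
    induction i with
    | zero => simp
    | succ i ih =>
      have h1 := hstep (k + i) (by omega)
      have h2 := hratio (k + i) (by omega)
      have h3 : |A (k + (i + 1)) - A k| ≤ |A (k + i + 1) - A (k + i)| + |A (k + i) - A k| := by
        have := abs_add_le (A (k + i + 1) - A (k + i)) (A (k + i) - A k)
        rwa [sub_add_sub_cancel] at this
      have h4 : c (k + (i + 1)) / d (k + (i + 1)) = c (k + i + 1) / d (k + i + 1) := rfl
      rw [h4]
      linarith
  have hclose : ∀ k, K ≤ k → 1 ≤ k → |1 / 3 - A k| ≤ 2 * (c k / d k) := by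
    intro k hk hk1
    have h1 : Tendsto (fun i => |A (k + i) - A k|) atTop (𝓝 |1 / 3 - A k|) := by
      apply Tendsto.abs
      apply Tendsto.sub_const
      apply hAlim.comp
      apply tendsto_atTop_mono _ tendsto_id
      intro i
      simp only [id_eq]
      omega
    apply le_of_tendsto h1
    apply Eventually.of_forall
    intro i
    have := htel k hk hk1 i
    have h3 : 0 < c (k + i) / d (k + i) := div_pos (c_pos _) (d_pos _)
    linarith
  -- contradiction at a late level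
  set j := K + 3 with hj
  obtain ⟨z, hz⟩ := hint j
  have h1 := hclose (j + 1) (by omega) (by omega)
  rw [hz] at h1
  have h2 : c (j + 1) / d (j + 1) = c j * d j := by
    have h3 : c (j + 1) = c j * d j * d (j + 1) := by
      unfold c d
      rw [← pow_add, ← pow_add]
      congr 1
      ring
    have h5 := d_pos (j + 1)
    rw [h3, mul_div_assoc, div_self h5.ne', mul_one]
  rw [h2] at h1
  have h3 : d j ≤ 1 / 8 := by
    unfold d
    calc ((1 : ℝ) / 2) ^ j ≤ (1 / 2) ^ 3 :=
          pow_le_pow_of_le_one (by norm_num) (by norm_num) (by omega)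
      _ = 1 / 8 := by norm_num
  have h4 := c_pos j
  have h5 : |1 / 3 - (z : ℝ) * c j| ≤ c j / 4 := by
    refine h1.trans ?_
    nlinarith
  have h6 : c j * 2 ^ (j ^ 2) = 1 := by
    unfold c
    rw [← mul_pow]; norm_num
  have h7 : |(2 : ℝ) ^ (j ^ 2) - 3 * z| ≤ 3 / 4 := by
    have h8 : (2 : ℝ) ^ (j ^ 2) - 3 * z = 3 * 2 ^ (j ^ 2) * (1 / 3 - (z : ℝ) * c j) := by
      have : 3 * (2 : ℝ) ^ (j ^ 2) * (1 / 3 - (z : ℝ) * c j)
          = 2 ^ (j ^ 2) - 3 * z * (c j * 2 ^ (j ^ 2)) := by ring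
      rw [this, h6]; ring
    rw [h8, abs_mul, abs_of_pos (by positivity)]
    calc 3 * (2 : ℝ) ^ (j ^ 2) * |1 / 3 - (z : ℝ) * c j| ≤ 3 * 2 ^ (j ^ 2) * (c j / 4) := by
          gcongr
      _ = 3 / 4 * (c j * 2 ^ (j ^ 2)) := by ring
      _ = 3 / 4 := by rw [h6]; ring
  have h9 : |(2 : ℤ) ^ (j ^ 2) - 3 * z| < 1 := by
    have : ((|(2 : ℤ) ^ (j ^ 2) - 3 * z| : ℤ) : ℝ) < 1 := by
      push_cast
      linarith
    exact_mod_cast this
  have h10 : (2 : ℤ) ^ (j ^ 2) - 3 * z = 0 := Int.abs_lt_one_iff.mp h9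
  have h11 : (3 : ℤ) ∣ 2 ^ (j ^ 2) := ⟨z, by linarith⟩
  have h12 := Int.Prime.dvd_pow' (p := 3) (by norm_num) h11
  omega

end Q92.LevySeq
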