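import Mathlib

/-!
# The planar series `(-1)^n (1/n, 1/√n)`: the correction lemma
-/

namespace Q92.Planar

open Filter Topology

/-- the terms of the series -/
noncomputable def v (n : ℕ) : ℝ × ℝ := ((-1) ^ n / (n : ℝ), (-1) ^ n / Real.sqrt n)

/-- the achievement set of a planar series `∑_{n ≥ 1} w n` -/
def achievementSet (w : ℕ → ℝ × ℝ) : Set (ℝ × ℝ) :=
  {p | ∃ ε : ℕ → ℕ, (∀ n, ε n = 0 ∨ ε n = 1) ∧
    Tendsto (fun N : ℕ => ∑ n ∈ Finset.Icc 1 N, (ε n : ℝ) • w n) atTop (𝓝 p)}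

/-- sign-free coordinates -/
noncomputable def yv (m : ℕ) : ℝ := 1 / Real.sqrt m

noncomputable def xv (m : ℕ) : ℝ := 1 / (m : ℝ)

lemma v_even {m : ℕ} (h : m % 2 = 0) : v m = (xv m, yv m) := by
  have : (-1 : ℝ) ^ m = 1 := Even.neg_one_pow (Nat.even_iff.mpr h)
  simp [v, xv, yv, this]

lemma v_odd {m : ℕ} (h : m % 2 = 1) : v m = (-xv m, -yv m) := by
  have : (-1 : ℝ) ^ m = -1 := Odd.neg_one_pow (Nat.odd_iff.mpr h)
  simp [v, xv, yv, this, neg_div]

lemma yv_sq {m : ℕ} : yv m ^ 2 = xv m := by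
  unfold yv xv
  rw [div_pow, Real.sq_sqrt (Nat.cast_nonneg m)]; simp

lemma yv_nonneg (m : ℕ) : 0 ≤ yv m := by unfold yv; positivity

lemma xv_nonneg (m : ℕ) : 0 ≤ xv m := by unfold xv; positivity

lemma yv_anti {m n : ℕ} (hm : 0 < m) (h : m ≤ n) : yv n ≤ yv m := by
  unfold yv
  apply one_div_le_one_div_of_le
  · exact Real.sqrt_pos.mpr (by exact_mod_cast hm)
  · exact Real.sqrt_le_sqrt (by exact_mod_cast h)

lemma xv_anti {m n : ℕ} (hm : 0 < m) (h : m ≤ n) : xv n ≤ xv m := by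
  unfold xv
  exact one_div_le_one_div_of_le (by exact_mod_cast hm) (by exact_mod_cast h)

/-- rounding to a residue class -/
lemma round (K r : ℕ) (hr : r < 2 * K) (t : ℝ) (ht : 0 ≤ t) :
    ∃ m : ℕ, m % (2 * K) = r ∧ t ≤ m ∧ (m : ℝ) < t + 2 * K := by
  set a := ⌈t⌉₊ with ha
  have h1 : t ≤ a := Nat.le_ceil t
  have h2 : (a : ℝ) < t + 1 := Nat.ceil_lt_add_one ht
  have hK : 0 < 2 * K := by omega
  refine ⟨a + (r + (2 * K - a % (2 * K))) % (2 * K), ?_, ?_, ?_⟩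
  · have h3 : a % (2 * K) < 2 * K := Nat.mod_lt _ hK
    have h4 : (a + (r + (2 * K - a % (2 * K))) % (2 * K)) % (2 * K)
        = (a % (2 * K) + (r + (2 * K - a % (2 * K)))) % (2 * K) := by
      conv_lhs => rw [Nat.add_mod, Nat.mod_mod]
      conv_rhs => rw [Nat.add_mod, Nat.mod_mod]
    rw [h4]
    have h5 : a % (2 * K) + (r + (2 * K - a % (2 * K))) = r + 2 * K := by omega
    rw [h5, Nat.add_mod_right, Nat.mod_eq_of_lt hr]
  · push_cast
    have : (0:ℝ) ≤ ((r + (2 * K - a % (2 * K))) % (2 * K) : ℕ) := Nat.cast_nonneg _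
    linarith
  · have h6 : (r + (2 * K - a % (2 * K))) % (2 * K) + 1 ≤ 2 * K := Nat.mod_lt _ hK
    have h7 : (((r + (2 * K - a % (2 * K))) % (2 * K) : ℕ) : ℝ) + 1 ≤ 2 * K := by
      exact_mod_cast h6
    push_cast
    linarith

/-- the error of rounding -/
lemma round_err {K : ℕ} {u : ℝ} (hu : 0 < u) {m : ℕ} (h1 : 1 / u ^ 2 ≤ m)
    (h2 : (m : ℝ) < 1 / u ^ 2 + 2 * K) :
    |xv m - u ^ 2| ≤ 2 * K * u ^ 4 ∧ |yv m - u| ≤ 2 * K * u ^ 3 := by
  have hu2 : 0 < u ^ 2 := by positivity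
  have hm : (0:ℝ) < m := lt_of_lt_of_le (by positivity) h1
  have hxle : xv m ≤ u ^ 2 := by
    unfold xv
    rw [div_le_iff₀ hm]
    rw [div_le_iff₀ hu2] at h1
    linarith
  have hx0 : 0 < xv m := by unfold xv; positivity
  have hxerr : u ^ 2 - xv m ≤ 2 * K * u ^ 4 := by
    have e : u ^ 2 - xv m = (m - 1 / u ^ 2) * (u ^ 2 * xv m) := by
      unfold xv; field_simp
    rw [e]
    have h3 : (m : ℝ) - 1 / u ^ 2 ≤ 2 * K := by linarith
    have h4 : 0 ≤ (m : ℝ) - 1 / u ^ 2 := by linarith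
    calc ((m : ℝ) - 1 / u ^ 2) * (u ^ 2 * xv m) ≤ (2 * K) * (u ^ 2 * u ^ 2) := by
          apply mul_le_mul h3 _ (by positivity) (by positivity)
          exact mul_le_mul_of_nonneg_left hxle hu2.le
      _ = 2 * K * u ^ 4 := by ring
  have hyle : yv m ≤ u := by
    have : yv m ^ 2 ≤ u ^ 2 := by rw [yv_sq]; exact hxle
    exact (pow_le_pow_iff_left₀ (yv_nonneg m) hu.le (by norm_num)).mp this
  have hyerr : u - yv m ≤ 2 * K * u ^ 3 := by
    have h3 : (u - yv m) * u ≤ (u - yv m) * (u + yv m) :=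
      mul_le_mul_of_nonneg_left (by linarith [yv_nonneg m]) (by linarith)
    have h4 : (u - yv m) * (u + yv m) = u ^ 2 - xv m := by rw [← yv_sq]; ring
    have h5 : (u - yv m) * u ≤ (2 * K * u ^ 3) * u := by
      rw [h4] at h3
      calc (u - yv m) * u ≤ u ^ 2 - xv m := h3
        _ ≤ 2 * K * u ^ 4 := hxerr
        _ = (2 * K * u ^ 3) * u := by ring
    exact le_of_mul_le_mul_right h5 hu
  constructor
  · rw [abs_sub_comm, abs_of_nonneg (by linarith)]; exact hxerr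
  · rw [abs_sub_comm, abs_of_nonneg (by linarith)]; exact hyerr

/-- the box at scale `n` -/
def Box (K : ℝ) (n : ℕ) (ρ : ℝ × ℝ) : Prop := |ρ.1| ≤ K / 40 * xv n ∧ |ρ.2| ≤ K / 40 * yv n

lemma inv_sq_bounds {n : ℕ} (hn : 0 < n) {u lo hi A B : ℝ} (hlo : 0 < lo)
    (h1 : lo * yv n ≤ u) (h2 : u ≤ hi * yv n) (hA : A * hi ^ 2 = 1) (hB : B * lo ^ 2 = 1) :
    A * n ≤ 1 / u ^ 2 ∧ 1 / u ^ 2 ≤ B * n := by
  have hn' : (0:ℝ) < n := by exact_mod_cast hn
  have hy : 0 < yv n := by unfold yv; positivity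
  have hu : 0 < u := lt_of_lt_of_le (by positivity) h1
  have hA0 : 0 < A := by
    by_contra h
    push Not at h
    have : A * hi ^ 2 ≤ 0 := mul_nonpos_of_nonpos_of_nonneg h (sq_nonneg _)
    linarith
  have hB0 : 0 < B := by
    by_contra h
    push Not at h
    have : B * lo ^ 2 ≤ 0 := mul_nonpos_of_nonpos_of_nonneg h (sq_nonneg _)
    linarith
  have hy2 : yv n ^ 2 * n = 1 := by
    rw [yv_sq]; unfold xv; field_simp
  have e1 : u ^ 2 ≤ hi ^ 2 * yv n ^ 2 := by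
    rw [← mul_pow]; exact pow_le_pow_left₀ hu.le h2 2
  have e2 : lo ^ 2 * yv n ^ 2 ≤ u ^ 2 := by
    rw [← mul_pow]; exact pow_le_pow_left₀ (by positivity) h1 2
  constructor
  · rw [le_div_iff₀ (by positivity)]
    calc A * (n : ℝ) * u ^ 2 ≤ A * n * (hi ^ 2 * yv n ^ 2) :=
          mul_le_mul_of_nonneg_left e1 (by positivity)
      _ = (A * hi ^ 2) * (yv n ^ 2 * n) := by ring
      _ = 1 := by rw [hy2, hA]; ring
  · rw [div_le_iff₀ (by positivity)]
    calc (1:ℝ) = (B * lo ^ 2) * (yv n ^ 2 * n) := by rw [hy2, hB]; ring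
      _ = B * n * (lo ^ 2 * yv n ^ 2) := by ring
      _ ≤ B * n * u ^ 2 := mul_le_mul_of_nonneg_left e2 (by positivity)

/-- the correction inside one block -/
lemma block (K : ℕ) (hK : 1 ≤ K) (n : ℕ) (hn : 2000 * K ^ 2 ≤ n) (ρ : ℝ × ℝ) (hρ : Box K n ρ) :
    ∃ S : Finset ℕ, (∀ m ∈ S, n ≤ m ∧ m < 8 * n) ∧ S.card ≤ 4 * K ∧
      Box 1 (8 * n) (ρ - ∑ m ∈ S, v m) := by
  classical
  have hKR : (1:ℝ) ≤ K := by exact_mod_cast hK
  have hK2 : K ≤ K ^ 2 := Nat.le_self_pow (by norm_num) K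
  have hnpos : 0 < n := by nlinarith
  have hnR : (0:ℝ) < n := by exact_mod_cast hnpos
  have hnK : (2000:ℝ) * K ^ 2 ≤ n := by exact_mod_cast hn
  have hnK1 : (2000:ℝ) * K ≤ n := by nlinarith
  set s := yv n with hs
  have hs0 : 0 < s := by rw [hs]; unfold yv; positivity
  have hs2 : s ^ 2 = xv n := yv_sq
  have hs2n : s ^ 2 * n = 1 := by rw [hs2]; unfold xv; field_simp
  obtain ⟨hρ1, hρ2⟩ := hρ
  set X := ρ.1 / K with hX
  set Y := ρ.2 / K with hY
  have hXb : |X| ≤ s ^ 2 / 40 := by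
    rw [hX, abs_div, abs_of_pos (show (0:ℝ) < K by linarith), div_le_iff₀ (by linarith), hs2]
    linarith
  have hYb : |Y| ≤ s / 40 := by
    rw [hY, abs_div, abs_of_pos (show (0:ℝ) < K by linarith), div_le_iff₀ (by linarith)]
    linarith
  set Z := X / s with hZ
  have hZb : |Z| ≤ s / 40 := by
    rw [hZ, abs_div, abs_of_pos hs0, div_le_iff₀ hs0]
    linarith
  have hZs : Z * s = X := by rw [hZ]; field_simp
  rw [abs_le] at hYb hZb
  set δ₁ := 2 * (Z - Y) with hδ₁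
  set δ₂ := 3 * Y - 2 * Z with hδ₂
  set U : Fin 4 → ℝ := ![(3 / 2 * s + δ₁) / 2, (s + δ₂) / 2, (3 / 2 * s - δ₁) / 2, (s - δ₂) / 2]
    with hU
  have hU0 : 7 / 10 * s ≤ U 0 ∧ U 0 ≤ 8 / 10 * s := by
    simp [hU]; constructor <;> linarith
  have hU1 : 7 / 16 * s ≤ U 1 ∧ U 1 ≤ 9 / 16 * s := by
    simp [hU]; constructor <;> linarith
  have hU2 : 7 / 10 * s ≤ U 2 ∧ U 2 ≤ 8 / 10 * s := by
    simp [hU]; constructor <;> linarith
  have hU3 : 7 / 16 * s ≤ U 3 ∧ U 3 ≤ 9 / 16 * s := by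
    simp [hU]; constructor <;> linarith
  have hUb : ∀ t, 7 / 16 * s ≤ U t ∧ U t ≤ 8 / 10 * s := by
    intro t
    have k0 : 7 / 16 * s ≤ U 0 := by linarith [hU0.1]
    have k1 : U 1 ≤ 8 / 10 * s := by linarith [hU1.2]
    have k2 : 7 / 16 * s ≤ U 2 := by linarith [hU2.1]
    have k3 : U 3 ≤ 8 / 10 * s := by linarith [hU3.2]
    fin_cases t
    · exact ⟨k0, hU0.2⟩
    · exact ⟨hU1.1, k1⟩
    · exact ⟨k2, hU2.2⟩
    · exact ⟨hU3.1, k3⟩
  have hUpos : ∀ t, 0 < U t := fun t => lt_of_lt_of_le (by positivity) (hUb t).1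
  let par : Fin 4 → ℕ := ![0, 0, 1, 1]
  have hpar : ∀ t, par t < 2 := by intro t; fin_cases t <;> simp [par]
  have hround : ∀ p : Fin K × Fin 4, ∃ m : ℕ, m % (2 * K) = 2 * p.1.val + par p.2 ∧
      1 / (U p.2) ^ 2 ≤ m ∧ (m : ℝ) < 1 / (U p.2) ^ 2 + 2 * K := by
    intro p
    apply round
    · have := p.1.2
      have := hpar p.2
      omega
    · positivity
  choose M hM1 hM2 hM3 using hround
  have b0 := inv_sq_bounds (A := 25 / 16) (B := 100 / 49) hnpos (by norm_num) hU0.1 hU0.2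
    (by norm_num) (by norm_num)
  have b1 := inv_sq_bounds (A := 256 / 81) (B := 256 / 49) hnpos (by norm_num) hU1.1 hU1.2
    (by norm_num) (by norm_num)
  have b2 := inv_sq_bounds (A := 25 / 16) (B := 100 / 49) hnpos (by norm_num) hU2.1 hU2.2
    (by norm_num) (by norm_num)
  have b3 := inv_sq_bounds (A := 256 / 81) (B := 256 / 49) hnpos (by norm_num) hU3.1 hU3.2
    (by norm_num) (by norm_num)
  have hinj : Function.Injective M := by
    rintro ⟨q, t⟩ ⟨q', t'⟩ h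
    have h1 := hM1 (q, t)
    have h1' := hM1 (q', t')
    rw [h] at h1
    have h2 : 2 * q.val + par t = 2 * q'.val + par t' := h1.symm.trans h1'
    have h3 := hpar t
    have h4 := hpar t'
    have hq : q = q' := by ext; omega
    have hp : par t = par t' := by omega
    subst hq
    have key : ∀ t t' : Fin 4, M (q, t) = M (q, t') → par t = par t' → t.val < t'.val → False := by
      intro t t' h hp hlt
      have c1 := hM3 (q, t)
      have c2 := hM2 (q, t')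
      rw [h] at c1
      fin_cases t <;> fin_cases t' <;> simp [par] at hp hlt
      · have e1 : (M (q, 1) : ℝ) < 1 / (U 0) ^ 2 + 2 * K := c1
        have e2 : 1 / (U 1) ^ 2 ≤ (M (q, 1) : ℝ) := c2
        linarith [b0.2, b1.1]
      · have e1 : (M (q, 3) : ℝ) < 1 / (U 2) ^ 2 + 2 * K := c1
        have e2 : 1 / (U 3) ^ 2 ≤ (M (q, 3) : ℝ) := c2
        linarith [b2.2, b3.1]
    rcases lt_trichotomy t.val t'.val with hlt | heq | hgt
    · exact absurd (key t t' h hp hlt) id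
    · rw [show t = t' from Fin.ext heq]
    · exact absurd (key t' t h.symm hp.symm hgt) id
  have hrange : ∀ p, n ≤ M p ∧ M p < 8 * n := by
    intro p
    have c1 := hM3 p
    have c2 := hM2 p
    have c3 := inv_sq_bounds (A := 25 / 16) (B := 256 / 49) hnpos (by norm_num) (hUb p.2).1
      (hUb p.2).2 (by norm_num) (by norm_num)
    have c4 : ((M p : ℕ) : ℝ) < 8 * n := by linarith [c3.2]
    have c5 : (n : ℝ) ≤ M p := by linarith [c3.1]
    exact ⟨by exact_mod_cast c5, by exact_mod_cast c4⟩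
  -- errors
  have herr : ∀ p : Fin K × Fin 4, |xv (M p) - (U p.2) ^ 2| ≤ 2 * K * (4 / 10 * s ^ 4 * (103 / 100)) ∧
      |yv (M p) - U p.2| ≤ 2 * K * (52 / 100 * s ^ 3) := by
    intro p
    obtain ⟨e1, e2⟩ := round_err (hUpos p.2) (hM2 p) (hM3 p)
    have h8 := (hUb p.2).2
    have h4 : (U p.2) ^ 4 ≤ (8 / 10 * s) ^ 4 := pow_le_pow_left₀ (hUpos p.2).le h8 4
    have h3 : (U p.2) ^ 3 ≤ (8 / 10 * s) ^ 3 := pow_le_pow_left₀ (hUpos p.2).le h8 3
    have hs4 : 0 < s ^ 4 := by positivity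
    have hs3 : 0 < s ^ 3 := by positivity
    constructor
    · refine e1.trans (mul_le_mul_of_nonneg_left (h4.trans ?_) (by positivity))
      nlinarith
    · refine e2.trans (mul_le_mul_of_nonneg_left (h3.trans ?_) (by positivity))
      nlinarith
  have hv : ∀ p : Fin K × Fin 4, v (M p)
      = if par p.2 = 0 then (xv (M p), yv (M p)) else (-xv (M p), -yv (M p)) := by
    intro p
    have h1 := hM1 p
    have h2 : M p % 2 = par p.2 := by
      have h3 : M p % (2 * K) % 2 = M p % 2 := Nat.mod_mod_of_dvd _ (Dvd.intro K rfl)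
      rw [← h3, h1]
      have := hpar p.2
      omega
    split_ifs with h
    · exact v_even (by rw [h2, h])
    · have := hpar p.2
      exact v_odd (by omega)
  have hsum : ∀ q : Fin K,
      |X - (∑ t : Fin 4, v (M (q, t))).1| ≤ 4 * (2 * K * (4 / 10 * s ^ 4 * (103 / 100))) ∧
      |Y - (∑ t : Fin 4, v (M (q, t))).2| ≤ 4 * (2 * K * (52 / 100 * s ^ 3)) := by
    intro q
    rw [Fin.sum_univ_four]
    have f0 := hv (q, 0)
    have f1 := hv (q, 1)
    have f2 := hv (q, 2)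
    have f3 := hv (q, 3)
    simp [par] at f0 f1 f2 f3
    rw [f0, f1, f2, f3]
    simp only [Prod.fst_add, Prod.snd_add]
    have g0 := herr (q, 0)
    have g1 := herr (q, 1)
    have g2 := herr (q, 2)
    have g3 := herr (q, 3)
    have x1 : X = (U 0) ^ 2 + (U 1) ^ 2 - (U 2) ^ 2 - (U 3) ^ 2 := by
      simp [hU]
      rw [← hZs, hδ₁, hδ₂]; ring
    have y1 : Y = U 0 + U 1 - U 2 - U 3 := by
      simp [hU]
      rw [hδ₁, hδ₂]; ring
    simp only at g0 g1 g2 g3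
    simp only [abs_le] at g0 g1 g2 g3 ⊢
    refine ⟨⟨?_, ?_⟩, ⟨?_, ?_⟩⟩
    · rw [x1]; linarith [g0.1.1, g0.1.2, g1.1.1, g1.1.2, g2.1.1, g2.1.2, g3.1.1, g3.1.2]
    · rw [x1]; linarith [g0.1.1, g0.1.2, g1.1.1, g1.1.2, g2.1.1, g2.1.2, g3.1.1, g3.1.2]
    · rw [y1]; linarith [g0.2.1, g0.2.2, g1.2.1, g1.2.2, g2.2.1, g2.2.2, g3.2.1, g3.2.2]
    · rw [y1]; linarith [g0.2.1, g0.2.2, g1.2.1, g1.2.2, g2.2.1, g2.2.2, g3.2.1, g3.2.2]
  refine ⟨Finset.univ.image M, ?_, ?_, ?_⟩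
  · intro m hm
    obtain ⟨p, -, rfl⟩ := Finset.mem_image.mp hm
    exact hrange p
  · refine Finset.card_image_le.trans ?_
    rw [Finset.card_univ, Fintype.card_prod, Fintype.card_fin, Fintype.card_fin, mul_comm]
  · rw [Finset.sum_image (fun p _ q _ h => hinj h), Fintype.sum_prod_type]
    have hKX : ρ.1 = ∑ q : Fin K, X := by
      rw [Finset.sum_const, Finset.card_univ, Fintype.card_fin, nsmul_eq_mul, hX]
      field_simp
    have hKY : ρ.2 = ∑ q : Fin K, Y := by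
      rw [Finset.sum_const, Finset.card_univ, Fintype.card_fin, nsmul_eq_mul, hY]
      field_simp
    have hx8 : xv (8 * n) = s ^ 2 / 8 := by
      rw [hs2]; unfold xv; push_cast; field_simp
    have hy8 : s / 3 ≤ yv (8 * n) := by
      have h1 : (s / 3) ^ 2 ≤ yv (8 * n) ^ 2 := by
        rw [yv_sq, hx8]
        nlinarith [sq_nonneg s]
      exact (pow_le_pow_iff_left₀ (by positivity) (yv_nonneg _) (by norm_num)).mp h1
    have hs2K : s ^ 2 * K ^ 2 ≤ 1 / 2000 := by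
      have h1 : s ^ 2 * (2000 * K ^ 2) ≤ s ^ 2 * n := mul_le_mul_of_nonneg_left hnK (by positivity)
      rw [hs2n] at h1
      linarith
    constructor
    · rw [Prod.fst_sub, Prod.fst_sum, hKX, ← Finset.sum_sub_distrib]
      refine (Finset.abs_sum_le_sum_abs _ _).trans ?_
      refine (Finset.sum_le_sum fun q _ => (hsum q).1).trans ?_
      rw [Finset.sum_const, Finset.card_univ, Fintype.card_fin, nsmul_eq_mul, hx8]
      have h1 : (K : ℝ) * (4 * (2 * K * (4 / 10 * s ^ 4 * (103 / 100))))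
          = 3296 / 1000 * (s ^ 2 * K ^ 2) * s ^ 2 := by ring
      rw [h1]
      have h2 : 0 < s ^ 2 := by positivity
      nlinarith
    · rw [Prod.snd_sub, Prod.snd_sum, hKY, ← Finset.sum_sub_distrib]
      refine (Finset.abs_sum_le_sum_abs _ _).trans ?_
      refine (Finset.sum_le_sum fun q _ => (hsum q).2).trans ?_
      rw [Finset.sum_const, Finset.card_univ, Fintype.card_fin, nsmul_eq_mul]
      have h1 : (K : ℝ) * (4 * (2 * K * (52 / 100 * s ^ 3)))
          = 416 / 100 * (s ^ 2 * K ^ 2) * s := by ring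
      rw [h1]
      nlinarith

end Q92.Planar
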