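import Mathlib
import Pool.Agent.Q92.PlanarBlock

/-!
# The planar series `(-1)^n (1/n, 1/√n)`: the coarse phase
-/

namespace Q92.Planar

open Filter Topology

lemma greedy (w : ℕ → ℝ) (W t : ℝ) (hW : 0 ≤ W) (hw : ∀ i, w i ≤ W) (ht : 0 ≤ t) (T : ℕ)
    (hT : t ≤ ∑ i ∈ Finset.range T, w i) :
    ∃ k ≤ T, t ≤ ∑ i ∈ Finset.range k, w i ∧ ∑ i ∈ Finset.range k, w i ≤ t + W := by
  classical
  have hex : ∃ k, t ≤ ∑ i ∈ Finset.range k, w i := ⟨T, hT⟩
  refine ⟨Nat.find hex, Nat.find_min' hex hT, Nat.find_spec hex, ?_⟩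
  rcases Nat.eq_zero_or_pos (Nat.find hex) with h | h
  · rw [h]; simp; linarith
  · obtain ⟨j, hj⟩ := Nat.exists_eq_add_of_lt h
    have hj' : Nat.find hex = j + 1 := by omega
    have h1 : ¬ t ≤ ∑ i ∈ Finset.range j, w i := Nat.find_min hex (by omega)
    push Not at h1
    rw [hj', Finset.sum_range_succ]
    linarith [hw j]

lemma v_eq (m : ℕ) : v m = ((-1) ^ m * xv m, (-1) ^ m * yv m) := by
  unfold v xv yv
  rw [mul_one_div, mul_one_div]

lemma sign_eq (k e : ℕ) : (-1 : ℝ) ^ (2 * k + e) = (-1) ^ e := by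
  rw [pow_add, pow_mul]; norm_num

lemma xv_four (m : ℕ) : xv (4 * m) = xv m / 4 := by
  unfold xv; push_cast; field_simp

lemma yv_four (m : ℕ) : yv (4 * m) = yv m / 2 := by
  unfold yv; push_cast
  rw [Real.sqrt_mul (by norm_num), show (4:ℝ) = 2 ^ 2 by norm_num, Real.sqrt_sq (by norm_num)]
  field_simp

/-- the first step: correct the second coordinate -/
lemma stepY (b : ℝ) (n : ℕ) (hn : 1 ≤ n) (hb : 4 * b ^ 2 ≤ n) :
    ∃ S : Finset ℕ, (∀ m ∈ S, 2 * n ≤ m ∧ m < 4 * n) ∧
      |b - (∑ m ∈ S, v m).2| ≤ yv (2 * n) ∧ |(∑ m ∈ S, v m).1| ≤ yv (2 * n) * (|b| + yv (2 * n)) := by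
  classical
  obtain ⟨e, he, hσ⟩ : ∃ e : ℕ, e < 2 ∧ (-1 : ℝ) ^ e * |b| = b := by
    rcases le_total 0 b with h | h
    · exact ⟨0, by norm_num, by rw [abs_of_nonneg h]; simp⟩
    · exact ⟨1, by norm_num, by rw [abs_of_nonpos h]; simp⟩
  have hsg : |(-1 : ℝ) ^ e| = 1 := by rw [abs_pow]; simp
  have hnR : (1:ℝ) ≤ n := by exact_mod_cast hn
  -- the weights
  have hw : ∀ i, yv (2 * (n + i) + e) ≤ yv (2 * n) := fun i => yv_anti (by omega) (by omega)
  have hT : |b| ≤ ∑ i ∈ Finset.range n, yv (2 * (n + i) + e) := by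
    have h1 : ∀ i ∈ Finset.range n, yv (4 * n) ≤ yv (2 * (n + i) + e) := by
      intro i hi
      rw [Finset.mem_range] at hi
      exact yv_anti (by omega) (by omega)
    have h2 := Finset.sum_le_sum h1
    rw [Finset.sum_const, Finset.card_range, nsmul_eq_mul, yv_four] at h2
    refine le_trans ?_ h2
    have h3 : 0 ≤ (n : ℝ) * (yv n / 2) := by have := yv_nonneg n; positivity
    have h4 : ((n : ℝ) * (yv n / 2)) ^ 2 = n / 4 := by
      rw [mul_pow, div_pow, yv_sq]; unfold xv; field_simp; norm_num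
    have h5 : |b| ^ 2 ≤ ((n : ℝ) * (yv n / 2)) ^ 2 := by
      rw [h4, sq_abs]; nlinarith [sq_nonneg b]
    exact (pow_le_pow_iff_left₀ (abs_nonneg b) h3 (by norm_num)).mp h5
  obtain ⟨k, hk, h1, h2⟩ := greedy _ (yv (2 * n)) |b| (yv_nonneg _) hw (abs_nonneg b) n hT
  have hinj : Function.Injective fun i => 2 * (n + i) + e := by
    intro i j h
    simp only at h
    omega
  refine ⟨(Finset.range k).image (fun i => 2 * (n + i) + e), ?_, ?_, ?_⟩
  · intro m hm
    obtain ⟨i, hi, rfl⟩ := Finset.mem_image.mp hm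
    rw [Finset.mem_range] at hi
    omega
  · rw [Finset.sum_image (fun i _ j _ h => hinj h), Prod.snd_sum]
    have e1 : ∀ i ∈ Finset.range k, (v (2 * (n + i) + e)).2
        = (-1) ^ e * yv (2 * (n + i) + e) := by
      intro i _
      rw [v_eq]; simp only; rw [sign_eq]
    rw [Finset.sum_congr rfl e1, ← Finset.mul_sum]
    have e2 : b - (-1) ^ e * ∑ i ∈ Finset.range k, yv (2 * (n + i) + e)
        = (-1) ^ e * (|b| - ∑ i ∈ Finset.range k, yv (2 * (n + i) + e)) := by
      rw [mul_sub, hσ]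
    rw [e2, abs_mul, hsg, one_mul, abs_le]
    constructor <;> linarith [yv_nonneg (2 * n)]
  · rw [Finset.sum_image (fun i _ j _ h => hinj h), Prod.fst_sum]
    have e1 : ∀ i ∈ Finset.range k, (v (2 * (n + i) + e)).1
        = (-1) ^ e * xv (2 * (n + i) + e) := by
      intro i _
      rw [v_eq]; simp only; rw [sign_eq]
    rw [Finset.sum_congr rfl e1, ← Finset.mul_sum, abs_mul, hsg, one_mul,
      abs_of_nonneg (Finset.sum_nonneg fun i _ => xv_nonneg _)]
    calc ∑ i ∈ Finset.range k, xv (2 * (n + i) + e)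
        ≤ ∑ i ∈ Finset.range k, yv (2 * n) * yv (2 * (n + i) + e) := by
          refine Finset.sum_le_sum fun i _ => ?_
          rw [← yv_sq, sq]
          exact mul_le_mul_of_nonneg_right (hw i) (yv_nonneg _)
      _ = yv (2 * n) * ∑ i ∈ Finset.range k, yv (2 * (n + i) + e) := by rw [Finset.mul_sum]
      _ ≤ yv (2 * n) * (|b| + yv (2 * n)) := mul_le_mul_of_nonneg_left h2 (yv_nonneg _)

/-- the second step: correct the first coordinate by triples -/
lemma stepX (a : ℝ) (p : ℕ) (hp : 8 * |a| ≤ p) (n : ℕ) (hn : 1 ≤ n) :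
    ∃ S : Finset ℕ, (∀ m ∈ S, 4 * n ≤ m ∧ m < 20 * n * 2 ^ p) ∧
      |a - (∑ m ∈ S, v m).1| ≤ xv (4 * n) ∧ |(∑ m ∈ S, v m).2| ≤ yv (4 * n) := by
  classical
  obtain ⟨e, f, hef, hσ⟩ : ∃ e f : ℕ, e + f = 1 ∧ (-1 : ℝ) ^ e * |a| = a := by
    rcases le_total 0 a with h | h
    · exact ⟨0, 1, by norm_num, by rw [abs_of_nonneg h]; simp⟩
    · exact ⟨1, 0, by norm_num, by rw [abs_of_nonpos h]; simp⟩
  have hsg : |(-1 : ℝ) ^ e| = 1 := by rw [abs_pow]; simp
  have hsf : (-1 : ℝ) ^ f = - (-1) ^ e := by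
    have h : (e = 0 ∧ f = 1) ∨ (e = 1 ∧ f = 0) := by omega
    rcases h with ⟨rfl, rfl⟩ | ⟨rfl, rfl⟩ <;> norm_num
  set M : ℕ → ℕ := fun i => 2 * (2 * n + i) + e with hM
  have hMpos : ∀ i, 4 * n ≤ M i := fun i => by simp only [hM]; omega
  -- effect of a triple
  set wx : ℕ → ℝ := fun i => xv (M i) - xv (4 * M i + f) - xv (4 * M i + 2 + f) with hwx
  set wy : ℕ → ℝ := fun i => yv (M i) - yv (4 * M i + f) - yv (4 * M i + 2 + f) with hwy
  have hwx1 : ∀ i, xv (M i) / 2 ≤ wx i := by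
    intro i
    have h1 : xv (4 * M i + f) ≤ xv (4 * M i) := xv_anti (by have := hMpos i; omega) (by omega)
    have h2 : xv (4 * M i + 2 + f) ≤ xv (4 * M i) := xv_anti (by have := hMpos i; omega) (by omega)
    rw [xv_four] at h1 h2
    simp only [hwx]
    linarith
  have hwx2 : ∀ i, wx i ≤ xv (4 * n) := by
    intro i
    have h1 := xv_nonneg (4 * M i + f)
    have h2 := xv_nonneg (4 * M i + 2 + f)
    have h3 : xv (M i) ≤ xv (4 * n) := xv_anti (by omega) (hMpos i)
    simp only [hwx]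
    linarith
  have hwy1 : ∀ i, 0 ≤ wy i := by
    intro i
    have h1 : yv (4 * M i + f) ≤ yv (4 * M i) := yv_anti (by have := hMpos i; omega) (by omega)
    have h2 : yv (4 * M i + 2 + f) ≤ yv (4 * M i) := yv_anti (by have := hMpos i; omega) (by omega)
    rw [yv_four] at h1 h2
    simp only [hwy]
    linarith
  have hwy2 : ∀ i, wy i ≤ yv (M i) - yv (M (i + 1)) := by
    intro i
    have h1 : yv (4 * (M i + 1)) ≤ yv (4 * M i + f) := yv_anti (by have := hMpos i; omega) (by omega)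
    have h2 : yv (4 * (M i + 1)) ≤ yv (4 * M i + 2 + f) :=
      yv_anti (by have := hMpos i; omega) (by omega)
    rw [yv_four] at h1 h2
    have h3 : yv (M (i + 1)) ≤ yv (M i + 1) := yv_anti (by omega) (by simp only [hM]; omega)
    simp only [hwy]
    linarith
  -- divergence
  have hdiv : ∀ q : ℕ, (q : ℝ) / 8 ≤ ∑ i ∈ Finset.range (2 * n * (2 ^ q - 1)), wx i := by
    intro q
    induction q with
    | zero => simp
    | succ q ih =>
      have hq1 : 1 ≤ 2 ^ q := Nat.one_le_two_pow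
      have hsplit : 2 * n * (2 ^ (q + 1) - 1) = 2 * n * (2 ^ q - 1) + 2 * n * 2 ^ q := by
        rw [pow_succ]
        rw [← mul_add]
        congr 1
        omega
      rw [hsplit, Finset.sum_range_add]
      have h1 : ∀ i ∈ Finset.range (2 * n * 2 ^ q), 1 / (16 * n * 2 ^ q : ℝ)
          ≤ wx (2 * n * (2 ^ q - 1) + i) := by
        intro i hi
        rw [Finset.mem_range] at hi
        refine le_trans ?_ (hwx1 _)
        have h2 : M (2 * n * (2 ^ q - 1) + i) ≤ 8 * n * 2 ^ q := by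
          simp only [hM]
          have h3 : 2 * n * (2 ^ q - 1) + 2 * n = 2 * n * 2 ^ q := by
            rw [← Nat.mul_succ]; congr 1; omega
          have h4 : 8 * n * 2 ^ q = 4 * (2 * n * 2 ^ q) := by ring
          omega
        have h3 : xv (8 * n * 2 ^ q) ≤ xv (M (2 * n * (2 ^ q - 1) + i)) :=
          xv_anti (by have := hMpos (2 * n * (2 ^ q - 1) + i); omega) h2
        have h4 : xv (8 * n * 2 ^ q) = 2 * (1 / (16 * n * 2 ^ q : ℝ)) := by
          unfold xv; push_cast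
          have : (0:ℝ) < n := by exact_mod_cast hn
          field_simp
          norm_num
        linarith
      have h5 := Finset.sum_le_sum h1
      rw [Finset.sum_const, Finset.card_range, nsmul_eq_mul] at h5
      have h6 : ((2 * n * 2 ^ q : ℕ) : ℝ) * (1 / (16 * n * 2 ^ q : ℝ)) = 1 / 8 := by
        push_cast
        have : (0:ℝ) < n := by exact_mod_cast hn
        field_simp
        norm_num
      rw [h6] at h5
      push_cast
      linarith
  have hT : |a| ≤ ∑ i ∈ Finset.range (2 * n * (2 ^ p - 1)), wx i := by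
    have := hdiv p
    linarith
  obtain ⟨k, hk, h1, h2⟩ := greedy wx (xv (4 * n)) |a| (xv_nonneg _) hwx2 (abs_nonneg a) _ hT
  set A := (Finset.range k).image M with hA
  set B := (Finset.range k).image (fun i => 4 * M i + f) with hB
  set C := (Finset.range k).image (fun i => 4 * M i + 2 + f) with hC
  have hMinj : Function.Injective M := by
    intro i j h; simp only [hM] at h; omega
  have hpar : ∀ i, M i % 2 = e := fun i => by simp only [hM]; omega
  have hAB : Disjoint A B := by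
    rw [Finset.disjoint_left]
    intro m hm hm'
    obtain ⟨i, -, rfl⟩ := Finset.mem_image.mp hm
    obtain ⟨j, -, hj⟩ := Finset.mem_image.mp hm'
    have := hpar i
    omega
  have hABC : Disjoint (A ∪ B) C := by
    rw [Finset.disjoint_left]
    intro m hm hm'
    obtain ⟨j, -, hj⟩ := Finset.mem_image.mp hm'
    rcases Finset.mem_union.mp hm with hm | hm
    · obtain ⟨i, -, hi⟩ := Finset.mem_image.mp hm
      have := hpar i
      omega
    · obtain ⟨i, -, hi⟩ := Finset.mem_image.mp hm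
      omega
  have hkb : ∀ i < k, 4 * M i + 3 < 20 * n * 2 ^ p := by
    intro i hi
    have h3 : 2 * n * (2 ^ p - 1) + 2 * n = 2 * n * 2 ^ p := by
      have : 1 ≤ 2 ^ p := Nat.one_le_two_pow
      rw [← Nat.mul_succ]; congr 1; omega
    have h4 : 20 * n * 2 ^ p = 8 * (2 * n * 2 ^ p) + 4 * (n * 2 ^ p) := by ring
    have h5 : 1 ≤ n * 2 ^ p := Nat.mul_pos hn Nat.one_le_two_pow
    simp only [hM]
    omega
  have hsum : ∑ m ∈ A ∪ B ∪ C, v m = ((-1) ^ e * ∑ i ∈ Finset.range k, wx i,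
      (-1) ^ e * ∑ i ∈ Finset.range k, wy i) := by
    rw [Finset.sum_union hABC, Finset.sum_union hAB, hA, hB, hC,
      Finset.sum_image (fun i _ j _ h => hMinj h),
      Finset.sum_image (fun i _ j _ h => hMinj (by omega)),
      Finset.sum_image (fun i _ j _ h => hMinj (by omega)),
      ← Finset.sum_add_distrib, ← Finset.sum_add_distrib, Finset.mul_sum, Finset.mul_sum]
    have e1 : ∀ i ∈ Finset.range k, v (M i) + v (4 * M i + f) + v (4 * M i + 2 + f)
        = ((-1) ^ e * wx i, (-1) ^ e * wy i) := by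
      intro i _
      have s1 : (-1 : ℝ) ^ (M i) = (-1) ^ e := by simp only [hM]; exact sign_eq _ _
      have s2 : (-1 : ℝ) ^ (4 * M i + f) = - (-1) ^ e := by
        rw [show 4 * M i + f = 2 * (2 * M i) + f by ring, sign_eq, hsf]
      have s3 : (-1 : ℝ) ^ (4 * M i + 2 + f) = - (-1) ^ e := by
        rw [show 4 * M i + 2 + f = 2 * (2 * M i + 1) + f by ring, sign_eq, hsf]
      rw [v_eq, v_eq, v_eq, s1, s2, s3]
      simp only [hwx, hwy, Prod.mk_add_mk]
      ext <;> simp <;> ring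
    rw [Finset.sum_congr rfl e1]
    ext
    · rw [Prod.fst_sum]
    · rw [Prod.snd_sum]
  refine ⟨A ∪ B ∪ C, ?_, ?_, ?_⟩
  · intro m hm
    rcases Finset.mem_union.mp hm with hm | hm
    · rcases Finset.mem_union.mp hm with hm | hm
      · obtain ⟨i, hi, rfl⟩ := Finset.mem_image.mp hm
        have h3 := hkb i (Finset.mem_range.mp hi)
        have h4 := hMpos i
        omega
      · obtain ⟨i, hi, rfl⟩ := Finset.mem_image.mp hm
        have h3 := hkb i (Finset.mem_range.mp hi)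
        have h4 := hMpos i
        omega
    · obtain ⟨i, hi, rfl⟩ := Finset.mem_image.mp hm
      have h3 := hkb i (Finset.mem_range.mp hi)
      have h4 := hMpos i
      omega
  · rw [hsum]
    have e2 : a - (-1) ^ e * ∑ i ∈ Finset.range k, wx i
        = (-1) ^ e * (|a| - ∑ i ∈ Finset.range k, wx i) := by
      rw [mul_sub, hσ]
    simp only
    rw [e2, abs_mul, hsg, one_mul, abs_le]
    constructor <;> linarith [xv_nonneg (4 * n)]
  · rw [hsum]
    simp only
    rw [abs_mul, hsg, one_mul, abs_of_nonneg (Finset.sum_nonneg fun i _ => hwy1 i)]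
    have h3 : ∑ i ∈ Finset.range k, wy i ≤ ∑ i ∈ Finset.range k, (yv (M i) - yv (M (i + 1))) :=
      Finset.sum_le_sum fun i _ => hwy2 i
    rw [Finset.sum_range_sub' (fun i => yv (M i))] at h3
    have h4 : yv (M 0) ≤ yv (4 * n) := yv_anti (by omega) (hMpos 0)
    have h5 := yv_nonneg (M k)
    linarith

/-- the coarse phase -/
lemma coarse (ρ : ℝ × ℝ) : ∃ (K n : ℕ) (S : Finset ℕ), 1 ≤ K ∧ 2000 * K ^ 2 ≤ n ∧
    (∀ m ∈ S, 1 ≤ m ∧ m < n) ∧ Box K n (ρ - ∑ m ∈ S, v m) := by
  classical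
  obtain ⟨a, b⟩ := ρ
  obtain ⟨p, hp⟩ := exists_nat_ge (8 * (|a| + 1))
  set P := 2 ^ p with hP
  have hP1 : 1 ≤ P := Nat.one_le_two_pow
  set K := 800 * P with hK
  obtain ⟨n, hn⟩ := exists_nat_ge (max (4 * b ^ 2) (max (2000 * (K:ℝ) ^ 2) ((|b| + 1) ^ 2)))
  have hn1 : 4 * b ^ 2 ≤ n := (le_max_left _ _).trans hn
  have hn2 : 2000 * (K:ℝ) ^ 2 ≤ n := ((le_max_left _ _).trans (le_max_right _ _)).trans hn
  have hn3 : (|b| + 1) ^ 2 ≤ n := ((le_max_right _ _).trans (le_max_right _ _)).trans hn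
  have hn2' : 2000 * K ^ 2 ≤ n := by exact_mod_cast hn2
  have hnpos : 1 ≤ n := by
    have : 1 ≤ K := by omega
    nlinarith
  have hnR : (1:ℝ) ≤ n := by exact_mod_cast hnpos
  obtain ⟨S₁, h11, h12, h13⟩ := stepY b n hnpos hn1
  set a₁ := a - (∑ m ∈ S₁, v m).1 with ha₁
  have hy2n : yv (2 * n) ≤ 1 := by
    have : yv (2 * n) ≤ yv 1 := yv_anti (by norm_num) (by omega)
    have h1 : yv 1 = 1 := by unfold yv; simp
    linarith
  have hsmall : |(∑ m ∈ S₁, v m).1| ≤ 1 := by
    refine h13.trans ?_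
    have h1 : yv (2 * n) ≤ yv n := yv_anti (by omega) (by omega)
    have h2 : yv n * (|b| + 1) ≤ 1 := by
      have h3 : (yv n * (|b| + 1)) ^ 2 ≤ 1 ^ 2 := by
        rw [mul_pow, yv_sq]
        unfold xv
        rw [one_div, inv_mul_le_iff₀ (by linarith)]
        linarith
      have h0 : 0 ≤ yv n * (|b| + 1) := mul_nonneg (yv_nonneg n) (by positivity)
      exact (pow_le_pow_iff_left₀ h0 (by norm_num) (by norm_num)).mp h3
    calc yv (2 * n) * (|b| + yv (2 * n)) ≤ yv n * (|b| + 1) := by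
          apply mul_le_mul h1 (by linarith) _ (yv_nonneg n)
          have := yv_nonneg (2 * n)
          positivity
      _ ≤ 1 := h2
  have ha₁b : 8 * |a₁| ≤ p := by
    have : |a₁| ≤ |a| + |(∑ m ∈ S₁, v m).1| := abs_sub _ _
    linarith
  obtain ⟨S₂, h21, h22, h23⟩ := stepX a₁ p ha₁b n hnpos
  have hdis : Disjoint S₁ S₂ := by
    rw [Finset.disjoint_left]
    intro m hm1 hm2
    have := h11 m hm1
    have := h21 m hm2
    omega
  refine ⟨K, 20 * n * P, S₁ ∪ S₂, by omega, ?_, ?_, ?_, ?_⟩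
  · calc 2000 * K ^ 2 ≤ n := hn2'
      _ ≤ 20 * n * P := by nlinarith
  · intro m hm
    rcases Finset.mem_union.mp hm with hm | hm
    · have h1 := h11 m hm
      refine ⟨by omega, lt_of_lt_of_le h1.2 ?_⟩
      nlinarith
    · have h1 := h21 m hm
      exact ⟨by omega, h1.2⟩
  · rw [Finset.sum_union hdis]
    have e1 : ((a, b) - (∑ m ∈ S₁, v m + ∑ m ∈ S₂, v m)).1 = a₁ - (∑ m ∈ S₂, v m).1 := by
      rw [ha₁]; simp; ring
    rw [e1]
    refine h22.trans ?_
    unfold xv
    rw [hK]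
    push_cast
    have hPR : (1:ℝ) ≤ P := by exact_mod_cast hP1
    rw [div_le_iff₀ (by positivity)]
    have : 800 * (P:ℝ) / 40 * (1 / (20 * n * P)) * (4 * n) = 4 := by field_simp; norm_num
    rw [this]; norm_num
  · rw [Finset.sum_union hdis]
    have e1 : ((a, b) - (∑ m ∈ S₁, v m + ∑ m ∈ S₂, v m)).2
        = (b - (∑ m ∈ S₁, v m).2) - (∑ m ∈ S₂, v m).2 := by
      simp; ring
    rw [e1]
    have h1 : |(b - (∑ m ∈ S₁, v m).2) - (∑ m ∈ S₂, v m).2| ≤ 2 * yv (2 * n) := by
      refine (abs_sub _ _).trans ?_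
      have : yv (4 * n) ≤ yv (2 * n) := yv_anti (by omega) (by omega)
      linarith
    refine h1.trans ?_
    have hPR : (1:ℝ) ≤ P := by exact_mod_cast hP1
    have h2 : yv (2 * n) ≤ 10 * P * yv (20 * n * P) := by
      have h3 : yv (2 * n) ^ 2 ≤ (10 * P * yv (20 * n * P)) ^ 2 := by
        rw [mul_pow, yv_sq, yv_sq]
        unfold xv
        push_cast
        rw [div_le_iff₀ (by positivity)]
        have : (10 * (P:ℝ)) ^ 2 * (1 / (20 * n * P)) * (2 * n) = 10 * P := by
          field_simp; norm_num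
        rw [this]; linarith
      exact (pow_le_pow_iff_left₀ (yv_nonneg _) (mul_nonneg (by positivity) (yv_nonneg _))
        (by norm_num)).mp h3
    rw [hK]
    push_cast
    have := yv_nonneg (20 * n * P)
    nlinarith

end Q92.Planar
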